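import Mathlib
import Pool.Agent.H5.Q1.Index
import Pool.Agent.H77.Q1.Open
import Pool.Agent.Q1.M5.Defs

set_option autoImplicit false
set_option linter.unusedSimpArgs false
open Finset

/-! Q1, module M5: the CORRIDOR of free labels along the free arc of a type `P`, outside the lattice
domain, in the environment of the exterior wire `XW`. Positions on the loop of outer corners are
counted from the mark `a` by the walk of `H5/Q1/Index.lean`. -/

namespace Pool.Agent.H29.Q1

open Pool.Agent.H75.Perc Pool.Agent.H75.TwoArm Pool.Agent.H75.Four Pool.Agent.H49.Q1 Pool.Agent.H5.Q1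
open Pool.Agent.H77.Q1
open Pool.Agent.Q1.M4 (Conn4 Adj4 Good Cell IsSide nextSide tail head PType isSide_next
  head_eq_tail_next inV inRect lpt tail_inj Eqv)
open Pool.Agent.Q1.M5

/-! ### Labels and faces -/

/-- The labels of the closed lattice region are the labels of its faces. -/
lemma gs_eq {X Y : ℤ → ℤ} (hX : StrictMono X) (hY : StrictMono Y) (Q : Finset Cell) :
    gs X Y Q = EF (LF Q X Y) := by
  ext e
  rw [mem_gs, mem_EF]
  constructor
  · rintro ⟨c, hc, he⟩
    have h1 : X c.1 < X (c.1 + 1) := hX (by omega)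
    have h2 : Y c.2 < Y (c.2 + 1) := hY (by omega)
    unfold gcell at he
    rw [mem_Bx] at he
    obtain ⟨he1, he2, he3⟩ := he
    rcases Int.emod_two_eq_zero_or_one e.1 with h3 | h3
    · -- vertical edge
      by_cases h4 : e.1 = 2 * X c.1
      · refine ⟨(X c.1 + 1, (e.2 + 1) / 2), mem_LF.2 ⟨c, hc, by simp only; omega, by simp only; omega⟩, ?_⟩
        rw [mem_lf]; simp only; omega
      · refine ⟨(e.1 / 2, (e.2 + 1) / 2), mem_LF.2 ⟨c, hc, by simp only; omega, by simp only; omega⟩, ?_⟩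
        rw [mem_lf]; simp only; omega
    · by_cases h4 : e.2 = 2 * Y c.2
      · refine ⟨((e.1 + 1) / 2, Y c.2 + 1), mem_LF.2 ⟨c, hc, by simp only; omega, by simp only; omega⟩, ?_⟩
        rw [mem_lf]; simp only; omega
      · refine ⟨((e.1 + 1) / 2, e.2 / 2), mem_LF.2 ⟨c, hc, by simp only; omega, by simp only; omega⟩, ?_⟩
        rw [mem_lf]; simp only; omega
  · rintro ⟨f, hf, he⟩
    obtain ⟨c, hc, h1, h2⟩ := mem_LF.1 hf
    refine ⟨c, hc, ?_⟩
    unfold gcell
    rw [mem_Bx]
    rw [mem_lf] at he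
    omega

/-- The label met at an outer corner is odd. -/
lemma lab_odd (c : ℤ × ℤ) : ((lab c).1 + (lab c).2) % 2 = 1 := by
  rcases ty_cases c with h | h | h | h <;> obtain ⟨-, h1, h2, h3, -⟩ := h <;> rw [h3] <;>
    simp only <;> omega

/-- The two ends of the label of a corner. -/
lemma lab_oc (p : ℤ × ℤ) (k : ℤ) : lab (oc p k) = root k p := by
  unfold root outer
  rcases oc_cases p k with ⟨a, h⟩ | ⟨a, h⟩ | ⟨a, h⟩ | ⟨a, h⟩ <;>
  rcases dir_cases (k - 1) with ⟨b, g⟩ | ⟨b, g⟩ | ⟨b, g⟩ | ⟨b, g⟩ <;>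
  first
  | (exfalso; omega)
  | (rw [h, g]
     rcases ty_cases (oc p k) with h' | h' | h' | h' <;> obtain ⟨-, h1, h2, h3, -⟩ := h' <;>
     rw [h] at h1 h2 h3 <;> rw [h3] <;> simp only at h1 h2 <;>
     first
     | (exfalso; omega)
     | (refine Prod.ext ?_ ?_ <;> simp <;> omega))

/-- The faces on the two sides of the label of a corner. -/
lemma fi_step (c : ℤ × ℤ) : IsUnit4 (fi (nxC c) - fi c) ∧ lbf (fi c) (fi (nxC c)) = lab c := by
  obtain ⟨h1, h2⟩ := StrandAux.fi_nxC c
  refine ⟨h1, ?_⟩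
  unfold lbf
  rw [h2, add_sub_cancel_right]

/-- **The corridor.** Consecutive corners of the exploration of `E` are joined by a dual path crossing
the closed labels met. -/
lemma dc_corr {M : ℤ} {e0 : ℤ × ℤ} {η E : Finset (ℤ × ℤ)} {c : ℤ × ℤ} {i n : ℕ} (hin : i ≤ n)
    (h : ∀ j, i ≤ j → j < n → lab ((nx E)^[j] c) ∉ E → lab ((nx E)^[j] c) ∈ H75.TwoArm.BB M ∧
      lab ((nx E)^[j] c) ≠ e0 ∧ lab ((nx E)^[j] c) ∉ η) :
    Dc M e0 η (fi ((nx E)^[i] c)) (fi ((nx E)^[n] c)) := by
  induction n with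
  | zero =>
    have : i = 0 := by omega
    rw [this]; exact Dc.refl _
  | succ n ih =>
    rcases Nat.lt_or_ge n i with hlt | hge
    · have : i = n + 1 := by omega
      rw [this]; exact Dc.refl _
    · have h1 := ih hge (fun j hj1 hj2 => h j hj1 (by omega))
      rw [Function.iterate_succ_apply']
      by_cases h2 : lab ((nx E)^[n] c) ∈ E
      · have : nx E ((nx E)^[n] c) = nxO ((nx E)^[n] c) := if_pos h2
        rw [this, StrandAux.fi_nxO]
        exact h1
      · have h3 : nx E ((nx E)^[n] c) = nxC ((nx E)^[n] c) := if_neg h2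
        rw [h3]
        obtain ⟨h4, h5, h6⟩ := h n hge (by omega) h2
        obtain ⟨h7, h8⟩ := fi_step ((nx E)^[n] c)
        refine h1.trans (Relation.ReflTransGen.single (ad_dc.2 ⟨h7, ?_, ?_, ?_⟩)) <;> rw [h8]
        · exact h4
        · exact h5
        · exact h6

/-! ### Positions -/

section pos

variable {Q : Finset Cell} {X Y : ℤ → ℤ}

/-- The corner number `i` of the loop of outer corners, counted from the beginning of `s`. -/
noncomputable def cor (Q : Finset Cell) (X Y : ℤ → ℤ) (s : Cell × ℤ) (i : ℕ) : ℤ × ℤ :=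
  (nx (EF (LF Q X Y)))^[i] (sc X Y s)

/-- The corners of the part of the loop which belongs to the side number `n`. -/
lemma cor_cases (hX : StrictMono X) (hY : StrictMono Y) {s : Cell × ℤ} (hs : IsSide Q s) {n i : ℕ}
    (h1 : SS Q X Y s n ≤ i) (h2 : i < SS Q X Y s (n + 1)) :
    (∃ j < slen X Y ((nextSide Q)^[n] s), i = SS Q X Y s n + (2 * j + 1) ∧
        cor Q X Y s i = oc (sp X Y ((nextSide Q)^[n] s) (j + 1)) ((nextSide Q)^[n] s).2) ∨
      (∃ j < slen X Y ((nextSide Q)^[n] s), i = SS Q X Y s n + 2 * j ∧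
        cor Q X Y s i = oc (sp X Y ((nextSide Q)^[n] s) j) (((nextSide Q)^[n] s).2 + 1)) ∨
      ((nextSide Q ((nextSide Q)^[n] s)).2 = ((nextSide Q)^[n] s).2 + 1 ∧
        i = SS Q X Y s n + 2 * slen X Y ((nextSide Q)^[n] s) ∧
        cor Q X Y s i = oc (gp X Y (head ((nextSide Q)^[n] s))) (((nextSide Q)^[n] s).2 + 1)) := by
  rw [SS_succ] at h2
  have hp := slen_pos hX hY ((nextSide Q)^[n] s)
  unfold stp at h2
  unfold cor
  by_cases h3 : i - SS Q X Y s n < 2 * slen X Y ((nextSide Q)^[n] s)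
  · by_cases h4 : (i - SS Q X Y s n) % 2 = 0
    · right; left
      refine ⟨(i - SS Q X Y s n) / 2, by omega, by omega, ?_⟩
      have h5 := (walk_second hX hY hs n (j := (i - SS Q X Y s n) / 2) (by omega)).1
      have e : SS Q X Y s n + 2 * ((i - SS Q X Y s n) / 2) = i := by omega
      rw [e] at h5
      exact h5
    · left
      refine ⟨(i - SS Q X Y s n) / 2, by omega, by omega, ?_⟩
      have h5 := (walk_first hX hY hs n (j := (i - SS Q X Y s n) / 2) (by omega)).1
      have e : SS Q X Y s n + (2 * ((i - SS Q X Y s n) / 2) + 1) = i := by omega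
      rw [e] at h5
      exact h5
  · right; right
    have ht := tn_cast (Q := Q) ((nextSide Q)^[n] s)
    rcases nextSide_snd (Q := Q) ((nextSide Q)^[n] s) with h4 | h4 | h4
    · omega
    · omega
    · refine ⟨h4, by omega, ?_⟩
      have h5 := (walk_middle hX hY hs n h4).1
      have e : SS Q X Y s n + 2 * slen X Y ((nextSide Q)^[n] s) = i := by omega
      rw [e] at h5
      exact h5

lemma exists_side {s : Cell × ℤ} {i M : ℕ} (h : i < SS Q X Y s M) :
    ∃ n < M, SS Q X Y s n ≤ i ∧ i < SS Q X Y s (n + 1) := by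
  induction M with
  | zero => unfold SS at h; simp at h
  | succ M ih =>
    by_cases h1 : i < SS Q X Y s M
    · obtain ⟨n, hn, h2⟩ := ih h1
      exact ⟨n, by omega, h2⟩
    · exact ⟨M, by omega, by omega, h⟩

/-- The vertices `sp` are the lattice points of the closed side. -/
lemma sV_sp (hX : StrictMono X) (hY : StrictMono Y) (s : Cell × ℤ) {j : ℕ}
    (hj : j ≤ slen X Y s) : sV X Y s (sp X Y s j) := by
  obtain ⟨⟨a, b⟩, k⟩ := s
  have hX1 : X a < X (a + 1) := hX (by omega)
  have hY1 : Y b < Y (b + 1) := hY (by omega)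
  unfold sV onCell inB sp gp
  simp only
  rcases side_cases hX hY a b k with ⟨e, h1, h2, h3, h4⟩ | ⟨e, h1, h2, h3, h4⟩ |
    ⟨e, h1, h2, h3, h4⟩ | ⟨e, h1, h2, h3, h4⟩ <;> rw [h1, h3] <;> simp only [Prod.mk_add_mk] <;>
    omega

/-- Conversely. -/
lemma sp_of_sV (hX : StrictMono X) (hY : StrictMono Y) (s : Cell × ℤ) {v : ℤ × ℤ}
    (h : sV X Y s v) : ∃ j ≤ slen X Y s, v = sp X Y s j := by
  obtain ⟨⟨a, b⟩, k⟩ := s
  have hX1 : X a < X (a + 1) := hX (by omega)
  have hY1 : Y b < Y (b + 1) := hY (by omega)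
  unfold sV onCell inB at h
  unfold sp gp
  simp only at h ⊢
  rcases side_cases hX hY a b k with ⟨e, h1, h2, h3, h4⟩ | ⟨e, h1, h2, h3, h4⟩ |
    ⟨e, h1, h2, h3, h4⟩ | ⟨e, h1, h2, h3, h4⟩ <;> rw [h1, h3] <;>
    simp only [Prod.mk_add_mk, Prod.ext_iff]
  · exact ⟨(v.1 - X a).toNat, by omega, by omega⟩
  · exact ⟨(v.2 - Y b).toNat, by omega, by omega⟩
  · exact ⟨(X (a + 1) - v.1).toNat, by omega, by omega⟩
  · exact ⟨(Y (b + 1) - v.2).toNat, by omega, by omega⟩

/-- Two closed grid edges meet only in their ends, unless they are equal. -/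
lemma edge_meet (hX : StrictMono X) (hY : StrictMono Y) {s t : Cell × ℤ} {j : ℕ}
    (hj : j < slen X Y s) (h : sV X Y t (sp X Y s j)) :
    (j = 0 ∧ (tail s = tail t ∨ tail s = head t)) ∨
      Pool.Agent.Q1.M4.lab s = Pool.Agent.Q1.M4.lab t := by
  obtain ⟨⟨a, b⟩, k⟩ := s
  obtain ⟨⟨c, d⟩, l⟩ := t
  have hX1 : X a < X (a + 1) := hX (by omega)
  have hY1 : Y b < Y (b + 1) := hY (by omega)
  have hX2 : X c < X (c + 1) := hX (by omega)
  have hY2 : Y d < Y (d + 1) := hY (by omega)
  have x1 := hX.lt_iff_lt (a := a) (b := c)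
  have x2 := hX.lt_iff_lt (a := c) (b := a)
  have x3 := hX.lt_iff_lt (a := a) (b := c + 1)
  have x4 := hX.lt_iff_lt (a := c + 1) (b := a)
  have x5 := hX.lt_iff_lt (a := a + 1) (b := c)
  have x6 := hX.lt_iff_lt (a := c) (b := a + 1)
  have x7 := hX.lt_iff_lt (a := a + 1) (b := c + 1)
  have x8 := hX.lt_iff_lt (a := c + 1) (b := a + 1)
  have y1 := hY.lt_iff_lt (a := b) (b := d)
  have y2 := hY.lt_iff_lt (a := d) (b := b)
  have y3 := hY.lt_iff_lt (a := b) (b := d + 1)
  have y4 := hY.lt_iff_lt (a := d + 1) (b := b)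
  have y5 := hY.lt_iff_lt (a := b + 1) (b := d)
  have y6 := hY.lt_iff_lt (a := d) (b := b + 1)
  have y7 := hY.lt_iff_lt (a := b + 1) (b := d + 1)
  have y8 := hY.lt_iff_lt (a := d + 1) (b := b + 1)
  rw [Pool.Agent.Q1.M4.lab_eq_tail, Pool.Agent.Q1.M4.lab_eq_tail]
  unfold sV onCell inB sp gp at h
  unfold head
  simp only at h ⊢
  rcases side_cases hX hY a b k with ⟨e, h1, h2, h3, -⟩ | ⟨e, h1, h2, h3, -⟩ |
    ⟨e, h1, h2, h3, -⟩ | ⟨e, h1, h2, h3, -⟩ <;>
  rcases side_cases hX hY c d l with ⟨e', h1', -, h3', -⟩ | ⟨e', h1', -, h3', -⟩ |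
    ⟨e', h1', -, h3', -⟩ | ⟨e', h1', -, h3', -⟩ <;>
  (rw [h1, h3] at h
   rw [h1, h3, h1', h3']
   simp only [Prod.mk_add_mk, Prod.mk.injEq] at h ⊢
   omega)

end pos

/-! ### The free arc of a type -/

section ptype

variable {P : PType} {X Y : ℤ → ℤ}

lemma isSide (P : PType) (n : ℕ) : IsSide P.Q (P.side n) := isSide_iter P.side0 n

lemma side_succ (P : PType) (n : ℕ) : P.side (n + 1) = nextSide P.Q (P.side n) := by
  unfold PType.side
  rw [Function.iterate_succ_apply']

lemma head_side (P : PType) (n : ℕ) : head (P.side n) = tail (P.side (n + 1)) := by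
  rw [side_succ, head_eq_tail_next]

lemma side_N (P : PType) : P.side P.N = (P.s0.1, P.s0.2 + 4) := P.period

lemma side_zero (P : PType) : P.side 0 = P.s0 := rfl

/-- Equal sides have equal numbers. -/
lemma side_inj {n n' : ℕ} (hn : n < P.N) (hn' : n' < P.N) (h : Eqv (P.side n) (P.side n')) :
    n = n' := P.inj n hn n' hn' h.1 h.2

/-- Tails of different sides are different. -/
lemma tail_side_inj {n n' : ℕ} (hn : n < P.N) (hn' : n' < P.N)
    (h : tail (P.side n) = tail (P.side n')) : n = n' :=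
  side_inj hn hn' (tail_inj P.good (isSide P n) (isSide P n') h)

lemma tail_side_N (P : PType) : tail (P.side P.N) = tail (P.side 0) := by
  rw [side_N, side_zero]
  unfold tail
  have : (P.s0.2 + 4) % 4 = P.s0.2 % 4 := by omega
  simp only [this]

/-- A vertex of the open free arc does not belong to the wired arc. -/
lemma not_TV_sp (hX : StrictMono X) (hY : StrictMono Y) {n j : ℕ} (hn : n < P.m)
    (hj : j < slen X Y (P.side n)) (h0 : n ≠ 0 ∨ j ≠ 0) : ¬ TV P X Y (sp X Y (P.side n) j) := by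
  rintro ⟨n', h1, h2, h3⟩
  have hmN := P.hmN
  rcases edge_meet hX hY hj h3 with ⟨rfl, h4 | h4⟩ | h4
  · have := tail_side_inj (by omega) h2 h4
    omega
  · rw [head_side] at h4
    by_cases h5 : n' + 1 < P.N
    · have := tail_side_inj (by omega) h5 h4
      omega
    · have h6 : n' + 1 = P.N := by omega
      rw [h6, tail_side_N] at h4
      have := tail_side_inj (by omega) (by omega) h4
      omega
  · have := side_inj (by omega) h2 (Pool.Agent.Q1.M4.lab_inj (isSide P n) (isSide P n') h4)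
    omega

/-- Corner number `i` of the type. -/
noncomputable def pcor (P : PType) (X Y : ℤ → ℤ) (i : ℕ) : ℤ × ℤ := cor P.Q X Y P.s0 i

/-- Number of the corner at the beginning of the side `n`. -/
noncomputable def pos (P : PType) (X Y : ℤ → ℤ) (n : ℕ) : ℕ := SS P.Q X Y P.s0 n

/-- Number of the first corner at the mark `b`. -/
noncomputable def posB (P : PType) (X Y : ℤ → ℤ) : ℕ :=
  pos P X Y (P.m - 1) + (2 * slen X Y (P.side (P.m - 1)) - 1)

lemma pos_zero (P : PType) (X Y : ℤ → ℤ) : pos P X Y 0 = 0 := by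
  unfold pos SS; simp

lemma pos_succ (P : PType) (X Y : ℤ → ℤ) (n : ℕ) :
    pos P X Y (n + 1) = pos P X Y n + stp P.Q X Y (P.side n) := SS_succ _ _

lemma pos_mono (P : PType) (X Y : ℤ → ℤ) {m n : ℕ} (h : m ≤ n) : pos P X Y m ≤ pos P X Y n :=
  SS_mono _ h

lemma posB_lt (hX : StrictMono X) (hY : StrictMono Y) (P : PType) :
    posB P X Y ≤ pos P X Y P.m ∧ pos P X Y (P.m - 1) < posB P X Y := by
  have h1 := pos_succ P X Y (P.m - 1)
  have h2 : P.m - 1 + 1 = P.m := by have := P.hm0; omega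
  rw [h2] at h1
  have := slen_pos hX hY (P.side (P.m - 1))
  unfold stp at h1
  unfold posB
  omega

/-- The vertex of a corner of the open free arc. -/
lemma free_vx (hX : StrictMono X) (hY : StrictMono Y) {i : ℕ} (h1 : 1 ≤ i)
    (h2 : i < posB P X Y) : ∃ n j, n < P.m ∧ j < slen X Y (P.side n) ∧ (n ≠ 0 ∨ j ≠ 0) ∧
      vx (pcor P X Y i) = sp X Y (P.side n) j := by
  have hb := posB_lt hX hY P
  obtain ⟨n, hn, h3, h4⟩ := exists_side (Q := P.Q) (X := X) (Y := Y) (s := P.s0) (M := P.m)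
    (show i < pos P X Y P.m by omega)
  have h3' : pos P X Y n ≤ i := h3
  have h4' : i < pos P X Y (n + 1) := h4
  -- the vertex is the beginning of the next side
  have hnext : i ≥ pos P X Y n + (2 * slen X Y (P.side n) - 1) → n + 1 < P.m := by
    intro h5
    by_contra h6
    have h7 : n = P.m - 1 := by omega
    unfold posB at h2
    rw [← h7] at h2
    omega
  have hp := slen_pos hX hY (P.side n)
  have hp' := slen_pos hX hY (P.side (n + 1))
  have hhd : gp X Y (head (P.side n)) = sp X Y (P.side (n + 1)) 0 := by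
    rw [sp_zero, head_side]
  rcases cor_cases hX hY P.side0 h3 h4 with ⟨j, hj, h5, h6⟩ | ⟨j, hj, h5, h6⟩ | ⟨-, h5, h6⟩
  · change i = pos P X Y n + (2 * j + 1) at h5
    change pcor P X Y i = oc (sp X Y (P.side n) (j + 1)) _ at h6
    change j < slen X Y (P.side n) at hj
    rw [h6, vx_oc]
    by_cases h7 : j + 1 < slen X Y (P.side n)
    · exact ⟨n, j + 1, hn, h7, Or.inr (by omega), rfl⟩
    · have h8 : j + 1 = slen X Y (P.side n) := by omega
      refine ⟨n + 1, 0, hnext (by omega), hp', Or.inl (by omega), ?_⟩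
      rw [h8, sp_len hX hY, hhd]
  · change i = pos P X Y n + 2 * j at h5
    change pcor P X Y i = oc (sp X Y (P.side n) j) _ at h6
    change j < slen X Y (P.side n) at hj
    rw [h6, vx_oc]
    refine ⟨n, j, hn, hj, ?_, rfl⟩
    by_contra h7
    push Not at h7
    obtain ⟨rfl, rfl⟩ := h7
    rw [pos_zero] at h5
    omega
  · change i = pos P X Y n + 2 * slen X Y (P.side n) at h5
    change pcor P X Y i = oc (gp X Y (head (P.side n))) _ at h6
    rw [h6, vx_oc]
    exact ⟨n + 1, 0, hnext (by omega), hp', Or.inl (by omega), hhd⟩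

lemma free_not_TV (hX : StrictMono X) (hY : StrictMono Y) {i : ℕ} (h1 : 1 ≤ i)
    (h2 : i < posB P X Y) : ¬ TV P X Y (vx (pcor P X Y i)) := by
  obtain ⟨n, j, h3, h4, h5, h6⟩ := free_vx hX hY h1 h2
  rw [h6]
  exact not_TV_sp hX hY h3 h4 h5

/-- The corners of a side have their vertices on this closed side. -/
lemma vx_side (hX : StrictMono X) (hY : StrictMono Y) {n i : ℕ} (h1 : pos P X Y n ≤ i)
    (h2 : i < pos P X Y (n + 1)) : sV X Y (P.side n) (vx (pcor P X Y i)) := by
  rcases cor_cases hX hY P.side0 h1 h2 with ⟨j, hj, h5, h6⟩ | ⟨j, hj, h5, h6⟩ | ⟨-, h5, h6⟩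
  · change pcor P X Y i = oc (sp X Y (P.side n) (j + 1)) _ at h6
    rw [h6, vx_oc]
    exact sV_sp hX hY _ hj
  · change pcor P X Y i = oc (sp X Y (P.side n) j) _ at h6
    rw [h6, vx_oc]
    exact sV_sp hX hY _ (le_of_lt hj)
  · change pcor P X Y i = oc (gp X Y (head (P.side n))) _ at h6
    rw [h6, vx_oc, ← sp_len hX hY]
    exact sV_sp hX hY _ le_rfl

/-- Corners of the loop which are not in the free range belong to the wired arc. -/
lemma TV_vx (hX : StrictMono X) (hY : StrictMono Y) {i : ℕ} (h : i = 0 ∨ posB P X Y ≤ i)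
    (hi : i < pos P X Y P.N) : TV P X Y (vx (pcor P X Y i)) := by
  have hmN := P.hmN
  have hm0 := P.hm0
  rcases h with rfl | h
  · -- the mark a
    refine ⟨P.N - 1, by omega, by omega, ?_⟩
    have h1 : pcor P X Y 0 = oc (gp X Y (tail (P.side 0))) ((P.side 0).2 + 1) := rfl
    rw [h1, vx_oc, ← tail_side_N, show P.N = P.N - 1 + 1 by omega, ← head_side,
      ← sp_len hX hY]
    exact sV_sp hX hY _ le_rfl
  · by_cases h1 : i < pos P X Y P.m
    · -- the mark b
      have h2 : pos P X Y (P.m - 1) ≤ i := by have := posB_lt hX hY P; omega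
      have h3 : P.m - 1 + 1 = P.m := by omega
      have hv : vx (pcor P X Y i) = gp X Y (head (P.side (P.m - 1))) := by
        unfold posB at h
        rcases cor_cases hX hY P.side0 (n := P.m - 1) (i := i) h2 (by rw [h3]; exact h1) with
          ⟨j, hj, h5, h6⟩ | ⟨j, hj, h5, h6⟩ | ⟨-, h5, h6⟩
        · change i = pos P X Y (P.m - 1) + (2 * j + 1) at h5
          change pcor P X Y i = oc (sp X Y (P.side (P.m - 1)) (j + 1)) _ at h6
          change j < slen X Y (P.side (P.m - 1)) at hj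
          rw [h6, vx_oc, ← sp_len hX hY]
          congr 1
          omega
        · change i = pos P X Y (P.m - 1) + 2 * j at h5
          change j < slen X Y (P.side (P.m - 1)) at hj
          omega
        · change pcor P X Y i = oc (gp X Y (head (P.side (P.m - 1)))) _ at h6
          rw [h6, vx_oc]
      refine ⟨P.m, le_rfl, hmN, ?_⟩
      rw [hv, head_side, h3, ← sp_zero]
      exact sV_sp hX hY _ (Nat.zero_le _)
    · obtain ⟨n, hn, h3, h4⟩ := exists_side (Q := P.Q) (X := X) (Y := Y) (s := P.s0)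
        (M := P.N) hi
      refine ⟨n, ?_, hn, vx_side hX hY h3 h4⟩
      by_contra h5
      have h6 := pos_mono P X Y (show n + 1 ≤ P.m by omega)
      have h4' : i < pos P X Y (n + 1) := h4
      omega

end ptype

end Pool.Agent.H29.Q1
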