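import Mathlib
import Pool.Agent.H5.Q1.Index
import Pool.Agent.H77.Q1.Open
import Pool.Agent.Q1.M5.Defs
import Pool.Agent.H29.Q1.Pos

set_option autoImplicit false
set_option linter.unusedSimpArgs false
set_option linter.unnecessarySeqFocus false
open Finset

/-! Q1, module M5: the CORRIDOR of free labels along the free arc of a type `P`, outside the lattice
domain, in the environment of the exterior wire `XW`. Positions on the loop of outer corners are
counted from the mark `a` by the walk of `H5/Q1/Index.lean` (`pcor`, `pos`, `posB` in `Pos.lean`). -/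

namespace Pool.Agent.H29.Q1

open Pool.Agent.H75.Perc Pool.Agent.H75.TwoArm Pool.Agent.H75.Four Pool.Agent.H49.Q1 Pool.Agent.H5.Q1
open Pool.Agent.H77.Q1
open Pool.Agent.Q1.M4 (Conn4 Adj4 Good Cell IsSide nextSide tail head PType isSide_next
  head_eq_tail_next inV inRect lpt tail_inj Eqv)
open Pool.Agent.Q1.M5

/-- A corner is one of the two corners of its label. -/
lemma corner_cases (z : ℤ × ℤ) :
    (z = zu (H75.Perc.lab z) ∧ vx z = eu (H75.Perc.lab z) ∧ vx (nxO z) = ev (H75.Perc.lab z) ∧ fi (nxC z) = fi (zv (H75.Perc.lab z))) ∨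
    (z = zv (H75.Perc.lab z) ∧ vx z = ev (H75.Perc.lab z) ∧ vx (nxO z) = eu (H75.Perc.lab z) ∧ fi (nxC z) = fi (zu (H75.Perc.lab z))) := by
  obtain ⟨a, b⟩ := z
  rcases ty_cases (a, b) with ⟨-, h1, h2, h3, h4, h5⟩ | ⟨-, h1, h2, h3, h4, h5⟩ |
    ⟨-, h1, h2, h3, h4, h5⟩ | ⟨-, h1, h2, h3, h4, h5⟩ <;> rw [h3, h4, h5] <;>
    simp only at h1 h2 <;> unfold zu zv eu ev vx fi <;> simp only
  · right
    rw [if_pos h1, if_pos h1]
    refine ⟨?_, ?_, ?_, ?_⟩ <;> first | trivial | (refine Prod.ext ?_ ?_ <;> simp only <;> omega)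
  · left
    rw [if_neg (by omega), if_neg (by omega)]
    refine ⟨?_, ?_, ?_, ?_⟩ <;> first | trivial | (refine Prod.ext ?_ ?_ <;> simp only <;> omega)
  · left
    rw [if_pos (by omega), if_pos (by omega)]
    refine ⟨?_, ?_, ?_, ?_⟩ <;> first | trivial | (refine Prod.ext ?_ ?_ <;> simp only <;> omega)
  · right
    rw [if_neg (by omega), if_neg (by omega)]
    refine ⟨?_, ?_, ?_, ?_⟩ <;> first | trivial | (refine Prod.ext ?_ ?_ <;> simp only <;> omega)

lemma fac_corner (z : ℤ × ℤ) : Fac (H75.Perc.lab z) (fi z) (fi (nxC z)) := by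
  rcases corner_cases z with ⟨h1, -, -, h4⟩ | ⟨h1, -, -, h4⟩
  · left; exact ⟨congrArg fi h1, h4⟩
  · right; exact ⟨h4, congrArg fi h1⟩

lemma ends_corner (z : ℤ × ℤ) : Ends (H75.Perc.lab z) (vx z) (vx (nxO z)) := by
  rcases corner_cases z with ⟨-, h1, h2, -⟩ | ⟨-, h1, h2, -⟩
  · left; exact ⟨h1, h2⟩
  · right; exact ⟨h2, h1⟩

/-- The label of a corner as the sum of its ends. -/
lemma lab_ends (z : ℤ × ℤ) : H75.Perc.lab z = vx z + vx (nxO z) := by
  obtain ⟨a, b⟩ := z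
  rcases ty_cases (a, b) with ⟨-, h1, h2, h3, h4, h5⟩ | ⟨-, h1, h2, h3, h4, h5⟩ |
    ⟨-, h1, h2, h3, h4, h5⟩ | ⟨-, h1, h2, h3, h4, h5⟩ <;> rw [h3, h5] <;>
    simp only at h1 h2 <;> unfold vx <;> simp only <;> refine Prod.ext ?_ ?_ <;>
    simp only [Prod.mk_add_mk] <;> omega

/-- The vertex of a corner is a corner of its face. -/
lemma VF_corner (z : ℤ × ℤ) : VF (fi z) (vx z) := by
  obtain ⟨a, b⟩ := z
  unfold VF fi vx
  simp only
  omega

/-- Vertices of the lattice region. -/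
lemma mem_VE_iff {Q : Finset Cell} {X Y : ℤ → ℤ} (hX : StrictMono X) (hY : StrictMono Y)
    {v : ℤ × ℤ} : v ∈ VE (EF (LF Q X Y)) ↔ inV Q X Y v := by
  constructor
  · intro h
    obtain ⟨f, hf, hv⟩ := vf_of_VE h
    obtain ⟨c, hc, h1, h2⟩ := mem_LF.1 hf
    refine ⟨c, hc, ?_⟩
    unfold VF at hv
    unfold inRect
    omega
  · rintro ⟨c, hc, h1, h2⟩
    have h3 : X c.1 < X (c.1 + 1) := hX (by omega)
    have key : ∃ z, vx z = v ∧ H75.Perc.lab z ∈ EF (LF Q X Y) := by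
      by_cases h4 : v.1 < X (c.1 + 1)
      · refine ⟨oc v 1, vx_oc _ _, ?_⟩
        have h5 : H75.Perc.lab (oc v 1) = (2 * v.1 + 1, 2 * v.2) := by
          unfold oc H75.Perc.lab; simp
        rw [h5, ← gs_eq hX hY, mem_gs]
        refine ⟨c, hc, ?_⟩
        unfold gcell
        rw [mem_Bx]
        simp only
        omega
      · refine ⟨oc v 3, vx_oc _ _, ?_⟩
        have h5 : H75.Perc.lab (oc v 3) = (2 * v.1 - 1, 2 * v.2) := by
          unfold oc H75.Perc.lab; simp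
        rw [h5, ← gs_eq hX hY, mem_gs]
        refine ⟨c, hc, ?_⟩
        unfold gcell
        rw [mem_Bx]
        simp only
        omega
    obtain ⟨z, rfl, hz⟩ := key
    exact vx_mem_of_lab (fun e he => odd_EF he) hz

/-! ### Labels of the exterior -/

section ext

variable {P : PType} {X Y : ℤ → ℤ} {M : ℤ}

/-- The closed lattice region lies well inside the box of radius `M`. -/
def InBox (P : PType) (X Y : ℤ → ℤ) (M : ℤ) : Prop :=
  ∀ v, inV P.Q X Y v → (-(M - 2) ≤ v.1 ∧ v.1 ≤ M - 2) ∧ (-(M - 2) ≤ v.2 ∧ v.2 ≤ M - 2)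

/-- No edge outside the region has both ends in the region. -/
def NoChord (Q : Finset Cell) (X Y : ℤ → ℤ) : Prop :=
  ∀ e : ℤ × ℤ, (e.1 + e.2) % 2 = 1 → inV Q X Y (eu e) → inV Q X Y (ev e) → e ∈ gs X Y Q

/-- The face `g` touches the region. -/
def Tchs (Q : Finset Cell) (X Y : ℤ → ℤ) (g : ℤ × ℤ) : Prop := ∃ u, VF g u ∧ inV Q X Y u

lemma WL_sub_gs (P : PType) (X Y : ℤ → ℤ) : WL P X Y ⊆ gs X Y P.Q := by
  intro l hl
  unfold Pool.Agent.Q1.M5.WL at hl
  rw [mem_biUnion] at hl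
  obtain ⟨n, -, h⟩ := hl
  rw [mem_gs]
  unfold Pool.Agent.Q1.M5.sL at h
  exact ⟨_, (isSide P n).1, (mem_filter.1 h).1⟩

lemma mem_gs_iff (P : PType) (X Y : ℤ → ℤ) {l : ℤ × ℤ} : l ∈ gs X Y P.Q ↔
    l ∈ EL P X Y ∨ l ∈ WL P X Y := by
  unfold EL
  rw [mem_sdiff]
  constructor
  · intro h; tauto
  · rintro (h | h)
    · exact h.1
    · exact WL_sub_gs P X Y h

lemma mem_XW {l : ℤ × ℤ} : l ∈ XW P X Y M ↔ l ∈ WL P X Y ∨ (l ∈ H75.TwoArm.BB M ∧
    ((¬ inV P.Q X Y (eu l) ∧ ¬ inV P.Q X Y (ev l)) ∨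
    (TV P X Y (eu l) ∧ ¬ inV P.Q X Y (ev l)) ∨ (¬ inV P.Q X Y (eu l) ∧ TV P X Y (ev l)))) := by
  classical
  unfold XW
  simp only [mem_union, mem_filter]

lemma not_gs_of {l : ℤ × ℤ} (h1 : l ∉ EL P X Y) (h2 : l ∉ XW P X Y M) : l ∉ gs X Y P.Q := by
  rw [mem_gs_iff]
  rintro (h | h)
  · exact h1 h
  · exact h2 (mem_XW.2 (Or.inl h))

/-- The label between two faces. -/
lemma lbf_facts {g g' : ℤ × ℤ} (h : IsUnit4 (g' - g)) : ((lbf g g').1 + (lbf g g').2) % 2 = 1 ∧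
    VF g (eu (lbf g g')) ∧ VF g (ev (lbf g g')) ∧ VF g' (eu (lbf g g')) ∧ VF g' (ev (lbf g g')) := by
  have := unit_cases h
  unfold lbf VF eu ev
  simp only [Prod.fst_sub, Prod.snd_sub, Prod.fst_add, Prod.snd_add]
  omega

/-- Labels at a face touching the region are in the box. -/
lemma Tchs.lab_mem (hM : InBox P X Y M) {g g' : ℤ × ℤ} (hg : Tchs P.Q X Y g)
    (h : IsUnit4 (g' - g)) : lbf g g' ∈ H75.TwoArm.BB M := by
  obtain ⟨u, hu, hV⟩ := hg
  have h1 := hM u hV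
  obtain ⟨h2, -⟩ := lbf_facts h
  have h3 := unit_cases h
  unfold H75.TwoArm.BB
  rw [mem_Bx]
  refine ⟨?_, ?_, h2⟩ <;> unfold lbf VF at * <;>
    simp only [Prod.fst_sub, Prod.snd_sub, Prod.fst_add, Prod.snd_add] at * <;> omega

/-- Dual connections off the exterior wire stay next to the region. -/
lemma Tchs.dc (hM : InBox P X Y M) {M' : ℤ}
    {e0 f g : ℤ × ℤ} {η : Finset (ℤ × ℤ)} (hη : XW P X Y M ⊆ η) (hf : Tchs P.Q X Y f)
    (h : Dc M' e0 η f g) : Tchs P.Q X Y g := by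
  unfold Dc at h
  induction h with
  | refl => exact hf
  | @tail g g' _ hg ih =>
    obtain ⟨h1, -, -, h4⟩ := ad_dc.1 hg
    have h5 : lbf g g' ∉ XW P X Y M := fun h => h4 (hη h)
    have h6 := ih.lab_mem hM h1
    obtain ⟨h7, h8, h9, h10, h11⟩ := lbf_facts h1
    rw [mem_XW, not_or] at h5
    have h12 := h5.2
    by_cases ha : inV P.Q X Y (eu (lbf g g'))
    · exact ⟨_, h10, ha⟩
    · by_cases hb : inV P.Q X Y (ev (lbf g g'))
      · exact ⟨_, h11, hb⟩
      · exact absurd ⟨h6, Or.inl ⟨ha, hb⟩⟩ h12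

lemma inV_pcor (hX : StrictMono X) (hY : StrictMono Y) (P : PType) (i : ℕ) :
    inV P.Q X Y (vx (pcor P X Y i)) := by
  rw [← mem_VE_iff hX hY]
  have h1 := (out_sc P.good hX hY P.side0).vert
  exact iter_VE subset_rfl h1 i

lemma pcor_succ (P : PType) (X Y : ℤ → ℤ) (i : ℕ) :
    pcor P X Y (i + 1) = nx (EF (LF P.Q X Y)) (pcor P X Y i) := by
  unfold pcor cor
  rw [Function.iterate_succ_apply']

lemma pcor_closed (hX : StrictMono X) (hY : StrictMono Y) {i : ℕ}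
    (h : H75.Perc.lab (pcor P X Y i) ∉ gs X Y P.Q) :
    pcor P X Y (i + 1) = nxC (pcor P X Y i) := by
  rw [pcor_succ]
  rw [gs_eq hX hY] at h
  exact if_neg h

/-- Closed labels of the open free arc are free. -/
lemma lab_free (hX : StrictMono X) (hY : StrictMono Y) (hM : InBox P X Y M) {i : ℕ} (h1 : 1 ≤ i)
    (h2 : i < posB P X Y) (h : H75.Perc.lab (pcor P X Y i) ∉ gs X Y P.Q) :
    H75.Perc.lab (pcor P X Y i) ∈ H75.TwoArm.BB M ∧
      H75.Perc.lab (pcor P X Y i) ∉ XW P X Y M := by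
  have hT := free_not_TV hX hY h1 h2
  have hV := inV_pcor hX hY P i
  set z := pcor P X Y i with hz
  obtain ⟨h3, h4⟩ := fi_step z
  constructor
  · rw [← h4]
    exact Tchs.lab_mem hM ⟨_, VF_corner z, hV⟩ h3
  · rw [mem_XW]
    rintro (h5 | ⟨-, h5⟩)
    · exact h (WL_sub_gs P X Y h5)
    · rcases corner_cases z with ⟨-, h6, -⟩ | ⟨-, h6, -⟩ <;> rw [← h6] at h5 <;> tauto

/-- The first label is open. -/
lemma lab_zero (hX : StrictMono X) (hY : StrictMono Y) (P : PType) :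
    H75.Perc.lab (pcor P X Y 0) ∈ gs X Y P.Q := by
  have h1 := ((cell_side hX hY P.s0 (j := 0)).1 (slen_pos hX hY P.s0)).2
  rw [gs_eq hX hY]
  have h2 : pcor P X Y 0 = oc (sp X Y P.s0 0) (P.s0.2 + 1) := by
    rw [sp_zero]; rfl
  rw [h2, lab_oc_mem hX hY]
  right
  rw [add_assoc, one_add_one_eq_two, h1]
  exact P.side0.1

/-- Corners with equal closed labels have equal numbers. -/
lemma lab_inj (hX : StrictMono X) (hY : StrictMono Y) (hch : NoChord P.Q X Y) {i j : ℕ}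
    (hi : i < pos P X Y P.N) (hj : j < pos P X Y P.N)
    (hl : H75.Perc.lab (pcor P X Y i) ∉ gs X Y P.Q)
    (h : H75.Perc.lab (pcor P X Y i) = H75.Perc.lab (pcor P X Y j)) : i = j := by
  have hO := orb_SS P.good hX hY P.side0 P.period
  have hVi := inV_pcor hX hY P i
  have hVj := inV_pcor hX hY P j
  have key : pcor P X Y i = pcor P X Y j := by
    have hodd := lab_odd (pcor P X Y i)
    rcases corner_cases (pcor P X Y i) with ⟨h1, h2, h3, -⟩ | ⟨h1, h2, h3, -⟩ <;>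
    rcases corner_cases (pcor P X Y j) with ⟨h1', h2', h3', -⟩ | ⟨h1', h2', h3', -⟩
    · rw [h1, h1', h]
    · exfalso
      apply hl
      apply hch _ hodd
      · rw [← h2]; exact hVi
      · rw [h, ← h2']; exact hVj
    · exfalso
      apply hl
      apply hch _ hodd
      · rw [h, ← h2']; exact hVj
      · rw [← h2]; exact hVi
    · rw [h1, h1', h]
  by_contra hne
  rcases lt_or_gt_of_ne hne with h4 | h4
  · exact hO.inj i j h4 hj key
  · exact hO.inj j i h4 hi key.symm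

/-- **(W3) Corridor**: the outer faces of the free arc are joined by free labels. -/
theorem corridor (hX : StrictMono X) (hY : StrictMono Y) (hM : InBox P X Y M) {M' : ℤ}
    (hM' : M ≤ M') {e0 : ℤ × ℤ} {η : Finset (ℤ × ℤ)} (hη : ∀ l ∈ η, l ∈ gs X Y P.Q ∨ l ∈ XW P X Y M) {i n : ℕ} (hin : i ≤ n)
    (hn : n ≤ posB P X Y)
    (he : ∀ j, i ≤ j → j < n → H75.Perc.lab (pcor P X Y j) ∉ gs X Y P.Q →
      H75.Perc.lab (pcor P X Y j) ≠ e0) :
    Dc M' e0 η (fi (pcor P X Y i)) (fi (pcor P X Y n)) := by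
  refine dc_corr hin ?_
  intro j hj1 hj2 hj3
  have hj3' : H75.Perc.lab (pcor P X Y j) ∉ gs X Y P.Q := by rw [gs_eq hX hY]; exact hj3
  have h1 : 1 ≤ j := by
    by_contra h2
    have : j = 0 := by omega
    rw [this] at hj3'
    exact hj3' (lab_zero hX hY P)
  obtain ⟨h4, h5⟩ := lab_free hX hY hM h1 (by omega) hj3'
  refine ⟨?_, he j hj1 hj2 hj3', ?_⟩
  · change H75.Perc.lab (pcor P X Y j) ∈ _
    unfold H75.TwoArm.BB at h4 ⊢
    rw [mem_Bx] at h4 ⊢
    omega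
  intro h6
  rcases hη _ h6 with h7 | h7
  · exact hj3' h7
  · exact h5 h7

/-- Every free label next to a face touching the region is met on the open free arc. -/
theorem free_pos (hX : StrictMono X) (hY : StrictMono Y) (hM : InBox P X Y M)
    (hch : NoChord P.Q X Y) {g g' : ℤ × ℤ} (hg : Tchs P.Q X Y g) (hu : IsUnit4 (g' - g))
    (h1 : lbf g g' ∉ gs X Y P.Q) (h2 : lbf g g' ∉ XW P X Y M) :
    ∃ i, 1 ≤ i ∧ i < posB P X Y ∧ H75.Perc.lab (pcor P X Y i) = lbf g g' ∧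
      (g = fi (pcor P X Y i) ∨ g = fi (pcor P X Y (i + 1))) := by
  set l := lbf g g' with hl
  obtain ⟨hodd, -⟩ := lbf_facts hu
  have hbb := hg.lab_mem hM hu
  rw [mem_XW, not_or] at h2
  have h3 := h2.2
  -- the corner at the end in the region
  have key : ∃ z, H75.Perc.lab z = l ∧ inV P.Q X Y (vx z) ∧ ¬ TV P X Y (vx z) := by
    obtain ⟨-, -, e3, e4, e5, e6⟩ := opc_zu hodd
    by_cases ha : inV P.Q X Y (eu l)
    · by_cases hb : inV P.Q X Y (ev l)
      · exact absurd (hch l hodd ha hb) h1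
      · refine ⟨zu l, e3, by rw [e5]; exact ha, ?_⟩
        rw [e5]
        intro h4
        exact h3 ⟨hbb, Or.inr (Or.inl ⟨h4, hb⟩)⟩
    · by_cases hb : inV P.Q X Y (ev l)
      · refine ⟨zv l, e4, by rw [e6]; exact hb, ?_⟩
        rw [e6]
        intro h4
        exact h3 ⟨hbb, Or.inr (Or.inr ⟨ha, h4⟩)⟩
      · exact absurd ⟨hbb, Or.inl ⟨ha, hb⟩⟩ h3
  obtain ⟨z, hz1, hz2, hz3⟩ := key
  have hzl : H75.Perc.lab z ∉ EF (LF P.Q X Y) := by rw [hz1, ← gs_eq hX hY]; exact h1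
  have hBd : Bd (EF (LF P.Q X Y)) z := ⟨(mem_VE_iff hX hY).2 hz2, hzl⟩
  have hO := orb_SS P.good hX hY P.side0 P.period
  have hin := (domG_grid P.good hX hY).out_loop (out_sc P.good hX hY P.side0) hBd.out
  obtain ⟨i, hi, hiz⟩ := (hO.inOrb_iff z).1 hin
  have hiz' : pcor P X Y i = z := hiz
  have hi' : i < pos P X Y P.N := hi
  have h5 : ¬ (i = 0 ∨ posB P X Y ≤ i) := by
    intro h6
    have := TV_vx hX hY h6 hi'
    rw [hiz'] at this
    exact hz3 this
  rw [not_or] at h5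
  refine ⟨i, by omega, by omega, by rw [hiz']; exact hz1, ?_⟩
  have h6 : pcor P X Y (i + 1) = nxC z := by
    rw [pcor_closed hX hY (i := i) (by rw [hiz', hz1]; exact h1), hiz']
  rw [hiz', h6]
  obtain ⟨h7, h8⟩ := fi_step z
  exact faces_unique hu h7 (by rw [h8, hz1])

/-- **(W4), left side**: in the exterior environment with the root label met at the position `r`,
the faces on the left side with a free label are outer faces of the free arc before `r`. -/
theorem left_corr (hX : StrictMono X) (hY : StrictMono Y) (hM : InBox P X Y M)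
    (hch : NoChord P.Q X Y) {r : ℕ} (hr2 : r < posB P X Y)
    (hr : H75.Perc.lab (pcor P X Y r) ∉ gs X Y P.Q) {M' : ℤ} (hM' : M ≤ M')
    {η : Finset (ℤ × ℤ)} (hη : ∀ l ∈ η, l ∈ gs X Y P.Q ∨ l ∈ XW P X Y M) {g g' : ℤ × ℤ}
    (hg : Tchs P.Q X Y g)
    (h2 : ¬ Dc M' (H75.Perc.lab (pcor P X Y r)) η (fi (pcor P X Y (r + 1))) g)
    (hu : IsUnit4 (g' - g)) (h3 : lbf g g' ∉ EL P X Y) (h4 : lbf g g' ∉ XW P X Y M)
    (h5 : lbf g g' ≠ H75.Perc.lab (pcor P X Y r)) :
    ∃ i, 1 ≤ i ∧ i ≤ r ∧ g = fi (pcor P X Y i) := by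
  have hposN : pos P X Y P.m ≤ pos P X Y P.N := pos_mono P X Y P.hmN.le
  have hb := posB_lt hX hY P
  obtain ⟨i, hi1, hi2, hi3, hi4⟩ := free_pos hX hY hM hch hg hu (not_gs_of h3 h4) h4
  rcases lt_trichotomy i r with hlt | rfl | hgt
  · rcases hi4 with h6 | h6
    · exact ⟨i, hi1, by omega, h6⟩
    · exact ⟨i + 1, by omega, by omega, h6⟩
  · exact absurd hi3.symm h5
  · exfalso
    apply h2
    have key : ∀ n, r + 1 ≤ n → n ≤ posB P X Y →
        Dc M' (H75.Perc.lab (pcor P X Y r)) η (fi (pcor P X Y (r + 1))) (fi (pcor P X Y n)) := by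
      intro n hn1 hn2
      refine corridor hX hY hM hM' hη hn1 hn2 ?_
      intro j hj1 hj2 hj3 hj4
      have := lab_inj hX hY hch (show j < pos P X Y P.N by omega) (by omega) hj3 hj4
      omega
    rcases hi4 with h6 | h6
    · rw [h6]; exact key i (by omega) (by omega)
    · rw [h6]; exact key (i + 1) (by omega) (by omega)

/-- **(W4), right side.** -/
theorem right_corr (hX : StrictMono X) (hY : StrictMono Y) (hM : InBox P X Y M)
    (hch : NoChord P.Q X Y) {r : ℕ} (hr2 : r < posB P X Y)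
    (hr : H75.Perc.lab (pcor P X Y r) ∉ gs X Y P.Q) {M' : ℤ} (hM' : M ≤ M')
    {η : Finset (ℤ × ℤ)} (hη : ∀ l ∈ η, l ∈ gs X Y P.Q ∨ l ∈ XW P X Y M) {g g' : ℤ × ℤ}
    (hg : Tchs P.Q X Y g)
    (h2 : ¬ Dc M' (H75.Perc.lab (pcor P X Y r)) η (fi (pcor P X Y r)) g)
    (hu : IsUnit4 (g' - g)) (h3 : lbf g g' ∉ EL P X Y) (h4 : lbf g g' ∉ XW P X Y M)
    (h5 : lbf g g' ≠ H75.Perc.lab (pcor P X Y r)) :
    ∃ i, r < i ∧ i ≤ posB P X Y ∧ g = fi (pcor P X Y i) := by
  have hposN : pos P X Y P.m ≤ pos P X Y P.N := pos_mono P X Y P.hmN.le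
  have hb := posB_lt hX hY P
  obtain ⟨i, hi1, hi2, hi3, hi4⟩ := free_pos hX hY hM hch hg hu (not_gs_of h3 h4) h4
  rcases lt_trichotomy i r with hlt | rfl | hgt
  · exfalso
    apply h2
    have key : ∀ n, n ≤ r →
        Dc M' (H75.Perc.lab (pcor P X Y r)) η (fi (pcor P X Y r)) (fi (pcor P X Y n)) := by
      intro n hn1
      refine (corridor hX hY hM hM' hη hn1 hr2.le ?_).symm
      intro j hj1 hj2 hj3 hj4
      have := lab_inj hX hY hch (show j < pos P X Y P.N by omega) (by omega) hj3 hj4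
      omega
    rcases hi4 with h6 | h6
    · rw [h6]; exact key i (by omega)
    · rw [h6]; exact key (i + 1) (by omega)
  · exact absurd hi3.symm h5
  · rcases hi4 with h6 | h6
    · exact ⟨i, by omega, by omega, h6⟩
    · exact ⟨i + 1, by omega, by omega, h6⟩

end ext

end Pool.Agent.H29.Q1
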