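import Mathlib
import Pool.Agent.H29.Q1.Corridor
import Pool.Agent.H77.Q1.Approach
import Pool.Agent.H44.Q1.C2
import Pool.Agent.H75.TwoArm.Rsw

set_option autoImplicit false
set_option linter.unusedSimpArgs false
open Finset

/-! Q1, module M5, B1: the part of the domain outside a box is connected to the wired arc; the local
event in a box. -/

namespace Pool.Agent.H29.Q1

open Pool.Agent.H75.Perc Pool.Agent.H75.TwoArm Pool.Agent.H75.Four Pool.Agent.H49.Q1 Pool.Agent.H5.Q1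
open Pool.Agent.H77.Q1
open Pool.Agent.Q1.M4 (Conn4 Adj4 Good Cell IsSide nextSide tail head PType isSide_next
  head_eq_tail_next inV inRect lpt tail_inj Eqv)
open Pool.Agent.Q1.M5
open Pool.Agent.H44.Q1 (Gap)

/-! ### Boxes -/

/-- Labels of the box of radius `R` around `a`. -/
noncomputable def bx (a : ℤ × ℤ) (R : ℤ) : Finset (ℤ × ℤ) :=
  Bx (a.1 - R) (a.1 + R) (a.2 - R) (a.2 + R)

lemma far_iff {d : ℤ} {a u : ℤ × ℤ} : Far d a u ↔
    (u.1 - a.1 ≤ -d ∨ d ≤ u.1 - a.1) ∨ (u.2 - a.2 ≤ -d ∨ d ≤ u.2 - a.2) := by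
  unfold Far
  rw [le_abs, le_abs]
  constructor
  · rintro ((h | h) | (h | h)) <;> omega
  · rintro ((h | h) | (h | h)) <;> omega

lemma mem_bx {a : ℤ × ℤ} {R : ℤ} {l : ℤ × ℤ} : l ∈ bx a R ↔
    (2 * a.1 - 2 * R ≤ l.1 ∧ l.1 ≤ 2 * a.1 + 2 * R) ∧ (2 * a.2 - 2 * R ≤ l.2 ∧
      l.2 ≤ 2 * a.2 + 2 * R) ∧ (l.1 + l.2) % 2 = 1 := by
  unfold bx; rw [mem_Bx]; constructor <;> intro h <;> omega

/-- A step outside the box starts and ends far from `a`. -/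
lemma far_step {a : ℤ × ℤ} {R : ℤ} {b c : ℤ × ℤ} (hu : IsUnit4 (c - b)) (h : b + c ∉ bx a R) :
    Far R a b ∧ Far R a c := by
  rw [mem_bx] at h
  rw [far_iff, far_iff]
  have := unit_cases hu
  simp only [Prod.fst_add, Prod.snd_add, Prod.fst_sub, Prod.snd_sub] at *
  omega

/-- Faces next to a label outside the box are far from `a`. -/
lemma far_face {a : ℤ × ℤ} {R : ℤ} {z z' : ℤ × ℤ} (hu : IsUnit4 (z' - z))
    (h : lbf z z' ∉ bx a R) : Far R a z := by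
  rw [mem_bx] at h
  rw [far_iff]
  have := unit_cases hu
  unfold lbf at h
  simp only [Prod.fst_add, Prod.snd_add, Prod.fst_sub, Prod.snd_sub] at *
  omega

lemma ad_iff {ω : Finset (ℤ × ℤ)} {u v : ℤ × ℤ} : Ad ω u v ↔ IsUnit4 (v - u) ∧ u + v ∈ ω := by
  unfold Ad; rfl

/-- Follow a path up to the exit of the box. -/
lemma co_exit {ω : Finset (ℤ × ℤ)} {a v u : ℤ × ℤ} {R : ℤ} (h : Co ω v u) :
    Co (ω ∩ bx a R) v u ∨ ∃ w, Far R a w ∧ Co (ω ∩ bx a R) v w := by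
  unfold Co at h
  induction h with
  | refl => exact Or.inl Relation.ReflTransGen.refl
  | @tail b c _ hbc ih =>
    rcases ih with ih | ih
    · obtain ⟨h1, h2⟩ := ad_iff.1 hbc
      by_cases h3 : b + c ∈ bx a R
      · left
        exact Relation.ReflTransGen.tail ih (ad_iff.2 ⟨h1, mem_inter.2 ⟨h2, h3⟩⟩)
      · right
        exact ⟨b, (far_step h1 h3).1, ih⟩
    · exact Or.inr ih

/-! ### Lattice segments -/

lemma co_h {S : Finset (ℤ × ℤ)} {y p q : ℤ} (hpq : p ≤ q)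
    (h : ∀ x, p ≤ x → x < q → (2 * x + 1, 2 * y) ∈ S) : Co S (p, y) (q, y) := by
  induction q, hpq using Int.leInduction with
  | base => exact Relation.ReflTransGen.refl
  | succ q hq ih =>
    refine Relation.ReflTransGen.tail (ih fun x h1 h2 => h x h1 (by omega)) (ad_iff.2 ⟨?_, ?_⟩)
    · unfold IsUnit4; simp
    · have := h q hq (by omega)
      have e : (q, y) + (q + 1, y) = (2 * q + 1, 2 * y) := by
        refine Prod.ext ?_ ?_ <;> simp only [Prod.mk_add_mk] <;> ring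
      rwa [e]

lemma co_v {S : Finset (ℤ × ℤ)} {x p q : ℤ} (hpq : p ≤ q)
    (h : ∀ y, p ≤ y → y < q → (2 * x, 2 * y + 1) ∈ S) : Co S (x, p) (x, q) := by
  induction q, hpq using Int.leInduction with
  | base => exact Relation.ReflTransGen.refl
  | succ q hq ih =>
    refine Relation.ReflTransGen.tail (ih fun x h1 h2 => h x h1 (by omega)) (ad_iff.2 ⟨?_, ?_⟩)
    · unfold IsUnit4; simp
    · have := h q hq (by omega)
      have e : (x, q) + (x, q + 1) = (2 * x, 2 * q + 1) := by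
        refine Prod.ext ?_ ?_ <;> simp only [Prod.mk_add_mk] <;> ring
      rwa [e]

lemma co_h' {S : Finset (ℤ × ℤ)} {y p q : ℤ}
    (h : ∀ x, min p q ≤ x → x < max p q → (2 * x + 1, 2 * y) ∈ S) : Co S (p, y) (q, y) := by
  rcases le_total p q with h1 | h1
  · exact co_h h1 fun x h2 h3 => h x (by omega) (by omega)
  · exact (co_h h1 fun x h2 h3 => h x (by omega) (by omega)).symm

lemma co_v' {S : Finset (ℤ × ℤ)} {x p q : ℤ}
    (h : ∀ y, min p q ≤ y → y < max p q → (2 * x, 2 * y + 1) ∈ S) : Co S (x, p) (x, q) := by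
  rcases le_total p q with h1 | h1
  · exact co_v h1 fun x h2 h3 => h x (by omega) (by omega)
  · exact (co_v h1 fun x h2 h3 => h x (by omega) (by omega)).symm

lemma gcell_mem {X Y : ℤ → ℤ} {c l : ℤ × ℤ} : l ∈ gcell X Y c ↔
    (2 * X c.1 ≤ l.1 ∧ l.1 ≤ 2 * X (c.1 + 1)) ∧ (2 * Y c.2 ≤ l.2 ∧ l.2 ≤ 2 * Y (c.2 + 1)) ∧
      (l.1 + l.2) % 2 = 1 := by
  unfold gcell; rw [mem_Bx]

/-- **Cell minus a box at a grid vertex is connected.** -/
lemma cell_far {X Y : ℤ → ℤ} {c α : ℤ × ℤ} {R : ℤ} (hR : 0 ≤ R)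
    (hX : StrictMono X) (hY : StrictMono Y)
    (h1 : X c.1 + (R + 1) ≤ X (c.1 + 1)) (h2 : Y c.2 + (R + 1) ≤ Y (c.2 + 1))
    {u : ℤ × ℤ} (hu : inRect X Y c u) (hf : Far R (lpt X Y α) u) :
    Co (gcell X Y c \ bx (lpt X Y α) R) u
      (if α.1 ≤ c.1 then X (c.1 + 1) else X c.1, if α.2 ≤ c.2 then Y (c.2 + 1) else Y c.2) := by
  obtain ⟨hu1, hu2⟩ := hu
  obtain ⟨ux, uy⟩ := u
  rw [far_iff] at hf
  unfold lpt at hf ⊢
  simp only at hf hu1 hu2 ⊢
  -- position of the mark relative to the cell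
  have hx : (α.1 ≤ c.1 ∧ X α.1 ≤ X c.1) ∨ (¬ α.1 ≤ c.1 ∧ X (c.1 + 1) ≤ X α.1) := by
    by_cases h : α.1 ≤ c.1
    · exact Or.inl ⟨h, hX.monotone h⟩
    · exact Or.inr ⟨h, hX.monotone (by omega)⟩
  have hy : (α.2 ≤ c.2 ∧ Y α.2 ≤ Y c.2) ∨ (¬ α.2 ≤ c.2 ∧ Y (c.2 + 1) ≤ Y α.2) := by
    by_cases h : α.2 ≤ c.2
    · exact Or.inl ⟨h, hY.monotone h⟩
    · exact Or.inr ⟨h, hY.monotone (by omega)⟩
  generalize X α.1 = a1 at *
  generalize Y α.2 = a2 at *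
  have hmem : ∀ l : ℤ × ℤ, l ∈ gcell X Y c \ bx (a1, a2) R ↔ ((2 * X c.1 ≤ l.1 ∧
      l.1 ≤ 2 * X (c.1 + 1)) ∧ (2 * Y c.2 ≤ l.2 ∧ l.2 ≤ 2 * Y (c.2 + 1)) ∧ (l.1 + l.2) % 2 = 1) ∧
      ¬ ((2 * a1 - 2 * R ≤ l.1 ∧ l.1 ≤ 2 * a1 + 2 * R) ∧ (2 * a2 - 2 * R ≤ l.2 ∧
      l.2 ≤ 2 * a2 + 2 * R) ∧ (l.1 + l.2) % 2 = 1) := by
    intro l
    rw [mem_sdiff, gcell_mem, mem_bx]
  by_cases hfx : ux - a1 ≤ -R ∨ R ≤ ux - a1
  · -- first horizontally, then vertically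
    refine Relation.ReflTransGen.trans (b := (if α.1 ≤ c.1 then X (c.1 + 1) else X c.1, uy))
      (co_h' ?_) (co_v' ?_)
    · intro x hx1 hx2
      rw [hmem]
      simp only
      rcases hx with ⟨e, g⟩ | ⟨e, g⟩
      · rw [if_pos e] at hx1 hx2; omega
      · rw [if_neg e] at hx1 hx2; omega
    · intro y hy1 hy2
      rw [hmem]
      simp only
      rcases hx with ⟨e, g⟩ | ⟨e, g⟩ <;> rcases hy with ⟨e', g'⟩ | ⟨e', g'⟩ <;>
        simp only [e, e', if_true, if_false] at hy1 hy2 ⊢ <;> omega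
  · have hfy : uy - a2 ≤ -R ∨ R ≤ uy - a2 := by tauto
    refine Relation.ReflTransGen.trans (b := (ux, if α.2 ≤ c.2 then Y (c.2 + 1) else Y c.2))
      (co_v' ?_) (co_h' ?_)
    · intro y hy1 hy2
      rw [hmem]
      simp only
      rcases hy with ⟨e, g⟩ | ⟨e, g⟩
      · rw [if_pos e] at hy1 hy2; omega
      · rw [if_neg e] at hy1 hy2; omega
    · intro x hx1 hx2
      rw [hmem]
      simp only
      rcases hx with ⟨e, g⟩ | ⟨e, g⟩ <;> rcases hy with ⟨e', g'⟩ | ⟨e', g'⟩ <;>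
        simp only [e, e', if_true, if_false] at hx1 hx2 ⊢ <;> omega

/-- Two vertices of a cell far from the mark are joined in the cell outside the box. -/
lemma cell_far2 {X Y : ℤ → ℤ} {c α : ℤ × ℤ} {R : ℤ} (hR : 0 ≤ R)
    (hX : StrictMono X) (hY : StrictMono Y)
    (h1 : X c.1 + (R + 1) ≤ X (c.1 + 1)) (h2 : Y c.2 + (R + 1) ≤ Y (c.2 + 1))
    {u v : ℤ × ℤ} (hu : inRect X Y c u) (hf : Far R (lpt X Y α) u)
    (hv : inRect X Y c v) (hf' : Far R (lpt X Y α) v) :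
    Co (gcell X Y c \ bx (lpt X Y α) R) u v :=
  (cell_far hR hX hY h1 h2 hu hf).trans (cell_far hR hX hY h1 h2 hv hf').symm

/-- Different grid vertices are far. -/
lemma grid_far {Q : Finset Cell} {X Y : ℤ → ℤ} {R : ℤ} (hG : Gap Q X Y (R + 1)) {c : Cell}
    (hc : c ∈ Q) {p α : ℤ × ℤ} (hp : (c.1 ≤ p.1 ∧ p.1 ≤ c.1 + 1) ∧ (c.2 ≤ p.2 ∧ p.2 ≤ c.2 + 1))
    (h : p ≠ α) : Far R (lpt X Y α) (lpt X Y p) := by
  obtain ⟨hX, hY, hg⟩ := hG
  obtain ⟨p1, p2⟩ := p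
  obtain ⟨a1, a2⟩ := α
  obtain ⟨c1, c2⟩ := c
  simp only at hp
  rw [far_iff]
  unfold lpt
  simp only
  have hne : p1 ≠ a1 ∨ p2 ≠ a2 := by
    by_contra h'
    push Not at h'
    exact h (Prod.ext h'.1 h'.2)
  have k1 := hg _ hc (p1, p2) (by simp only; rw [abs_le]; omega) (by simp only; rw [abs_le]; omega)
  have k2 := hg _ hc (p1 - 1, p2 - 1) (by simp only; rw [abs_le]; omega)
    (by simp only; rw [abs_le]; omega)
  simp only [sub_add_cancel] at k1 k2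
  rcases hne with h1 | h1
  · left
    rcases lt_or_gt_of_ne h1 with h2 | h2
    · left
      have := hX.monotone (show p1 + 1 ≤ a1 by omega)
      omega
    · right
      have := hX.monotone (show a1 ≤ p1 - 1 by omega)
      omega
  · right
    rcases lt_or_gt_of_ne h1 with h2 | h2
    · left
      have := hY.monotone (show p2 + 1 ≤ a2 by omega)
      omega
    · right
      have := hY.monotone (show a2 ≤ p2 - 1 by omega)
      omega

lemma inRect_grid {X Y : ℤ → ℤ} (hX : StrictMono X) (hY : StrictMono Y) {c p : ℤ × ℤ}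
    (hp : (c.1 ≤ p.1 ∧ p.1 ≤ c.1 + 1) ∧ (c.2 ≤ p.2 ∧ p.2 ≤ c.2 + 1)) :
    inRect X Y c (lpt X Y p) :=
  ⟨⟨hX.monotone hp.1.1, hX.monotone hp.1.2⟩, ⟨hY.monotone hp.2.1, hY.monotone hp.2.2⟩⟩

lemma Gap.mono {Q : Finset Cell} {X Y : ℤ → ℤ} {g g' : ℤ} (h : g' ≤ g) (hG : Gap Q X Y g) :
    Gap Q X Y g' := by
  refine ⟨hG.1, hG.2.1, fun c hc d h1 h2 => ?_⟩
  have := hG.2.2 c hc d h1 h2
  omega

/-- **The region outside the box is connected.** -/
theorem region_far {Q : Finset Cell} (hQ : Conn4 (Q : Set Cell)) {X Y : ℤ → ℤ} {R : ℤ}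
    (hR : 0 ≤ R) (hG : Gap Q X Y (R + 1)) {α : ℤ × ℤ} {u v : ℤ × ℤ} (hu : inV Q X Y u)
    (hf : Far R (lpt X Y α) u) (hv : inV Q X Y v) (hf' : Far R (lpt X Y α) v) :
    Co (gs X Y Q \ bx (lpt X Y α) R) u v := by
  obtain ⟨c, hc, hu⟩ := hu
  obtain ⟨d, hd, hv⟩ := hv
  have hX := hG.1
  have hY := hG.2.1
  have gap : ∀ c ∈ Q, X c.1 + (R + 1) ≤ X (c.1 + 1) ∧ Y c.2 + (R + 1) ≤ Y (c.2 + 1) := by
    intro c hc
    exact hG.2.2 c hc c (by simp) (by simp)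
  have sub : ∀ c ∈ Q, gcell X Y c \ bx (lpt X Y α) R ⊆ gs X Y Q \ bx (lpt X Y α) R := by
    intro c hc
    exact sdiff_subset_sdiff (gcell_sub_gs hc) subset_rfl
  have key : ∀ d, Relation.ReflTransGen (fun a b => Adj4 a b ∧ b ∈ (Q : Set Cell)) c d →
      ∀ v, inRect X Y d v → Far R (lpt X Y α) v → Co (gs X Y Q \ bx (lpt X Y α) R) u v := by
    intro d h
    induction h with
    | refl =>
      intro v hv hf'
      exact (cell_far2 hR hX hY (gap c hc).1 (gap c hc).2 hu hf hv hf').mono (sub c hc)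
    | @tail b e hb hbe ih =>
      intro v hv hf'
      obtain ⟨⟨k, hk⟩, he⟩ := hbe
      have he' : e ∈ Q := he
      -- a common grid vertex different from the mark
      have hp : ∃ p : ℤ × ℤ, p ≠ α ∧ ((b.1 ≤ p.1 ∧ p.1 ≤ b.1 + 1) ∧ (b.2 ≤ p.2 ∧ p.2 ≤ b.2 + 1)) ∧
          ((e.1 ≤ p.1 ∧ p.1 ≤ e.1 + 1) ∧ (e.2 ≤ p.2 ∧ p.2 ≤ e.2 + 1)) := by
        have : ∃ p q : ℤ × ℤ, p ≠ q ∧
            ((b.1 ≤ p.1 ∧ p.1 ≤ b.1 + 1) ∧ (b.2 ≤ p.2 ∧ p.2 ≤ b.2 + 1)) ∧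
            ((e.1 ≤ p.1 ∧ p.1 ≤ e.1 + 1) ∧ (e.2 ≤ p.2 ∧ p.2 ≤ e.2 + 1)) ∧
            ((b.1 ≤ q.1 ∧ q.1 ≤ b.1 + 1) ∧ (b.2 ≤ q.2 ∧ q.2 ≤ b.2 + 1)) ∧
            ((e.1 ≤ q.1 ∧ q.1 ≤ e.1 + 1) ∧ (e.2 ≤ q.2 ∧ q.2 ≤ e.2 + 1)) := by
          subst hk
          obtain ⟨b1, b2⟩ := b
          rcases dir_cases k with ⟨-, g⟩ | ⟨-, g⟩ | ⟨-, g⟩ | ⟨-, g⟩ <;> rw [g] <;>
            simp only [Prod.mk_add_mk]
          · exact ⟨(b1 + 1, b2), (b1 + 1, b2 + 1), by simp, by simp only; omega⟩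
          · exact ⟨(b1, b2 + 1), (b1 + 1, b2 + 1), by simp, by simp only; omega⟩
          · exact ⟨(b1, b2), (b1, b2 + 1), by simp, by simp only; omega⟩
          · exact ⟨(b1, b2), (b1 + 1, b2), by simp, by simp only; omega⟩
        obtain ⟨p, q, hpq, h1, h2, h3, h4⟩ := this
        by_cases h5 : p = α
        · exact ⟨q, fun h6 => hpq (h5.trans h6.symm), h3, h4⟩
        · exact ⟨p, h5, h1, h2⟩
      obtain ⟨p, hp1, hp2, hp3⟩ := hp
      have hfp := grid_far hG he' hp3 hp1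
      have h1 := ih (lpt X Y p) (inRect_grid hX hY hp2) hfp
      exact h1.trans ((cell_far2 hR hX hY (gap e he').1 (gap e he').2
        (inRect_grid hX hY hp3) hfp hv hf').mono (sub e he'))
  exact key d (hQ c hc d hd) v hv hf'

/-! ### The wired arc -/

/-- Outside the box every vertex of the region is joined to the wired arc. -/
def OutConn (P : PType) (X Y : ℤ → ℤ) (a : ℤ × ℤ) (R : ℤ) : Prop :=
  ∀ u, inV P.Q X Y u → Far R a u → ∃ w, TV P X Y w ∧ Co (gs X Y P.Q \ bx a R) u w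

/-- The ends of a side. -/
lemma TV_tail {P : PType} {X Y : ℤ → ℤ} (hX : StrictMono X) (hY : StrictMono Y) {n : ℕ}
    (h1 : P.m ≤ n) (h2 : n ≤ P.N) : TV P X Y (lpt X Y (tail (P.side n))) := by
  by_cases h3 : n < P.N
  · refine ⟨n, h1, h3, ?_⟩
    have := sV_sp hX hY (P.side n) (j := 0) (Nat.zero_le _)
    rwa [sp_zero] at this
  · have h4 : n = P.N := by omega
    have h5 := P.hmN
    refine ⟨P.N - 1, by omega, by omega, ?_⟩
    have := sV_sp hX hY (P.side (P.N - 1)) (j := _) le_rfl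
    rw [sp_len hX hY, head_side, show P.N - 1 + 1 = n by omega] at this
    exact this

lemma tail_cell (s : Cell × ℤ) : (s.1.1 ≤ (tail s).1 ∧ (tail s).1 ≤ s.1.1 + 1) ∧
    (s.1.2 ≤ (tail s).2 ∧ (tail s).2 ≤ s.1.2 + 1) := by
  unfold tail
  split_ifs <;> simp

theorem outConn_of_gap {P : PType} {X Y : ℤ → ℤ} {R : ℤ} (hR : 0 ≤ R)
    (hG : Gap P.Q X Y (R + 1)) (α : ℤ × ℤ) : OutConn P X Y (lpt X Y α) R := by
  intro u hu hf
  have hX := hG.1
  have hY := hG.2.1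
  -- an end of the last side which is not the mark
  have hm0 := P.hm0
  have hmN := P.hmN
  have hne : tail (P.side (P.N - 1)) ≠ tail (P.side P.N) := by
    rw [show P.N = P.N - 1 + 1 by omega, ← head_side]
    unfold head
    intro h
    rw [show P.N - 1 + 1 - 1 = P.N - 1 by omega] at h
    have h' : dir (P.side (P.N - 1)).2 = 0 := by
      have := congrArg (fun z => z - tail (P.side (P.N - 1))) h
      simp only [sub_self, add_sub_cancel_left] at this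
      exact this.symm
    rcases dir_cases (P.side (P.N - 1)).2 with ⟨-, g⟩ | ⟨-, g⟩ | ⟨-, g⟩ | ⟨-, g⟩ <;>
      rw [g] at h' <;> simp at h'
  have key : ∃ n, P.m ≤ n ∧ n ≤ P.N ∧ tail (P.side n) ≠ α := by
    by_cases h : tail (P.side P.N) = α
    · exact ⟨P.N - 1, by omega, by omega, fun h' => hne (h'.trans h.symm)⟩
    · exact ⟨P.N, by omega, le_rfl, h⟩
  obtain ⟨n, h1, h2, h3⟩ := key
  have hc : (P.side n).1 ∈ P.Q := (isSide P n).1
  have ht := tail_cell (P.side n)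
  refine ⟨lpt X Y (tail (P.side n)), TV_tail hX hY h1 h2, ?_⟩
  exact region_far P.good.conn hR hG hu hf ⟨_, hc, inRect_grid hX hY ht⟩ (grid_far hG hc ht h3)

/-! ### Connection inside the region -/

lemma inV_step {Q : Finset Cell} {X Y : ℤ → ℤ} {u v : ℤ × ℤ} (hu : IsUnit4 (v - u))
    (h : u + v ∈ gs X Y Q) : inV Q X Y u ∧ inV Q X Y v := by
  obtain ⟨c, hc, h1⟩ := mem_gs.1 h
  rw [gcell_mem] at h1
  have := unit_cases hu
  simp only [Prod.fst_add, Prod.snd_add, Prod.fst_sub, Prod.snd_sub] at *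
  exact ⟨⟨c, hc, by unfold inRect; omega⟩, ⟨c, hc, by unfold inRect; omega⟩⟩

lemma inV_co {Q : Finset Cell} {X Y : ℤ → ℤ} {S : Finset (ℤ × ℤ)} (hS : S ⊆ gs X Y Q)
    {u v : ℤ × ℤ} (hu : inV Q X Y u) (h : Co S u v) : inV Q X Y v := by
  unfold Co at h
  induction h with
  | refl => exact hu
  | tail _ hbc ih =>
    obtain ⟨h1, h2⟩ := ad_iff.1 hbc
    exact (inV_step h1 (hS h2)).2

/-- The one-point function is positive. -/
theorem hh_pos {P : PType} {X Y : ℤ → ℤ} (hX : StrictMono X) (hY : StrictMono Y) {v : ℤ × ℤ}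
    (hv : inV P.Q X Y v) : 0 < Pool.Agent.Q1.M5.hh P X Y v := by
  unfold Pool.Agent.Q1.M5.hh
  apply H75.TwoArm.RswAux.Pr_pos
  have hG : Gap P.Q X Y (0 + 1) := by
    refine ⟨hX, hY, fun c _ d _ _ => ?_⟩
    have h1 := hX (show d.1 < d.1 + 1 by omega)
    have h2 := hY (show d.2 < d.2 + 1 by omega)
    omega
  obtain ⟨w, hw, hc⟩ := outConn_of_gap le_rfl hG (0, 0) v hv (by rw [far_iff]; omega)
  refine ⟨w, hw, hc.mono ?_⟩
  intro l hl
  have := (mem_gs_iff P X Y).1 (mem_sdiff.1 hl).1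
  rw [mem_union]
  exact this

/-! ### The local event -/

/-- `v` is joined in the box to the wired arc or to the boundary of the box. -/
def Loc (W : Finset (ℤ × ℤ)) (T : ℤ × ℤ → Prop) (a : ℤ × ℤ) (R : ℤ) (v : ℤ × ℤ)
    (ω : Finset (ℤ × ℤ)) : Prop :=
  ∃ u, (T u ∨ Far R a u) ∧ Co ((ω ∪ W) ∩ bx a R) v u

lemma Loc_inter {W : Finset (ℤ × ℤ)} {T : ℤ × ℤ → Prop} {a : ℤ × ℤ} {R : ℤ} {v : ℤ × ℤ}
    {ω : Finset (ℤ × ℤ)} : Loc W T a R v (ω ∩ bx a R) ↔ Loc W T a R v ω := by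
  unfold Loc
  have : (ω ∩ bx a R ∪ W) ∩ bx a R = (ω ∪ W) ∩ bx a R := by
    ext l; simp only [mem_inter, mem_union]; tauto
  rw [this]

/-- Upper bound by the local event. -/
theorem hh_le_loc (P : PType) (X Y : ℤ → ℤ) (a : ℤ × ℤ) (R : ℤ) (v : ℤ × ℤ) :
    Pool.Agent.Q1.M5.hh P X Y v ≤ Pr (EL P X Y) (Loc (WL P X Y) (TV P X Y) a R v) := by
  unfold Pool.Agent.Q1.M5.hh
  refine Pr_mono ?_
  rintro ω - ⟨w, hw, hc⟩
  rcases co_exit (a := a) (R := R) hc with h | ⟨u, hu, h⟩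
  · exact ⟨w, Or.inl hw, h⟩
  · exact ⟨u, Or.inr hu, h⟩

/-- The local event with opened labels outside the box. -/
lemma loc_open {P : PType} {X Y : ℤ → ℤ} {a : ℤ × ℤ} {R : ℤ} (hO : OutConn P X Y a R) {v : ℤ × ℤ}
    (hv : inV P.Q X Y v) {ω G : Finset (ℤ × ℤ)} {t : ℤ × ℤ} (hω : ω ⊆ EL P X Y)
    (hG : WL P X Y ⊆ G) (ht : ∀ w, TV P X Y w → Co G w t)
    (h : Loc (WL P X Y) (TV P X Y) a R v ω) : Co (ω ∪ (EL P X Y \ bx a R) ∪ G) v t := by
  obtain ⟨u, hu, hc⟩ := h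
  have hG' : G ⊆ ω ∪ (EL P X Y \ bx a R) ∪ G := subset_union_right
  have h1 : (ω ∪ WL P X Y) ∩ bx a R ⊆ ω ∪ (EL P X Y \ bx a R) ∪ G := by
    intro l hl
    simp only [mem_inter, mem_union, mem_sdiff] at hl ⊢
    rcases hl.1 with h2 | h2
    · exact Or.inl (Or.inl h2)
    · exact Or.inr (hG h2)
  rcases hu with hu | hu
  · exact (hc.mono h1).trans ((ht u hu).mono hG')
  · have h2 : inV P.Q X Y u := by
      refine inV_co (S := (ω ∪ WL P X Y) ∩ bx a R) ?_ hv hc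
      intro l hl
      simp only [mem_inter, mem_union] at hl
      rw [mem_gs_iff]
      rcases hl.1 with h3 | h3
      · exact Or.inl (hω h3)
      · exact Or.inr h3
    obtain ⟨w, hw, h3⟩ := hO u h2 hu
    refine (hc.mono h1).trans ((h3.mono ?_).trans ((ht w hw).mono hG'))
    intro l hl
    obtain ⟨h4, h5⟩ := mem_sdiff.1 hl
    simp only [mem_union, mem_sdiff]
    rcases (mem_gs_iff P X Y).1 h4 with h6 | h6
    · exact Or.inl (Or.inr ⟨h6, h5⟩)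
    · exact Or.inr (hG h6)

end Pool.Agent.H29.Q1
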