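import Mathlib
import Pool.Agent.H29.Q1.LocEnv

set_option autoImplicit false
set_option linter.unusedSimpArgs false
open Finset

/-! Q1, module M5, B1: the lower bound of the one-point function near a mark by the local event. -/

namespace Pool.Agent.H29.Q1

open Pool.Agent.H75.Perc Pool.Agent.H75.TwoArm Pool.Agent.H75.Four Pool.Agent.H49.Q1 Pool.Agent.H5.Q1
open Pool.Agent.H77.Q1
open Pool.Agent.Q1.M4 (Conn4 Adj4 Good Cell IsSide nextSide tail head PType isSide_next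
  head_eq_tail_next inV inRect lpt tail_inj Eqv)
open Pool.Agent.Q1.M5
open Pool.Agent.H44.Q1 (Gap)

/-- The exterior wire of `P` joins the outer vertex `t` to the wired arc, and `x` is joined to `t` with
the wire only if it is joined to the wired arc in the domain. -/
structure WireAt (P : PType) (X Y : ℤ → ℤ) (M : ℤ) (x t : ℤ × ℤ) : Prop where
  conn : ∀ w ∈ XW P X Y M, Co (XW P X Y M) (eu w) t
  arc : ∀ w, TV P X Y w → Co (XW P X Y M) w t
  ct : ∀ ω ⊆ EL P X Y, Co (ω ∪ XW P X Y M) x t → CT P X Y x ω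

lemma gs_sub_BB {P : PType} {X Y : ℤ → ℤ} {M : ℤ} (hM : InBox P X Y M) :
    gs X Y P.Q ⊆ H75.TwoArm.BB M := by
  intro l hl
  obtain ⟨c, hc, h1⟩ := mem_gs.1 hl
  rw [gcell_mem] at h1
  have k1 := hM (eu l) ⟨c, hc, by unfold inRect eu; simp only; omega⟩
  have k2 := hM (ev l) ⟨c, hc, by unfold inRect ev; simp only; omega⟩
  unfold H75.TwoArm.BB
  rw [mem_Bx]
  unfold eu ev at *
  simp only at k1 k2
  omega

lemma XW_sub_BB {P : PType} {X Y : ℤ → ℤ} {M : ℤ} (hM : InBox P X Y M) :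
    XW P X Y M ⊆ H75.TwoArm.BB M := by
  intro l hl
  rcases mem_XW.1 hl with h | h
  · exact gs_sub_BB hM (WL_sub_gs P X Y h)
  · exact h.1

lemma EL_sub_gs (P : PType) (X Y : ℤ → ℤ) : EL P X Y ⊆ gs X Y P.Q := sdiff_subset

lemma unit_ends {o : ℤ × ℤ} (h : (o.1 + o.2) % 2 = 1) : IsUnit4 (ev o - eu o) := by
  unfold eu ev IsUnit4
  rcases Int.emod_two_eq_zero_or_one o.1 with h1 | h1
  · right; left
    refine Prod.ext ?_ ?_ <;> simp only [Prod.fst_sub, Prod.snd_sub] <;> omega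
  · left
    refine Prod.ext ?_ ?_ <;> simp only [Prod.fst_sub, Prod.snd_sub] <;> omega

/-- **Lower bound at the left mark.** -/
theorem lower_left : ∃ δ : ℝ, 0 < δ ∧ δ < 1 ∧ ∀ (P : PType) (X Y : ℤ → ℤ) (M : ℤ) (a : ℤ × ℤ)
    (R r : ℤ) (k p : ℕ), StrictMono X → StrictMono Y → InBox P X Y M → NoChord P.Q X Y →
    p < posB P X Y → H75.Perc.lab (pcor P X Y p) ∉ gs X Y P.Q →
    WireAt P X Y M (vx (pcor P X Y p)) (vx (nxO (pcor P X Y p))) →
    OutConn P X Y a R → 1 ≤ r → 4 ^ k * r ≤ R →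
    (∀ i, 1 ≤ i → i ≤ p → |(fi (pcor P X Y i)).1 - a.1| ≤ r ∧ |(fi (pcor P X Y i)).2 - a.2| ≤ r) →
    (1 - (1 - δ) ^ k) * Pr (EL P X Y) (Loc (WL P X Y) (TV P X Y) a R (vx (pcor P X Y p))) ≤
      Pool.Agent.Q1.M5.hh P X Y (vx (pcor P X Y p)) := by
  classical
  obtain ⟨δ, hδ0, hδ1, hδ⟩ := mark_locality
  refine ⟨δ, hδ0, hδ1, ?_⟩
  intro P X Y M a R r k p hX hY hM hch hp2 hp hW hO hr hk hnear
  have hp1 : 1 ≤ p := by
    by_contra h
    have : p = 0 := by omega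
    rw [this] at hp
    exact hp (lab_zero hX hY P)
  set z := pcor P X Y p with hz
  obtain ⟨hfree1, hfree2⟩ := lab_free hX hY hM hp1 hp2 hp
  rw [← hz] at hfree1 hfree2
  have hVz : inV P.Q X Y (vx z) := inV_pcor hX hY P p
  have hEsub : EL P X Y ⊆ H75.TwoArm.BB (M + 1 - 1) := by
    rw [add_sub_cancel_right]; exact (EL_sub_gs P X Y).trans (gs_sub_BB hM)
  have hGsub : XW P X Y M ⊆ H75.TwoArm.BB (M + 1 - 1) := by
    rw [add_sub_cancel_right]; exact XW_sub_BB hM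
  have hsucc : pcor P X Y (p + 1) = nxC z := pcor_closed hX hY hp
  have h1 := hδ (M + 1) (H75.Perc.lab z) (EL P X Y) (XW P X Y M) (XW P X Y M)
    (EL P X Y \ bx a R) (fi z) (fi (nxC z)) (vx z) (vx (nxO z))
    (fun g => ∃ i, 1 ≤ i ∧ i ≤ p ∧ g = fi (pcor P X Y i)) a r R k (lab_odd z)
    (by rw [add_sub_cancel_right]; exact hfree1) hEsub hGsub
    (fun h => hp (EL_sub_gs P X Y h)) hfree2 sdiff_subset subset_rfl (fac_corner z)
    (ends_corner z) hW.conn ?_ hr hk ?_ ?_ ?_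
  · -- conclusion
    set A : Finset (ℤ × ℤ) → Prop := fun ω => Co (ω ∪ (EL P X Y \ bx a R) ∪ XW P X Y M) (vx z)
      (vx (nxO z)) with hA
    set B : Finset (ℤ × ℤ) → Prop := fun ω => Co (ω ∪ XW P X Y M) (vx z) (vx (nxO z)) with hB
    have h2 : Pr (EL P X Y) A ≤ Pr (EL P X Y) B + Pr (EL P X Y) (fun ω => A ω ∧ ¬ B ω) := by
      refine le_trans (Pr_mono ?_) (Pr_or_le _ _ _)
      intro ω _ h
      by_cases h3 : B ω
      · exact Or.inl h3
      · exact Or.inr ⟨h, h3⟩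
    have h3 : Pr (EL P X Y) B ≤ Pool.Agent.Q1.M5.hh P X Y (vx z) :=
      Pr_mono fun ω hω h => hW.ct ω hω h
    have h4 : Pr (EL P X Y) (Loc (WL P X Y) (TV P X Y) a R (vx z)) ≤ Pr (EL P X Y) A := by
      refine Pr_mono fun ω hω h => loc_open hO hVz hω ?_ hW.arc h
      intro l hl
      exact mem_XW.2 (Or.inl hl)
    have h5 : (0 : ℝ) ≤ 1 - (1 - δ) ^ k := by
      have : (1 - δ) ^ k ≤ 1 := pow_le_one₀ (by linarith) (by linarith)
      linarith
    have h6 := mul_le_mul_of_nonneg_left h4 h5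
    have h7 : Pr (EL P X Y) (fun ω => A ω ∧ ¬ B ω) ≤ (1 - δ) ^ k * Pr (EL P X Y) A := h1
    nlinarith
  · -- faces of the left corridor
    refine ⟨⟨p, hp1, le_rfl, rfl⟩, ?_⟩
    intro g g' hg1 hg2 hu h3 h4 h5
    have hT : Tchs P.Q X Y g := by
      refine Tchs.dc (M' := M + 1) hM (η := XW P X Y M) subset_rfl ?_ hg1
      exact ⟨_, VF_corner z, hVz⟩
    refine left_corr hX hY hM hch hp2 (by rw [← hz]; exact hp) (M' := M + 1) (by omega)
      (η := EL P X Y ∪ XW P X Y M) ?_ hT ?_ hu h3 h4 (by rw [← hz]; exact h5)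
    · intro l hl
      rcases mem_union.1 hl with h | h
      · exact Or.inl (EL_sub_gs P X Y h)
      · exact Or.inr h
    · rw [hsucc]; exact hg2
  · rintro g ⟨i, hi1, hi2, rfl⟩
    exact hnear i hi1 hi2
  · intro y y' hu hl
    exact far_face hu (mem_sdiff.1 hl).2
  · rintro v ⟨⟨o, ho1, ho2⟩, hv⟩
    -- `v` is a far vertex of the region
    obtain ⟨ho3, ho4⟩ := mem_sdiff.1 ho1
    have hodd : (o.1 + o.2) % 2 = 1 := (mem_Bx.1 (hEsub ho3)).2.2
    have hsum : eu o + ev o = o := by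
      unfold eu ev
      refine Prod.ext ?_ ?_ <;> simp only [Prod.fst_add, Prod.snd_add] <;> omega
    have hstep : IsUnit4 (ev o - eu o) := unit_ends hodd
    have hfar := far_step hstep (by rw [hsum]; exact ho4)
    have hin := inV_step hstep (Q := P.Q) (X := X) (Y := Y) (by rw [hsum]; exact EL_sub_gs P X Y ho3)
    have hvf : Far R a v ∧ inV P.Q X Y v := by
      rcases ho2 with rfl | rfl
      · exact ⟨hfar.1, hin.1⟩
      · exact ⟨hfar.2, hin.2⟩
    obtain ⟨w, hw, hc⟩ := hO v hvf.2 hvf.1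
    refine (hc.mono ?_).trans ((hW.arc w hw).mono subset_union_right)
    intro l hl
    obtain ⟨h4, h5⟩ := mem_sdiff.1 hl
    rcases (mem_gs_iff P X Y).1 h4 with h6 | h6
    · exact mem_union_left _ (mem_sdiff.2 ⟨h6, h5⟩)
    · exact mem_union_right _ (mem_XW.2 (Or.inl h6))

/-- **Lower bound at the right mark.** -/
theorem lower_right : ∃ δ : ℝ, 0 < δ ∧ δ < 1 ∧ ∀ (P : PType) (X Y : ℤ → ℤ) (M : ℤ) (a : ℤ × ℤ)
    (R r : ℤ) (k p : ℕ), StrictMono X → StrictMono Y → InBox P X Y M → NoChord P.Q X Y →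
    p < posB P X Y → H75.Perc.lab (pcor P X Y p) ∉ gs X Y P.Q →
    WireAt P X Y M (vx (pcor P X Y p)) (vx (nxO (pcor P X Y p))) →
    OutConn P X Y a R → 1 ≤ r → 4 ^ k * r ≤ R →
    (∀ i, p < i → i ≤ posB P X Y →
      |(fi (pcor P X Y i)).1 - a.1| ≤ r ∧ |(fi (pcor P X Y i)).2 - a.2| ≤ r) →
    (1 - (1 - δ) ^ k) * Pr (EL P X Y) (Loc (WL P X Y) (TV P X Y) a R (vx (pcor P X Y p))) ≤
      Pool.Agent.Q1.M5.hh P X Y (vx (pcor P X Y p)) := by
  classical
  obtain ⟨δ, hδ0, hδ1, hδ⟩ := mark_locality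
  refine ⟨δ, hδ0, hδ1, ?_⟩
  intro P X Y M a R r k p hX hY hM hch hp2 hp hW hO hr hk hnear
  have hp1 : 1 ≤ p := by
    by_contra h
    have : p = 0 := by omega
    rw [this] at hp
    exact hp (lab_zero hX hY P)
  set z := pcor P X Y p with hz
  obtain ⟨hfree1, hfree2⟩ := lab_free hX hY hM hp1 hp2 hp
  rw [← hz] at hfree1 hfree2
  have hVz : inV P.Q X Y (vx z) := inV_pcor hX hY P p
  have hEsub : EL P X Y ⊆ H75.TwoArm.BB (M + 1 - 1) := by
    rw [add_sub_cancel_right]; exact (EL_sub_gs P X Y).trans (gs_sub_BB hM)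
  have hGsub : XW P X Y M ⊆ H75.TwoArm.BB (M + 1 - 1) := by
    rw [add_sub_cancel_right]; exact XW_sub_BB hM
  have hsucc : pcor P X Y (p + 1) = nxC z := pcor_closed hX hY hp
  have h1 := hδ (M + 1) (H75.Perc.lab z) (EL P X Y) (XW P X Y M) (XW P X Y M)
    (EL P X Y \ bx a R) (fi (nxC z)) (fi z) (vx z) (vx (nxO z))
    (fun g => ∃ i, p < i ∧ i ≤ posB P X Y ∧ g = fi (pcor P X Y i)) a r R k (lab_odd z)
    (by rw [add_sub_cancel_right]; exact hfree1) hEsub hGsub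
    (fun h => hp (EL_sub_gs P X Y h)) hfree2 sdiff_subset subset_rfl (fac_corner z).symm
    (ends_corner z) hW.conn ?_ hr hk ?_ ?_ ?_
  · -- conclusion
    set A : Finset (ℤ × ℤ) → Prop := fun ω => Co (ω ∪ (EL P X Y \ bx a R) ∪ XW P X Y M) (vx z)
      (vx (nxO z)) with hA
    set B : Finset (ℤ × ℤ) → Prop := fun ω => Co (ω ∪ XW P X Y M) (vx z) (vx (nxO z)) with hB
    have h2 : Pr (EL P X Y) A ≤ Pr (EL P X Y) B + Pr (EL P X Y) (fun ω => A ω ∧ ¬ B ω) := by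
      refine le_trans (Pr_mono ?_) (Pr_or_le _ _ _)
      intro ω _ h
      by_cases h3 : B ω
      · exact Or.inl h3
      · exact Or.inr ⟨h, h3⟩
    have h3 : Pr (EL P X Y) B ≤ Pool.Agent.Q1.M5.hh P X Y (vx z) :=
      Pr_mono fun ω hω h => hW.ct ω hω h
    have h4 : Pr (EL P X Y) (Loc (WL P X Y) (TV P X Y) a R (vx z)) ≤ Pr (EL P X Y) A := by
      refine Pr_mono fun ω hω h => loc_open hO hVz hω ?_ hW.arc h
      intro l hl
      exact mem_XW.2 (Or.inl hl)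
    have h5 : (0 : ℝ) ≤ 1 - (1 - δ) ^ k := by
      have : (1 - δ) ^ k ≤ 1 := pow_le_one₀ (by linarith) (by linarith)
      linarith
    have h6 := mul_le_mul_of_nonneg_left h4 h5
    have h7 : Pr (EL P X Y) (fun ω => A ω ∧ ¬ B ω) ≤ (1 - δ) ^ k * Pr (EL P X Y) A := h1
    nlinarith
  · -- faces of the right corridor
    refine ⟨⟨p + 1, by omega, by omega, by rw [hsucc]⟩, ?_⟩
    intro g g' hg1 hg2 hu h3 h4 h5
    have hT : Tchs P.Q X Y g := by
      refine Tchs.dc (M' := M + 1) hM (η := XW P X Y M) subset_rfl ?_ hg1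
      rw [← hsucc]
      exact ⟨_, VF_corner _, inV_pcor hX hY P (p + 1)⟩
    refine right_corr hX hY hM hch hp2 (by rw [← hz]; exact hp) (M' := M + 1) (by omega)
      (η := EL P X Y ∪ XW P X Y M) ?_ hT ?_ hu h3 h4 (by rw [← hz]; exact h5)
    · intro l hl
      rcases mem_union.1 hl with h | h
      · exact Or.inl (EL_sub_gs P X Y h)
      · exact Or.inr h
    · exact hg2
  · rintro g ⟨i, hi1, hi2, rfl⟩
    exact hnear i hi1 hi2
  · intro y y' hu hl
    exact far_face hu (mem_sdiff.1 hl).2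
  · rintro v ⟨⟨o, ho1, ho2⟩, hv⟩
    -- `v` is a far vertex of the region
    obtain ⟨ho3, ho4⟩ := mem_sdiff.1 ho1
    have hodd : (o.1 + o.2) % 2 = 1 := (mem_Bx.1 (hEsub ho3)).2.2
    have hsum : eu o + ev o = o := by
      unfold eu ev
      refine Prod.ext ?_ ?_ <;> simp only [Prod.fst_add, Prod.snd_add] <;> omega
    have hstep : IsUnit4 (ev o - eu o) := unit_ends hodd
    have hfar := far_step hstep (by rw [hsum]; exact ho4)
    have hin := inV_step hstep (Q := P.Q) (X := X) (Y := Y) (by rw [hsum]; exact EL_sub_gs P X Y ho3)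
    have hvf : Far R a v ∧ inV P.Q X Y v := by
      rcases ho2 with rfl | rfl
      · exact ⟨hfar.1, hin.1⟩
      · exact ⟨hfar.2, hin.2⟩
    obtain ⟨w, hw, hc⟩ := hO v hvf.2 hvf.1
    refine (hc.mono ?_).trans ((hW.arc w hw).mono subset_union_right)
    intro l hl
    obtain ⟨h4, h5⟩ := mem_sdiff.1 hl
    rcases (mem_gs_iff P X Y).1 h4 with h6 | h6
    · exact mem_union_left _ (mem_sdiff.2 ⟨h6, h5⟩)
    · exact mem_union_right _ (mem_XW.2 (Or.inl h6))

end Pool.Agent.H29.Q1
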