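import Mathlib
import Pool.Agent.H29.Q1.MarkLower

set_option autoImplicit false
set_option linter.unusedSimpArgs false
open Finset

/-! Q1, module M5: root positions of the vertices of the free arc; positions and distances along the
free arc; `NoChord` and `InBox` for grids with gaps at least two. -/

namespace Pool.Agent.H29.Q1

open Pool.Agent.H75.Perc Pool.Agent.H75.TwoArm Pool.Agent.H75.Four Pool.Agent.H49.Q1 Pool.Agent.H5.Q1
open Pool.Agent.H77.Q1
open Pool.Agent.Q1.M4 (Conn4 Adj4 Good Cell IsSide nextSide tail head PType isSide_next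
  head_eq_tail_next inV inRect lpt tail_inj Eqv)
open Pool.Agent.Q1.M5
open Pool.Agent.H44.Q1 (Gap)

section root

variable {P : PType} {X Y : ℤ → ℤ}

lemma lv_eq_sp (P : PType) (X Y : ℤ → ℤ) (n : ℕ) : lv P X Y n = sp X Y (P.side n) 0 := by
  rw [sp_zero]; rfl

/-- The first corner of the vertex `j` of a side. -/
lemma pcor_first (hX : StrictMono X) (hY : StrictMono Y) (P : PType) {n j : ℕ} (h1 : 1 ≤ j)
    (h2 : j ≤ slen X Y (P.side n)) :
    pcor P X Y (pos P X Y n + 2 * j - 1) = oc (sp X Y (P.side n) j) (P.side n).2 := by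
  have h := (walk_first hX hY P.side0 n (j := j - 1) (show j - 1 < slen X Y (P.side n) by omega)).1
  have e : SS P.Q X Y P.s0 n + (2 * (j - 1) + 1) = pos P X Y n + 2 * j - 1 := by
    unfold pos; omega
  rw [e, show j - 1 + 1 = j by omega] at h
  exact h

/-- **Root position of an interior vertex of a side.** -/
lemma root_side (hX : StrictMono X) (hY : StrictMono Y) (P : PType) {n j : ℕ} (h1 : 1 ≤ j)
    (h2 : j < slen X Y (P.side n)) :
    H75.Perc.lab (pcor P X Y (pos P X Y n + 2 * j - 1)) ∉ gs X Y P.Q := by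
  rw [pcor_first hX hY P h1 h2.le, gs_eq hX hY, lab_oc_mem hX hY]
  have hs := isSide P n
  have h3 := (cell_side hX hY (P.side n) (j := j)).2 h1 h2.le
  have h4 := ((cell_side hX hY (P.side n) (j := j)).1 h2).1
  rw [h3, h4]
  exact fun h => h.elim hs.2 hs.2

lemma pos_le_posB (hX : StrictMono X) (hY : StrictMono Y) (P : PType) {n j : ℕ} (hn : n < P.m)
    (h1 : 1 ≤ j) (h2 : j < slen X Y (P.side n)) : pos P X Y n + 2 * j - 1 < posB P X Y := by
  have hb := posB_lt hX hY P
  by_cases h3 : n = P.m - 1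
  · subst h3
    unfold posB
    omega
  · have h4 := pos_succ P X Y n
    have h5 := pos_mono P X Y (show n + 1 ≤ P.m - 1 by omega)
    unfold stp at h4
    omega

/-- **Root position of a flat vertex.** -/
lemma root_flat (hX : StrictMono X) (hY : StrictMono Y) {n : ℕ} (h : FlatV P n) :
    1 ≤ pos P X Y n - 1 ∧ pos P X Y n - 1 < posB P X Y ∧
    pcor P X Y (pos P X Y n - 1) = oc (lv P X Y n) (P.side n).2 ∧
    H75.Perc.lab (pcor P X Y (pos P X Y n - 1)) ∉ gs X Y P.Q := by
  obtain ⟨h1, h2, h3⟩ := h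
  have hn : n - 1 + 1 = n := by omega
  have hs := isSide P (n - 1)
  have hsucc : P.side n = nextSide P.Q (P.side (n - 1)) := by
    rw [← side_succ, hn]
  have hlp := slen_pos hX hY (P.side (n - 1))
  have hpos : pos P X Y n = pos P X Y (n - 1) + 2 * slen X Y (P.side (n - 1)) := by
    have h4 := pos_succ P X Y (n - 1)
    rw [hn] at h4
    have h5 := tn_cast (Q := P.Q) (P.side (n - 1))
    rw [← hsucc, ← h3] at h5
    have h6 : tn P.Q (P.side (n - 1)) = 1 := by omega
    unfold stp at h4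
    rw [h4, h6]
    omega
  have hc1 := pcor_first hX hY P (n := n - 1) (j := slen X Y (P.side (n - 1))) hlp le_rfl
  rw [← hpos, sp_len hX hY, head_side, hn, h3] at hc1
  have hb := posB_lt hX hY P
  have h7 := pos_mono P X Y (show n ≤ P.m - 1 by omega)
  refine ⟨by omega, by omega, hc1, ?_⟩
  rw [hc1, gs_eq hX hY, lab_oc_mem hX hY]
  have g1 := (cell_side hX hY (P.side (n - 1)) (j := slen X Y (P.side (n - 1)))).2 hlp le_rfl
  have g2 := (cell_head hX hY (P.side (n - 1))).1
  rw [sp_len hX hY] at g1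
  have e1 : gp X Y (tail (P.side n)) = gp X Y (head (P.side (n - 1))) := by
    rw [head_side, hn]
  have e2 : (P.side n).2 = (P.side (n - 1)).2 := h3.symm
  rw [e1, e2, g1, g2]
  have hns : (P.side (n - 1)).1 + dir (P.side (n - 1)).2 + dir ((P.side (n - 1)).2 - 1) ∉ P.Q := by
    intro h4
    have h5 : (P.side n).2 = (P.side (n - 1)).2 - 1 := by
      rw [hsucc]; unfold nextSide; rw [if_pos h4]
    omega
  exact fun h => h.elim hs.2 hns

/-- Vertices of the corners of a side before the vertex `j`. -/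
lemma vx_le (hX : StrictMono X) (hY : StrictMono Y) {n i j : ℕ} (h1 : pos P X Y n ≤ i)
    (h2 : i < pos P X Y n + 2 * j) (hj : j ≤ slen X Y (P.side n)) :
    ∃ j' ≤ j, vx (pcor P X Y i) = sp X Y (P.side n) j' := by
  have h3 : i < pos P X Y (n + 1) ∨ pos P X Y (n + 1) ≤ i := lt_or_ge _ _
  have hps := pos_succ P X Y n
  have hp := slen_pos hX hY (P.side n)
  have hbig : i < pos P X Y (n + 1) → ∃ j' ≤ j, vx (pcor P X Y i) = sp X Y (P.side n) j' := by
    intro h3
    rcases cor_cases hX hY P.side0 h1 h3 with ⟨j', hj', h5, h6⟩ | ⟨j', hj', h5, h6⟩ | ⟨-, h5, h6⟩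
    · change i = pos P X Y n + (2 * j' + 1) at h5
      change pcor P X Y i = oc (sp X Y (P.side n) (j' + 1)) _ at h6
      exact ⟨j' + 1, by omega, by rw [h6, vx_oc]⟩
    · change i = pos P X Y n + 2 * j' at h5
      change pcor P X Y i = oc (sp X Y (P.side n) j') _ at h6
      exact ⟨j', by omega, by rw [h6, vx_oc]⟩
    · change i = pos P X Y n + 2 * slen X Y (P.side n) at h5
      omega
  rcases h3 with h3 | h3
  · exact hbig h3
  · -- the last corner of a reflex vertex is also the first corner of the next side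
    unfold stp at hps
    have h4 := tn_cast (Q := P.Q) (P.side n)
    have h5 : i = pos P X Y (n + 1) := by omega
    have h6 : i = pos P X Y n + 2 * slen X Y (P.side n) - 1 := by omega
    refine ⟨slen X Y (P.side n), by omega, ?_⟩
    rw [h6, pcor_first hX hY P hp le_rfl, vx_oc]

/-- Vertices of the corners of a side after the vertex `j`. -/
lemma vx_ge (hX : StrictMono X) (hY : StrictMono Y) {n i j : ℕ} (h1 : pos P X Y n + 2 * j ≤ i + 1)
    (h0 : pos P X Y n ≤ i)
    (h2 : i < pos P X Y (n + 1)) :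
    ∃ j', j ≤ j' ∧ j' ≤ slen X Y (P.side n) ∧ vx (pcor P X Y i) = sp X Y (P.side n) j' := by
  rcases cor_cases hX hY P.side0 h0 h2 with ⟨j', hj', h5, h6⟩ | ⟨j', hj', h5, h6⟩ | ⟨-, h5, h6⟩
  · change i = pos P X Y n + (2 * j' + 1) at h5
    change pcor P X Y i = oc (sp X Y (P.side n) (j' + 1)) _ at h6
    change j' < slen X Y (P.side n) at hj'
    exact ⟨j' + 1, by omega, by omega, by rw [h6, vx_oc]⟩
  · change i = pos P X Y n + 2 * j' at h5
    change pcor P X Y i = oc (sp X Y (P.side n) j') _ at h6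
    change j' < slen X Y (P.side n) at hj'
    exact ⟨j', by omega, by omega, by rw [h6, vx_oc]⟩
  · change i = pos P X Y n + 2 * slen X Y (P.side n) at h5
    change pcor P X Y i = oc (gp X Y (head (P.side n))) _ at h6
    exact ⟨slen X Y (P.side n), by omega, le_rfl, by rw [h6, vx_oc, sp_len hX hY]⟩

/-- Vertices of the same side: distance. -/
lemma sp_near (X Y : ℤ → ℤ) (s : Cell × ℤ) {i j : ℕ} {t : ℤ} (h : |(i : ℤ) - j| ≤ t) :
    |(sp X Y s i).1 - (sp X Y s j).1| ≤ t ∧ |(sp X Y s i).2 - (sp X Y s j).2| ≤ t := by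
  have ht : 0 ≤ t := (abs_nonneg _).trans h
  rw [abs_le] at h
  unfold sp
  simp only [Prod.fst_add, Prod.snd_add]
  rcases dir_cases s.2 with ⟨-, g⟩ | ⟨-, g⟩ | ⟨-, g⟩ | ⟨-, g⟩ <;> rw [g] <;>
    simp only [abs_le] <;> omega

/-- The face of a corner is next to its vertex. -/
lemma fi_near {z a : ℤ × ℤ} {t : ℤ} (h : |(vx z).1 - a.1| ≤ t ∧ |(vx z).2 - a.2| ≤ t) :
    |(fi z).1 - a.1| ≤ t + 1 ∧ |(fi z).2 - a.2| ≤ t + 1 := by
  have hV := VF_corner z
  unfold VF at hV
  simp only [abs_le] at *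
  omega

end root

/-! ### Gaps -/

/-- **Gaps at least two: no chords.** -/
theorem noChord_of_gap {Q : Finset Cell} {X Y : ℤ → ℤ} (hG : Gap Q X Y 2) : NoChord Q X Y := by
  intro e hodd hu hv
  obtain ⟨c, hc, hu1, hu2⟩ := hu
  obtain ⟨d, hd, hv1, hv2⟩ := hv
  have hX := hG.1
  have hY := hG.2.1
  rw [mem_gs]
  by_cases h1 : e ∈ gcell X Y c
  · exact ⟨c, hc, h1⟩
  by_cases h2 : e ∈ gcell X Y d
  · exact ⟨d, hd, h2⟩
  exfalso
  rw [gcell_mem] at h1 h2
  have k1 := hG.2.2 c hc (c.1 + 1, c.2 + 1) (by simp) (by simp)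
  have k2 := hG.2.2 d hd (d.1 - 1, d.2 - 1) (by simp) (by simp)
  simp only [sub_add_cancel] at k1 k2
  unfold eu ev at *
  simp only at hu1 hu2 hv1 hv2
  rcases Int.emod_two_eq_zero_or_one e.1 with h3 | h3
  · -- vertical edge
    have h4 : Y (c.2 + 1) < Y d.2 := by omega
    have h5 : c.2 + 1 < d.2 := hY.lt_iff_lt.1 h4
    have h6 := hY.monotone (show c.2 + 1 + 1 ≤ d.2 by omega)
    omega
  · have h4 : X (c.1 + 1) < X d.1 := by omega
    have h5 : c.1 + 1 < d.1 := hX.lt_iff_lt.1 h4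
    have h6 := hX.monotone (show c.1 + 1 + 1 ≤ d.1 by omega)
    omega

/-- A large box contains the region. -/
theorem exists_inBox (P : PType) (X Y : ℤ → ℤ) : ∃ M : ℤ, InBox P X Y M := by
  classical
  obtain ⟨B, hB⟩ : ∃ B : ℤ, ∀ c ∈ P.Q, (|X c.1| + |X (c.1 + 1)| + |Y c.2| + |Y (c.2 + 1)|) ≤ B := by
    refine ⟨∑ c ∈ P.Q, (|X c.1| + |X (c.1 + 1)| + |Y c.2| + |Y (c.2 + 1)|), fun c hc => ?_⟩
    exact Finset.single_le_sum (f := fun c : Cell =>
      |X c.1| + |X (c.1 + 1)| + |Y c.2| + |Y (c.2 + 1)|) (fun i _ => by positivity) hc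
  refine ⟨B + 2, ?_⟩
  rintro v ⟨c, hc, h1, h2⟩
  have h3 := hB c hc
  have e1 := neg_abs_le (X c.1)
  have e2 := le_abs_self (X (c.1 + 1))
  have e3 := neg_abs_le (Y c.2)
  have e4 := le_abs_self (Y (c.2 + 1))
  have e5 := abs_nonneg (X c.1)
  have e6 := abs_nonneg (X (c.1 + 1))
  have e7 := abs_nonneg (Y c.2)
  have e8 := abs_nonneg (Y (c.2 + 1))
  omega

end Pool.Agent.H29.Q1
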