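import Mathlib
import Pool.Agent.H29.Q1.Root

set_option autoImplicit false
set_option linter.unusedSimpArgs false
open Finset

/-! Q1, module M5, B1: the local picture of the domain at a boundary vertex depends only on the
directions of the two boundary sides at this vertex (up to translation). -/

namespace Pool.Agent.H29.Q1

open Pool.Agent.H75.Perc Pool.Agent.H75.TwoArm Pool.Agent.H75.Four Pool.Agent.H49.Q1 Pool.Agent.H5.Q1
open Pool.Agent.H77.Q1
open Pool.Agent.Q1.M4 (Conn4 Adj4 Good Cell IsSide nextSide tail head PType isSide_next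
  head_eq_tail_next inV inRect lpt tail_inj Eqv)
open Pool.Agent.Q1.M5
open Pool.Agent.H44.Q1 (Gap)

/-! ### The four cells at a grid vertex -/

/-- The cell at the grid vertex `α` whose corner number `i` is `α`. -/
def qc (α : ℤ × ℤ) (i : ℤ) : Cell :=
  if i % 4 = 0 then α else if i % 4 = 1 then α - (1, 0) else if i % 4 = 2 then α - (1, 1)
  else α - (0, 1)

lemma qc_cases (α : ℤ × ℤ) (i : ℤ) : (i % 4 = 0 ∧ qc α i = (α.1, α.2)) ∨
    (i % 4 = 1 ∧ qc α i = (α.1 - 1, α.2)) ∨ (i % 4 = 2 ∧ qc α i = (α.1 - 1, α.2 - 1)) ∨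
    (i % 4 = 3 ∧ qc α i = (α.1, α.2 - 1)) := by
  unfold qc
  have h : i % 4 = 0 ∨ i % 4 = 1 ∨ i % 4 = 2 ∨ i % 4 = 3 := by omega
  rcases h with h | h | h | h
  · left; rw [if_pos h]; exact ⟨h, rfl⟩
  · right; left
    rw [if_neg (by omega), if_pos h]
    exact ⟨h, Prod.ext (by simp) (by simp)⟩
  · right; right; left
    rw [if_neg (by omega), if_neg (by omega), if_pos h]
    exact ⟨h, Prod.ext (by simp) (by simp)⟩
  · right; right; right
    rw [if_neg (by omega), if_neg (by omega), if_neg (by omega)]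
    exact ⟨h, Prod.ext (by simp) (by simp)⟩

lemma qc_congr (α : ℤ × ℤ) {i j : ℤ} (h : (i - j) % 4 = 0) : qc α i = qc α j := by
  unfold qc
  rw [show i % 4 = j % 4 by omega]

lemma tail_qc (s : Cell × ℤ) : qc (tail s) s.2 = s.1 := by
  obtain ⟨⟨a, b⟩, k⟩ := s
  unfold qc tail
  simp only
  split_ifs <;> simp

/-- The four cells at the end of a side. -/
lemma qc_head (s : Cell × ℤ) : qc (head s) (s.2 + 1) = s.1 ∧
    qc (head s) (s.2 + 2) = s.1 + dir (s.2 - 1) ∧ qc (head s) s.2 = s.1 + dir s.2 ∧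
    qc (head s) (s.2 + 3) = s.1 + dir s.2 + dir (s.2 - 1) := by
  obtain ⟨⟨a, b⟩, k⟩ := s
  unfold head tail
  simp only
  rcases dir_cases k with ⟨e, f⟩ | ⟨e, f⟩ | ⟨e, f⟩ | ⟨e, f⟩ <;>
  rcases dir_cases (k - 1) with ⟨e', f'⟩ | ⟨e', f'⟩ | ⟨e', f'⟩ | ⟨e', f'⟩ <;>
  first
  | (exfalso; omega)
  | (rw [f, f']
     refine ⟨?_, ?_, ?_, ?_⟩ <;>
     [rcases qc_cases _ (k + 1) with ⟨g, h⟩ | ⟨g, h⟩ | ⟨g, h⟩ | ⟨g, h⟩;
      rcases qc_cases _ (k + 2) with ⟨g, h⟩ | ⟨g, h⟩ | ⟨g, h⟩ | ⟨g, h⟩;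
      rcases qc_cases _ k with ⟨g, h⟩ | ⟨g, h⟩ | ⟨g, h⟩ | ⟨g, h⟩;
      rcases qc_cases _ (k + 3) with ⟨g, h⟩ | ⟨g, h⟩ | ⟨g, h⟩ | ⟨g, h⟩] <;>
     first
     | (exfalso; omega)
     | (rw [h]; simp [e, sub_eq_add_neg]))

/-- The cells at the end of a side depend only on the turn. -/
lemma quad {Q : Finset Cell} (hQ : Good Q) {s : Cell × ℤ} (hs : IsSide Q s) (i : ℤ) :
    qc (head s) i ∈ Q ↔ ((i - s.2) % 4 = 1 ∨ ((i - s.2) % 4 = 0 ∧ (nextSide Q s).2 - s.2 ≤ 0) ∨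
      ((i - s.2) % 4 = 3 ∧ (nextSide Q s).2 - s.2 = -1)) := by
  obtain ⟨h1, h2, h3, h4⟩ := qc_head s
  have hcase : (i - s.2) % 4 = 0 ∨ (i - s.2) % 4 = 1 ∨ (i - s.2) % 4 = 2 ∨ (i - s.2) % 4 = 3 := by
    omega
  have hturn : (s.1 + dir s.2 + dir (s.2 - 1) ∈ Q ∧ s.1 + dir s.2 ∈ Q ∧
      (nextSide Q s).2 - s.2 = -1) ∨
      (s.1 + dir s.2 + dir (s.2 - 1) ∉ Q ∧ s.1 + dir s.2 ∈ Q ∧ (nextSide Q s).2 - s.2 = 0) ∨
      (s.1 + dir s.2 + dir (s.2 - 1) ∉ Q ∧ s.1 + dir s.2 ∉ Q ∧ (nextSide Q s).2 - s.2 = 1) := by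
    unfold nextSide
    split_ifs with ha hb
    · left
      refine ⟨ha, ?_, by simp only; omega⟩
      obtain ⟨hs1, hs2⟩ := hs
      obtain ⟨⟨a, b⟩, k⟩ := s
      simp only at ha hs1 hs2 ⊢
      rcases dir_cases k with ⟨e, f⟩ | ⟨e, f⟩ | ⟨e, f⟩ | ⟨e, f⟩ <;>
      rcases dir_cases (k - 1) with ⟨e', f'⟩ | ⟨e', f'⟩ | ⟨e', f'⟩ | ⟨e', f'⟩ <;>
      first
      | (exfalso; omega)
      | skip
      · rw [f, f'] at ha; rw [f'] at hs2; rw [f]
        simp only [Prod.mk_add_mk, add_zero, zero_add] at *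
        have := hQ.diag2 (a, b - 1)
        simp only [Prod.mk_add_mk, add_zero, sub_add_cancel] at this
        have h5 := this (by simpa [sub_eq_add_neg] using ha) hs1
        rcases h5 with h5 | h5
        · exact absurd (by simpa [sub_eq_add_neg] using h5) hs2
        · exact h5
      · rw [f, f'] at ha; rw [f'] at hs2; rw [f]
        simp only [Prod.mk_add_mk, add_zero, zero_add] at *
        have h5 := (hQ.diag1 (a, b) hs1 (by simpa using ha)).resolve_left (by simpa using hs2)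
        simpa using h5
      · rw [f, f'] at ha; rw [f'] at hs2; rw [f]
        simp only [Prod.mk_add_mk, add_zero, zero_add] at *
        have := hQ.diag2 (a - 1, b)
        simp only [Prod.mk_add_mk, add_zero, sub_add_cancel] at this
        have h5 := this hs1 (by simpa [sub_eq_add_neg] using ha)
        rcases h5 with h5 | h5
        · simpa [sub_eq_add_neg] using h5
        · exact absurd (by simpa [sub_eq_add_neg] using h5) hs2
      · rw [f, f'] at ha; rw [f'] at hs2; rw [f]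
        simp only [Prod.mk_add_mk, add_zero, zero_add] at *
        have := hQ.diag1 (a - 1, b - 1)
        simp only [Prod.mk_add_mk, add_zero, sub_add_cancel] at this
        have h5 := this (by simpa [sub_eq_add_neg] using ha) hs1
        rcases h5 with h5 | h5
        · simpa [sub_eq_add_neg] using h5
        · exact absurd (by simpa [sub_eq_add_neg] using h5) hs2
    · right; left
      exact ⟨ha, hb, by simp⟩
    · right; right
      exact ⟨ha, hb, by simp⟩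
  rcases hcase with hc | hc | hc | hc
  · rw [qc_congr (head s) (show (i - s.2) % 4 = 0 from hc), h3]
    rcases hturn with ⟨a1, a2, a3⟩ | ⟨a1, a2, a3⟩ | ⟨a1, a2, a3⟩ <;> simp [a2, a3, hc]
  · rw [qc_congr (head s) (show (i - (s.2 + 1)) % 4 = 0 by omega), h1]
    simp [hs.1, hc]
  · rw [qc_congr (head s) (show (i - (s.2 + 2)) % 4 = 0 by omega), h2]
    simp [hs.2, hc]
  · rw [qc_congr (head s) (show (i - (s.2 + 3)) % 4 = 0 by omega), h4]
    rcases hturn with ⟨a1, a2, a3⟩ | ⟨a1, a2, a3⟩ | ⟨a1, a2, a3⟩ <;> simp [a1, a3, hc]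

/-- Two sides with equal directions and equal next directions: same cells at the end. -/
lemma quad_same {Q Q' : Finset Cell} (hQ : Good Q) (hQ' : Good Q') {s s' : Cell × ℤ}
    (hs : IsSide Q s) (hs' : IsSide Q' s') (h1 : (s.2 - s'.2) % 4 = 0)
    (h2 : ((nextSide Q s).2 - (nextSide Q' s').2) % 4 = 0) (i : ℤ) :
    qc (head s) i ∈ Q ↔ qc (head s') i ∈ Q' := by
  rw [quad hQ hs, quad hQ' hs']
  have t1 := Pool.Agent.Q1.M4.next_turn Q s
  have t2 := Pool.Agent.Q1.M4.next_turn Q' s'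
  constructor <;> intro h <;> omega

/-! ### Labels of the region near a grid vertex -/

/-- The quadrant number `i`. -/
def quadr (i : ℤ) (l : ℤ × ℤ) : Prop := (i % 4 = 0 → 0 ≤ l.1 ∧ 0 ≤ l.2) ∧
  (i % 4 = 1 → l.1 ≤ 0 ∧ 0 ≤ l.2) ∧ (i % 4 = 2 → l.1 ≤ 0 ∧ l.2 ≤ 0) ∧ (i % 4 = 3 → 0 ≤ l.1 ∧ l.2 ≤ 0)

lemma line_near' {X : ℤ → ℤ} (hX : StrictMono X) {c α R x : ℤ}
    (hg : ∀ d, |d - c| ≤ 2 → X d + (R + 1) ≤ X (d + 1)) (h1 : 2 * X c ≤ x) (h2 : x ≤ 2 * X (c + 1))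
    (h3 : 2 * X α - 2 * R ≤ x) (h4 : x ≤ 2 * X α + 2 * R) : α = c ∨ α = c + 1 := by
  have k1 := hg (c - 1) (by rw [abs_le]; omega)
  have k2 := hg (c + 1) (by rw [abs_le]; omega)
  rw [sub_add_cancel] at k1
  by_contra h
  push Not at h
  have h5 : α < c ∨ c + 1 < α := by omega
  rcases h5 with h5 | h5
  · have := hX.monotone (show α ≤ c - 1 by omega); omega
  · have := hX.monotone (show c + 1 + 1 ≤ α by omega); omega

lemma gs_local {Q : Finset Cell} {X Y : ℤ → ℤ} {R : ℤ} (hG : Gap Q X Y (R + 1)) {α : ℤ × ℤ}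
    {l : ℤ × ℤ} (hl : l ∈ bx (lpt X Y α) R) :
    l ∈ gs X Y Q ↔ ∃ i : ℤ, qc α i ∈ Q ∧ quadr i (l.1 - 2 * X α.1, l.2 - 2 * Y α.2) := by
  rw [mem_bx] at hl
  unfold lpt at hl
  simp only at hl
  have hX := hG.1
  have hY := hG.2.1
  rw [mem_gs]
  unfold quadr
  simp only
  constructor
  · rintro ⟨c, hc, h⟩
    rw [gcell_mem] at h
    have gX : ∀ d, |d - c.1| ≤ 2 → X d + (R + 1) ≤ X (d + 1) := fun d hd =>
      (hG.2.2 c hc (d, c.2) hd (by simp)).1
    have gY : ∀ d, |d - c.2| ≤ 2 → Y d + (R + 1) ≤ Y (d + 1) := fun d hd =>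
      (hG.2.2 c hc (c.1, d) (by simp) hd).2
    have e1 := line_near' hX gX h.1.1 h.1.2 hl.1.1 hl.1.2
    have e2 := line_near' hY gY h.2.1.1 h.2.1.2 hl.2.1.1 hl.2.1.2
    rcases e1 with e1 | e1 <;> rcases e2 with e2 | e2
    · refine ⟨0, ?_, ?_⟩
      · have : qc α 0 = c := by unfold qc; simp; exact Prod.ext e1 e2
        rw [this]; exact hc
      · rw [e1, e2]; omega
    · refine ⟨3, ?_, ?_⟩
      · have : qc α 3 = c := by
          unfold qc; simp; refine Prod.ext ?_ ?_ <;> simp <;> omega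
        rw [this]; exact hc
      · rw [e1, e2]; omega
    · refine ⟨1, ?_, ?_⟩
      · have : qc α 1 = c := by
          unfold qc; simp; refine Prod.ext ?_ ?_ <;> simp <;> omega
        rw [this]; exact hc
      · rw [e1, e2]; omega
    · refine ⟨2, ?_, ?_⟩
      · have : qc α 2 = c := by
          unfold qc; simp; refine Prod.ext ?_ ?_ <;> simp <;> omega
        rw [this]; exact hc
      · rw [e1, e2]; omega
  · rintro ⟨i, hi, h1, h2, h3, h4⟩
    refine ⟨qc α i, hi, ?_⟩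
    rw [gcell_mem]
    have g := hG.2.2 _ hi (qc α i) (by simp) (by simp)
    rcases qc_cases α i with ⟨e, f⟩ | ⟨e, f⟩ | ⟨e, f⟩ | ⟨e, f⟩ <;> rw [f] at g ⊢ <;>
      simp only [sub_add_cancel] at g ⊢
    · have := h1 e; omega
    · have := h2 e; omega
    · have := h3 e; omega
    · have := h4 e; omega

/-! ### The wired side at a grid vertex -/

/-- The ray from `a` in the direction `κ`. -/
def ray (a : ℤ × ℤ) (κ : ℤ) (u : ℤ × ℤ) : Prop := (κ % 4 = 0 → a.1 ≤ u.1 ∧ u.2 = a.2) ∧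
  (κ % 4 = 1 → u.1 = a.1 ∧ a.2 ≤ u.2) ∧ (κ % 4 = 2 → u.1 ≤ a.1 ∧ u.2 = a.2) ∧
  (κ % 4 = 3 → u.1 = a.1 ∧ u.2 ≤ a.2)

/-- A closed side which comes near the grid vertex `α` ends or starts there. -/
lemma side_meet {Q : Finset Cell} {X Y : ℤ → ℤ} {R : ℤ} (hG : Gap Q X Y (R + 1)) {α : ℤ × ℤ}
    {s : Cell × ℤ} (hs : s.1 ∈ Q) {u : ℤ × ℤ} (h : sV X Y s u)
    (hf : ¬ Far (R + 1) (lpt X Y α) u) : tail s = α ∨ head s = α := by
  obtain ⟨⟨c1, c2⟩, k⟩ := s
  have hX := hG.1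
  have hY := hG.2.1
  have gX : ∀ d, |d - c1| ≤ 2 → X d + (R + 1) ≤ X (d + 1) := fun d hd =>
    (hG.2.2 _ hs (d, c2) hd (by simp)).1
  have gY : ∀ d, |d - c2| ≤ 2 → Y d + (R + 1) ≤ Y (d + 1) := fun d hd =>
    (hG.2.2 _ hs (c1, d) (by simp) hd).2
  rw [far_iff] at hf
  unfold lpt at hf
  unfold sV onCell inB at h
  simp only at hf h
  obtain ⟨⟨h1, h2⟩, h3, h4, h5, h6⟩ := h
  have e1 := line_near' hX gX (α := α.1) (x := 2 * u.1) (by omega) (by omega) (by omega) (by omega)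
  have e2 := line_near' hY gY (α := α.2) (x := 2 * u.2) (by omega) (by omega) (by omega) (by omega)
  obtain ⟨a1, a2⟩ := α
  simp only at e1 e2 hf
  have kX := gX c1 (by simp)
  have kY := gY c2 (by simp)
  unfold head tail
  simp only
  rcases dir_cases k with ⟨e, f⟩ | ⟨e, f⟩ | ⟨e, f⟩ | ⟨e, f⟩ <;> rw [f] <;> simp only [e] <;>
    norm_num <;> rcases e1 with e1 | e1 <;> rcases e2 with e2 | e2 <;> subst e1 <;> subst e2 <;>
    simp <;> omega

/-- A side which starts at `α`: its vertices near `α` are the vertices of the ray. -/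
lemma ray_tail {Q : Finset Cell} {X Y : ℤ → ℤ} {R : ℤ} (hG : Gap Q X Y (R + 1))
    {s : Cell × ℤ} (hs : s.1 ∈ Q) {u : ℤ × ℤ} (hf : ¬ Far (R + 1) (lpt X Y (tail s)) u) :
    sV X Y s u ↔ ray (lpt X Y (tail s)) s.2 u := by
  obtain ⟨⟨c1, c2⟩, k⟩ := s
  have g := hG.2.2 _ hs (c1, c2) (by simp) (by simp)
  simp only at g
  rw [far_iff] at hf
  unfold lpt at hf ⊢
  unfold sV onCell inB ray
  rcases dir_cases k with ⟨e, f⟩ | ⟨e, f⟩ | ⟨e, f⟩ | ⟨e, f⟩ <;>
    (unfold tail at hf ⊢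
     simp only [e] at hf ⊢
     norm_num at hf ⊢
     omega)

/-- A side which ends at `α`. -/
lemma ray_head {Q : Finset Cell} {X Y : ℤ → ℤ} {R : ℤ} (hG : Gap Q X Y (R + 1))
    {s : Cell × ℤ} (hs : s.1 ∈ Q) {u : ℤ × ℤ} (hf : ¬ Far (R + 1) (lpt X Y (head s)) u) :
    sV X Y s u ↔ ray (lpt X Y (head s)) (s.2 + 2) u := by
  obtain ⟨⟨c1, c2⟩, k⟩ := s
  have g := hG.2.2 _ hs (c1, c2) (by simp) (by simp)
  simp only at g
  rw [far_iff] at hf
  unfold lpt at hf ⊢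
  unfold sV onCell inB ray
  rcases dir_cases k with ⟨e, f⟩ | ⟨e, f⟩ | ⟨e, f⟩ | ⟨e, f⟩ <;>
    (unfold head tail at hf ⊢
     have e2 : (k + 2) % 4 = (k % 4 + 2) % 4 := by omega
     simp only [f, e, e2] at hf ⊢
     norm_num at hf ⊢
     omega)

lemma sL_iff {X Y : ℤ → ℤ} (s : Cell × ℤ) {l : ℤ × ℤ} (hl : (l.1 + l.2) % 2 = 1) :
    l ∈ Pool.Agent.Q1.M5.sL X Y s ↔ sV X Y s (eu l) ∧ sV X Y s (ev l) := by
  unfold Pool.Agent.Q1.M5.sL sV onCell inB eu ev
  rw [mem_filter, gcell_mem]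
  simp only
  constructor
  · rintro ⟨⟨h1, h2, h3⟩, h4, h5, h6, h7⟩
    omega
  · rintro ⟨⟨⟨h1, h2⟩, h3, h4, h5, h6⟩, ⟨h7, h8⟩, h9, h10, h11, h12⟩
    omega

lemma near_ends {a : ℤ × ℤ} {R : ℤ} {l : ℤ × ℤ} (hl : l ∈ bx a R) :
    ¬ Far (R + 1) a (eu l) ∧ ¬ Far (R + 1) a (ev l) := by
  rw [mem_bx] at hl
  rw [far_iff, far_iff]
  unfold eu ev
  simp only
  omega

/-- The wired arc near a grid vertex at which only one wired side ends or starts. -/
lemma wired_local {P : PType} {X Y : ℤ → ℤ} {R : ℤ} (hG : Gap P.Q X Y (R + 1)) {α : ℤ × ℤ}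
    {n0 : ℕ} {κ : ℤ} (h1 : P.m ≤ n0) (h2 : n0 < P.N)
    (h3 : ∀ n, P.m ≤ n → n < P.N → (tail (P.side n) = α ∨ head (P.side n) = α) → n = n0)
    (h4 : ∀ u, ¬ Far (R + 1) (lpt X Y α) u → (sV X Y (P.side n0) u ↔ ray (lpt X Y α) κ u)) :
    (∀ u, ¬ Far (R + 1) (lpt X Y α) u → (TV P X Y u ↔ ray (lpt X Y α) κ u)) ∧
    (∀ l ∈ bx (lpt X Y α) R, (l ∈ WL P X Y ↔ ray (lpt X Y α) κ (eu l) ∧
      ray (lpt X Y α) κ (ev l))) := by
  constructor
  · intro u hf
    rw [← h4 u hf]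
    constructor
    · rintro ⟨n, h5, h6, h7⟩
      have := side_meet hG (isSide P n).1 h7 hf
      rwa [h3 n h5 h6 this] at h7
    · intro h5
      exact ⟨n0, h1, h2, h5⟩
  · intro l hl
    obtain ⟨k1, k2⟩ := near_ends hl
    have hodd : (l.1 + l.2) % 2 = 1 := (mem_bx.1 hl).2.2
    rw [← h4 _ k1, ← h4 _ k2, ← sL_iff _ hodd]
    unfold Pool.Agent.Q1.M5.WL
    rw [mem_biUnion]
    constructor
    · rintro ⟨n, h5, h6⟩
      rw [mem_Ico] at h5
      have h7 := ((sL_iff _ hodd).1 h6).1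
      have := side_meet hG (isSide P n).1 h7 k1
      rwa [h3 n h5.1 h5.2 this] at h6
    · intro h5
      exact ⟨n0, mem_Ico.2 ⟨h1, h2⟩, h5⟩

/-- The mark `a` (end of the last side). -/
lemma wired_a {P : PType} {X Y : ℤ → ℤ} {R : ℤ} (hG : Gap P.Q X Y (R + 1)) :
    (∀ u, ¬ Far (R + 1) (lpt X Y (head (P.side (P.N - 1)))) u →
      (TV P X Y u ↔ ray (lpt X Y (head (P.side (P.N - 1)))) ((P.side (P.N - 1)).2 + 2) u)) ∧
    (∀ l ∈ bx (lpt X Y (head (P.side (P.N - 1)))) R, (l ∈ WL P X Y ↔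
      ray (lpt X Y (head (P.side (P.N - 1)))) ((P.side (P.N - 1)).2 + 2) (eu l) ∧
      ray (lpt X Y (head (P.side (P.N - 1)))) ((P.side (P.N - 1)).2 + 2) (ev l))) := by
  have hm0 := P.hm0
  have hmN := P.hmN
  have hα : head (P.side (P.N - 1)) = tail (P.side 0) := by
    rw [head_side, show P.N - 1 + 1 = P.N by omega, tail_side_N]
  refine wired_local hG (n0 := P.N - 1) (by omega) (by omega) ?_
    (fun u hf => ray_head hG (isSide P _).1 hf)
  rintro n h1 h2 (h3 | h3)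
  · rw [hα] at h3
    have := tail_side_inj h2 (by omega) h3
    omega
  · rw [hα, head_side] at h3
    by_cases h4 : n + 1 < P.N
    · have := tail_side_inj h4 (by omega) h3
      omega
    · omega

/-- The mark `b` (beginning of the side `m`). -/
lemma wired_b {P : PType} {X Y : ℤ → ℤ} {R : ℤ} (hG : Gap P.Q X Y (R + 1)) :
    (∀ u, ¬ Far (R + 1) (lpt X Y (tail (P.side P.m))) u →
      (TV P X Y u ↔ ray (lpt X Y (tail (P.side P.m))) (P.side P.m).2 u)) ∧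
    (∀ l ∈ bx (lpt X Y (tail (P.side P.m))) R, (l ∈ WL P X Y ↔
      ray (lpt X Y (tail (P.side P.m))) (P.side P.m).2 (eu l) ∧
      ray (lpt X Y (tail (P.side P.m))) (P.side P.m).2 (ev l))) := by
  have hm0 := P.hm0
  have hmN := P.hmN
  refine wired_local hG (n0 := P.m) le_rfl hmN ?_
    (fun u hf => ray_tail hG (isSide P _).1 hf)
  rintro n h1 h2 (h3 | h3)
  · exact tail_side_inj h2 hmN h3
  · rw [head_side] at h3
    by_cases h4 : n + 1 < P.N
    · have := tail_side_inj h4 hmN h3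
      omega
    · have h5 : n + 1 = P.N := by omega
      rw [h5, tail_side_N] at h3
      have := tail_side_inj (by omega) hmN h3
      omega

end Pool.Agent.H29.Q1
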