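import Mathlib
import Pool.Agent.H29.Q1.MarkPat

set_option autoImplicit false
set_option linter.unusedSimpArgs false
open Finset

/-! Q1, module M5, B1: two domains with the same local picture in a box have the same probability of
the local event. -/

namespace Pool.Agent.H29.Q1

open Pool.Agent.H75.Perc Pool.Agent.H75.TwoArm Pool.Agent.H75.Four Pool.Agent.H49.Q1 Pool.Agent.H5.Q1
open Pool.Agent.H77.Q1
open Pool.Agent.Q1.M4 (Conn4 Adj4 Good Cell IsSide nextSide tail head PType isSide_next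
  head_eq_tail_next inV inRect lpt tail_inj Eqv)
open Pool.Agent.Q1.M5
open Pool.Agent.H44.Q1 (Gap)

/-- The pictures of two domains in the boxes of radius `R` around `a` and `a'` agree. -/
structure Same (P P' : PType) (X Y X' Y' : ℤ → ℤ) (a a' : ℤ × ℤ) (R : ℤ) : Prop where
  gs : ∀ l ∈ bx a R, (l ∈ gs X Y P.Q ↔ (syT (a' - a)).G l ∈ gs X' Y' P'.Q)
  wl : ∀ l ∈ bx a R, (l ∈ WL P X Y ↔ (syT (a' - a)).G l ∈ WL P' X' Y')
  tv : ∀ u, ¬ Far R a u → (TV P X Y u ↔ TV P' X' Y' (u + (a' - a)))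

lemma Pr_loc {P : PType} {X Y : ℤ → ℤ} {a : ℤ × ℤ} {R : ℤ} {v : ℤ × ℤ} {W : Finset (ℤ × ℤ)}
    {T : ℤ × ℤ → Prop} :
    Pr (EL P X Y) (Loc W T a R v) = Pr (EL P X Y ∩ bx a R) (Loc W T a R v) := by
  rw [← Pr_restrict (E := EL P X Y) (E1 := EL P X Y ∩ bx a R) inter_subset_left]
  apply Pr_congr
  intro ω hω
  have : ω ∩ (EL P X Y ∩ bx a R) = ω ∩ bx a R := by
    ext l
    simp only [mem_inter]
    exact ⟨fun h => ⟨h.1, h.2.2⟩, fun h => ⟨h.1, hω h.1, h.2⟩⟩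
  rw [this, Loc_inter]

lemma bx_map {a a' : ℤ × ℤ} {R : ℤ} (e : ℤ × ℤ) :
    e ∈ bx a' R ↔ (syT (a' - a)).G' e ∈ bx a R := by
  rw [mem_bx, mem_bx]
  unfold syT
  simp only [Prod.fst_sub, Prod.snd_sub]
  omega

lemma far_map {a a' : ℤ × ℤ} {R : ℤ} (u : ℤ × ℤ) :
    Far R a' (u + (a' - a)) ↔ Far R a u := by
  rw [far_iff, far_iff]
  simp only [Prod.fst_sub, Prod.snd_sub, Prod.fst_add, Prod.snd_add]
  omega

/-- Same local probability. -/
theorem loc_same {P P' : PType} {X Y X' Y' : ℤ → ℤ} {a a' : ℤ × ℤ} {R : ℤ}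
    (h : Same P P' X Y X' Y' a a' R) (v : ℤ × ℤ) :
    Pr (EL P X Y) (Loc (WL P X Y) (TV P X Y) a R v) =
      Pr (EL P' X' Y') (Loc (WL P' X' Y') (TV P' X' Y') a' R (v + (a' - a))) := by
  rw [Pr_loc, Pr_loc]
  set S := syT (a' - a) with hS
  have hwl : ∀ e, e ∈ WL P' X' Y' ∩ bx a' R ↔ S.G' e ∈ WL P X Y ∩ bx a R := by
    intro e
    rw [mem_inter, mem_inter, bx_map (a := a)]
    constructor
    · rintro ⟨h1, h2⟩
      refine ⟨?_, h2⟩
      rw [h.wl _ h2, S.GG']; exact h1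
    · rintro ⟨h1, h2⟩
      refine ⟨?_, h2⟩
      rw [h.wl _ h2, S.GG'] at h1; exact h1
  have hel : ∀ e, e ∈ EL P' X' Y' ∩ bx a' R ↔ S.G' e ∈ EL P X Y ∩ bx a R := by
    intro e
    unfold EL
    rw [mem_inter, mem_inter, mem_sdiff, mem_sdiff, bx_map (a := a)]
    constructor
    · rintro ⟨⟨h1, h3⟩, h2⟩
      refine ⟨⟨?_, ?_⟩, h2⟩
      · rw [h.gs _ h2, S.GG']; exact h1
      · rw [h.wl _ h2, S.GG']; exact h3
    · rintro ⟨⟨h1, h3⟩, h2⟩
      refine ⟨⟨?_, ?_⟩, h2⟩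
      · rw [h.gs _ h2, S.GG'] at h1; exact h1
      · rw [h.wl _ h2, S.GG'] at h3; exact h3
  rw [S.Pr hel]
  apply Pr_congr
  intro ω hω
  have hmap : (ω.map S.G ∪ WL P' X' Y') ∩ bx a' R = ((ω ∪ WL P X Y) ∩ bx a R).map S.G := by
    ext e
    rw [S.mem_map, mem_inter, mem_union, S.mem_map, mem_inter, mem_union, bx_map (a := a)]
    constructor
    · rintro ⟨h1 | h1, h2⟩
      · exact ⟨Or.inl h1, h2⟩
      · refine ⟨Or.inr ?_, h2⟩
        rw [h.wl _ h2, S.GG']; exact h1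
    · rintro ⟨h1 | h1, h2⟩
      · exact ⟨Or.inl h1, h2⟩
      · refine ⟨Or.inr ?_, h2⟩
        rw [h.wl _ h2, S.GG'] at h1; exact h1
  have hT : ∀ u, (TV P' X' Y' (u + (a' - a)) ∨ Far R a' (u + (a' - a))) ↔
      (TV P X Y u ∨ Far R a u) := by
    intro u
    rw [far_map]
    by_cases h1 : Far R a u
    · simp [h1]
    · rw [h.tv u h1]
  unfold Loc
  rw [hmap]
  constructor
  · rintro ⟨u, hu, hc⟩
    refine ⟨u + (a' - a), (hT u).2 hu, ?_⟩
    exact (S.co_iff _ v u).2 hc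
  · rintro ⟨u, hu, hc⟩
    have e : u = S.g (S.g' u) := (S.gg' u).symm
    rw [e] at hu hc
    exact ⟨S.g' u, (hT _).1 hu, (S.co_iff _ v _).1 hc⟩

/-! ### The two marks -/

lemma ray_map {a a' : ℤ × ℤ} {κ κ' : ℤ} (h : (κ - κ') % 4 = 0) (u : ℤ × ℤ) :
    ray a κ u ↔ ray a' κ' (u + (a' - a)) := by
  unfold ray
  simp only [Prod.fst_sub, Prod.snd_sub, Prod.fst_add, Prod.snd_add]
  have : κ % 4 = κ' % 4 := by omega
  rw [this]
  constructor
  · rintro ⟨h1, h2, h3, h4⟩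
    omega
  · rintro ⟨h1, h2, h3, h4⟩
    omega

lemma ends_map {a a' : ℤ × ℤ} (l : ℤ × ℤ) :
    eu ((syT (a' - a)).G l) = eu l + (a' - a) ∧ ev ((syT (a' - a)).G l) = ev l + (a' - a) := by
  unfold eu ev syT
  simp only [Function.Embedding.coeFn_mk, Prod.fst_sub, Prod.snd_sub]
  constructor <;> refine Prod.ext ?_ ?_ <;>
    simp only [Prod.fst_sub, Prod.snd_sub, Prod.fst_add, Prod.snd_add] <;> omega

/-- Same picture from the four cells and the wired rays. -/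
theorem same_of {P P' : PType} {X Y X' Y' : ℤ → ℤ} {α α' : ℤ × ℤ} {R : ℤ} {κ κ' : ℤ}
    (hG : Gap P.Q X Y (R + 1)) (hG' : Gap P'.Q X' Y' (R + 1))
    (hκ : (κ - κ') % 4 = 0) (hq : ∀ i, qc α i ∈ P.Q ↔ qc α' i ∈ P'.Q)
    (h1 : (∀ u, ¬ Far (R + 1) (lpt X Y α) u → (TV P X Y u ↔ ray (lpt X Y α) κ u)) ∧
      (∀ l ∈ bx (lpt X Y α) R, (l ∈ WL P X Y ↔ ray (lpt X Y α) κ (eu l) ∧
        ray (lpt X Y α) κ (ev l))))
    (h2 : (∀ u, ¬ Far (R + 1) (lpt X' Y' α') u → (TV P' X' Y' u ↔ ray (lpt X' Y' α') κ' u)) ∧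
      (∀ l ∈ bx (lpt X' Y' α') R, (l ∈ WL P' X' Y' ↔ ray (lpt X' Y' α') κ' (eu l) ∧
        ray (lpt X' Y' α') κ' (ev l)))) :
    Same P P' X Y X' Y' (lpt X Y α) (lpt X' Y' α') R := by
  have hbx : ∀ l ∈ bx (lpt X Y α) R,
      (syT (lpt X' Y' α' - lpt X Y α)).G l ∈ bx (lpt X' Y' α') R := by
    intro l hl
    rw [bx_map (a := lpt X Y α)]
    have : (syT (lpt X' Y' α' - lpt X Y α)).G' ((syT (lpt X' Y' α' - lpt X Y α)).G l) = l :=
      (syT _).G.injective ((syT _).GG' _)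
    rw [this]; exact hl
  refine ⟨?_, ?_, ?_⟩
  · intro l hl
    rw [gs_local hG hl, gs_local hG' (hbx l hl)]
    have e : (((syT (lpt X' Y' α' - lpt X Y α)).G l).1 - 2 * X' α'.1,
        ((syT (lpt X' Y' α' - lpt X Y α)).G l).2 - 2 * Y' α'.2) =
        (l.1 - 2 * X α.1, l.2 - 2 * Y α.2) := by
      unfold syT lpt
      simp only [Function.Embedding.coeFn_mk, Prod.fst_sub, Prod.snd_sub]
      refine Prod.ext ?_ ?_ <;> simp only <;> omega
    rw [e]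
    constructor
    · rintro ⟨i, h3, h4⟩; exact ⟨i, (hq i).1 h3, h4⟩
    · rintro ⟨i, h3, h4⟩; exact ⟨i, (hq i).2 h3, h4⟩
  · intro l hl
    rw [h1.2 l hl, h2.2 _ (hbx l hl), (ends_map l).1, (ends_map l).2]
    rw [← ray_map hκ, ← ray_map hκ]
  · intro u hu
    have h3 : ¬ Far (R + 1) (lpt X Y α) u := by
      rw [far_iff] at hu ⊢; omega
    have h4 : ¬ Far (R + 1) (lpt X' Y' α') (u + (lpt X' Y' α' - lpt X Y α)) := by
      rw [far_map]; exact h3
    rw [h1.1 u h3, h2.1 _ h4, ← ray_map hκ]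

/-- **The mark `a`.** -/
theorem same_a {P P' : PType} {X Y X' Y' : ℤ → ℤ} {R : ℤ}
    (hG : Gap P.Q X Y (R + 1)) (hG' : Gap P'.Q X' Y' (R + 1))
    (h0 : ((P.side 0).2 - (P'.side 0).2) % 4 = 0)
    (h1 : ((P.side (P.N - 1)).2 - (P'.side (P'.N - 1)).2) % 4 = 0) :
    Same P P' X Y X' Y' (lv P X Y 0) (lv P' X' Y' 0) R := by
  have e : ∀ P : PType, P.vert 0 = head (P.side (P.N - 1)) := by
    intro P
    have := P.hmN
    unfold PType.vert
    rw [head_side, show P.N - 1 + 1 = P.N by omega, tail_side_N]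
  unfold lv
  rw [e P, e P']
  have hnext : ∀ P : PType, (nextSide P.Q (P.side (P.N - 1))).2 = (P.side 0).2 + 4 := by
    intro P
    have := P.hmN
    rw [← side_succ, show P.N - 1 + 1 = P.N by omega, side_N, side_zero]
  refine same_of hG hG' (κ := (P.side (P.N - 1)).2 + 2) (κ' := (P'.side (P'.N - 1)).2 + 2)
    (by omega) ?_ (wired_a hG) (wired_a hG')
  exact quad_same P.good P'.good (isSide P _) (isSide P' _) h1
    (by rw [hnext, hnext]; omega)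

/-- **The mark `b`.** -/
theorem same_b {P P' : PType} {X Y X' Y' : ℤ → ℤ} {R : ℤ}
    (hG : Gap P.Q X Y (R + 1)) (hG' : Gap P'.Q X' Y' (R + 1))
    (h0 : ((P.side (P.m - 1)).2 - (P'.side (P'.m - 1)).2) % 4 = 0)
    (h1 : ((P.side P.m).2 - (P'.side P'.m).2) % 4 = 0) :
    Same P P' X Y X' Y' (lv P X Y P.m) (lv P' X' Y' P'.m) R := by
  unfold lv
  have e : ∀ P : PType, P.side P.m = nextSide P.Q (P.side (P.m - 1)) := by
    intro P
    have := P.hm0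
    rw [← side_succ, show P.m - 1 + 1 = P.m by omega]
  have e2 : ∀ P : PType, tail (P.side P.m) = head (P.side (P.m - 1)) := by
    intro P
    have := P.hm0
    rw [head_side, show P.m - 1 + 1 = P.m by omega]
  refine same_of hG hG' (κ := (P.side P.m).2) (κ' := (P'.side P'.m).2) h1 ?_
    (wired_b hG) (wired_b hG')
  intro i
  unfold PType.vert
  rw [e2 P, e2 P']
  refine quad_same P.good P'.good (isSide P _) (isSide P' _) h0 ?_ i
  rw [← e P, ← e P']; exact h1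

end Pool.Agent.H29.Q1
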