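import Mathlib
import Pool.Agent.H29.Q1.Root

set_option autoImplicit false
set_option linter.unusedSimpArgs false
open Finset

/-! Q1, module M5: everything attached to a type depends only on the lattice lines at its cells
(`AgQ`), and lines with gaps at least `g` near the cells extend to lines with all gaps at least `g`
(`exists_ext`). -/

namespace Pool.Agent.H29.Q1

open Pool.Agent.H75.Perc Pool.Agent.H75.TwoArm Pool.Agent.H75.Four Pool.Agent.H49.Q1 Pool.Agent.H5.Q1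
open Pool.Agent.H77.Q1
open Pool.Agent.Q1.M4 (Conn4 Adj4 Good Cell IsSide nextSide tail head PType isSide_next
  head_eq_tail_next inV inRect lpt tail_inj Eqv)
open Pool.Agent.Q1.M5
open Pool.Agent.H44.Q1 (Gap)

/-- The lines `X', Y'` agree with `X, Y` at the cells of `Q`. -/
def AgQ (Q : Finset Cell) (X X' Y Y' : ℤ → ℤ) : Prop := ∀ c ∈ Q, X' c.1 = X c.1 ∧
  X' (c.1 + 1) = X (c.1 + 1) ∧ Y' c.2 = Y c.2 ∧ Y' (c.2 + 1) = Y (c.2 + 1)

section agq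

variable {Q : Finset Cell} {X X' Y Y' : ℤ → ℤ}

lemma AgQ.gcell (h : AgQ Q X X' Y Y') {c : Cell} (hc : c ∈ Q) : gcell X' Y' c = gcell X Y c := by
  obtain ⟨h1, h2, h3, h4⟩ := h c hc
  unfold Pool.Agent.H49.Q1.gcell
  rw [h1, h2, h3, h4]

lemma AgQ.gs (h : AgQ Q X X' Y Y') : gs X' Y' Q = gs X Y Q := by
  ext e
  rw [mem_gs, mem_gs]
  constructor
  · rintro ⟨c, hc, he⟩; exact ⟨c, hc, by rwa [h.gcell hc] at he⟩
  · rintro ⟨c, hc, he⟩; exact ⟨c, hc, by rwa [h.gcell hc]⟩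

lemma AgQ.inV (h : AgQ Q X X' Y Y') (v : ℤ × ℤ) :
    Pool.Agent.Q1.M4.inV Q X' Y' v ↔ Pool.Agent.Q1.M4.inV Q X Y v := by
  constructor
  · rintro ⟨c, hc, he⟩
    obtain ⟨h1, h2, h3, h4⟩ := h c hc
    refine ⟨c, hc, ?_⟩
    unfold inRect at he ⊢
    rwa [h1, h2, h3, h4] at he
  · rintro ⟨c, hc, he⟩
    obtain ⟨h1, h2, h3, h4⟩ := h c hc
    refine ⟨c, hc, ?_⟩
    unfold inRect at he ⊢
    rwa [h1, h2, h3, h4]

lemma AgQ.sV (h : AgQ Q X X' Y Y') {s : Cell × ℤ} (hs : s.1 ∈ Q) (v : ℤ × ℤ) :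
    Pool.Agent.Q1.M5.sV X' Y' s v ↔ Pool.Agent.Q1.M5.sV X Y s v := by
  obtain ⟨h1, h2, h3, h4⟩ := h s.1 hs
  unfold Pool.Agent.Q1.M5.sV onCell
  rw [h1, h2, h3, h4]

lemma AgQ.sL (h : AgQ Q X X' Y Y') {s : Cell × ℤ} (hs : s.1 ∈ Q) :
    Pool.Agent.Q1.M5.sL X' Y' s = Pool.Agent.Q1.M5.sL X Y s := by
  obtain ⟨h1, h2, h3, h4⟩ := h s.1 hs
  unfold Pool.Agent.Q1.M5.sL
  rw [h1, h2, h3, h4, h.gcell hs]

lemma AgQ.lpt (h : AgQ Q X X' Y Y') {c : Cell} (hc : c ∈ Q) {p : ℤ × ℤ}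
    (h1 : p.1 = c.1 ∨ p.1 = c.1 + 1) (h2 : p.2 = c.2 ∨ p.2 = c.2 + 1) :
    Pool.Agent.Q1.M4.lpt X' Y' p = Pool.Agent.Q1.M4.lpt X Y p := by
  obtain ⟨g1, g2, g3, g4⟩ := h c hc
  unfold Pool.Agent.Q1.M4.lpt
  rcases h1 with h1 | h1 <;> rcases h2 with h2 | h2 <;> rw [h1, h2] <;> simp [g1, g2, g3, g4]

end agq

section agp

variable {P : PType} {X X' Y Y' : ℤ → ℤ}

lemma AgQ.WL (h : AgQ P.Q X X' Y Y') :
    Pool.Agent.Q1.M5.WL P X' Y' = Pool.Agent.Q1.M5.WL P X Y := by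
  unfold Pool.Agent.Q1.M5.WL
  exact biUnion_congr rfl fun n _ => h.sL (isSide P n).1

lemma AgQ.EL (h : AgQ P.Q X X' Y Y') :
    Pool.Agent.Q1.M5.EL P X' Y' = Pool.Agent.Q1.M5.EL P X Y := by
  unfold Pool.Agent.Q1.M5.EL
  rw [h.gs, h.WL]

lemma AgQ.TV (h : AgQ P.Q X X' Y Y') (v : ℤ × ℤ) :
    Pool.Agent.Q1.M5.TV P X' Y' v ↔ Pool.Agent.Q1.M5.TV P X Y v := by
  constructor
  · rintro ⟨n, h1, h2, h3⟩; exact ⟨n, h1, h2, (h.sV (isSide P n).1 v).1 h3⟩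
  · rintro ⟨n, h1, h2, h3⟩; exact ⟨n, h1, h2, (h.sV (isSide P n).1 v).2 h3⟩

lemma AgQ.CT (h : AgQ P.Q X X' Y Y') (v : ℤ × ℤ) (ω : Finset (ℤ × ℤ)) :
    Pool.Agent.Q1.M5.CT P X' Y' v ω ↔ Pool.Agent.Q1.M5.CT P X Y v ω := by
  unfold Pool.Agent.Q1.M5.CT CJ
  rw [h.WL]
  constructor
  · rintro ⟨w, h1, h2⟩; exact ⟨w, (h.TV w).1 h1, h2⟩
  · rintro ⟨w, h1, h2⟩; exact ⟨w, (h.TV w).2 h1, h2⟩

lemma AgQ.hh (h : AgQ P.Q X X' Y Y') (v : ℤ × ℤ) :
    Pool.Agent.Q1.M5.hh P X' Y' v = Pool.Agent.Q1.M5.hh P X Y v := by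
  unfold Pool.Agent.Q1.M5.hh
  rw [h.EL]
  exact Pr_congr fun ω _ => h.CT v ω

lemma AgQ.XW (h : AgQ P.Q X X' Y Y') (M : ℤ) :
    Pool.Agent.Q1.M5.XW P X' Y' M = Pool.Agent.Q1.M5.XW P X Y M := by
  ext l
  rw [mem_XW, mem_XW, h.WL, h.inV, h.inV, h.TV, h.TV]

lemma AgQ.lv (h : AgQ P.Q X X' Y Y') (n : ℕ) :
    Pool.Agent.Q1.M5.lv P X' Y' n = Pool.Agent.Q1.M5.lv P X Y n := by
  unfold Pool.Agent.Q1.M5.lv PType.vert
  have := tail_cell (P.side n)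
  exact h.lpt (isSide P n).1 (by omega) (by omega)

end agp

/-! ### Extension of the lines -/

/-- Projections of a connected set of cells are intervals. -/
lemma proj_int {Q : Finset Cell} (hQ : Conn4 (Q : Set Cell)) (f : Cell → ℤ)
    (hf : ∀ c k, |f (c + dir k) - f c| ≤ 1) {c e : Cell} (hc : c ∈ Q) (he : e ∈ Q) {d : ℤ}
    (h1 : f c ≤ d) (h2 : d ≤ f e) : ∃ b ∈ Q, f b = d := by
  have key : ∀ e, Relation.ReflTransGen (fun a b => Adj4 a b ∧ b ∈ (Q : Set Cell)) c e →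
      ∀ d, f c ≤ d → d ≤ f e → ∃ b ∈ Q, f b = d := by
    intro e h
    induction h with
    | refl => intro d h1 h2; exact ⟨c, hc, by omega⟩
    | @tail a b _ hab ih =>
      intro d h1 h2
      obtain ⟨⟨k, hk⟩, hb⟩ := hab
      have h3 := hf a k
      rw [← hk, abs_le] at h3
      by_cases h4 : d ≤ f a
      · exact ih d h1 h4
      · exact ⟨b, hb, by omega⟩
  exact key e (hQ c hc e he) d h1 h2

/-- One family of lines. -/
lemma line_ext {X : ℤ → ℤ} {lo hi g : ℤ} (h : ∀ d, lo ≤ d → d < hi → X d + g ≤ X (d + 1)) :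
    ∃ X' : ℤ → ℤ, (∀ d, X' d + g ≤ X' (d + 1)) ∧ ∀ d, lo ≤ d → d ≤ hi → X' d = X d := by
  by_cases hlh : lo ≤ hi
  · refine ⟨fun i => if i < lo then X lo - g * (lo - i) else if i ≤ hi then X i
      else X hi + g * (i - hi), ?_, ?_⟩
    · intro d
      simp only
      by_cases h1 : d < lo
      · rw [if_pos h1]
        by_cases h2 : d + 1 < lo
        · rw [if_pos h2]; linarith
        · have h3 : lo = d + 1 := by omega
          rw [if_neg h2, if_pos (by omega), h3]; linarith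
      · rw [if_neg h1, if_neg (show ¬ d + 1 < lo by omega)]
        by_cases h2 : d < hi
        · rw [if_pos h2.le, if_pos (by omega)]
          exact h d (by omega) h2
        · by_cases h3 : d ≤ hi
          · have h4 : hi = d := by omega
            rw [if_pos h3, if_neg (by omega), h4]; linarith
          · rw [if_neg h3, if_neg (by omega)]; linarith
    · intro d h1 h2
      simp only
      rw [if_neg (by omega), if_pos h2]
  · exact ⟨fun i => g * i, fun d => by simp only; linarith, fun d h1 h2 => by omega⟩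

/-- **Lines with gaps at least `g` near the cells extend to lines with all gaps at least `g`.** -/
theorem exists_ext {Q : Finset Cell} (hQ : Good Q) {X Y : ℤ → ℤ} {g : ℤ} (hG : Gap Q X Y g) :
    ∃ X' Y' : ℤ → ℤ, (∀ d, X' d + g ≤ X' (d + 1)) ∧ (∀ d, Y' d + g ≤ Y' (d + 1)) ∧
      AgQ Q X X' Y Y' := by
  obtain ⟨a, ha, ha'⟩ := Finset.exists_min_image Q (fun c : Cell => c.1) hQ.ne
  obtain ⟨b, hb, hb'⟩ := Finset.exists_max_image Q (fun c : Cell => c.1) hQ.ne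
  obtain ⟨p, hp, hp'⟩ := Finset.exists_min_image Q (fun c : Cell => c.2) hQ.ne
  obtain ⟨q, hq, hq'⟩ := Finset.exists_max_image Q (fun c : Cell => c.2) hQ.ne
  have f1 : ∀ (c : Cell) (k : ℤ), |(c + dir k).1 - c.1| ≤ 1 := by
    intro c k
    rcases dir_cases k with ⟨-, e⟩ | ⟨-, e⟩ | ⟨-, e⟩ | ⟨-, e⟩ <;> rw [e] <;> simp
  have f2 : ∀ (c : Cell) (k : ℤ), |(c + dir k).2 - c.2| ≤ 1 := by
    intro c k
    rcases dir_cases k with ⟨-, e⟩ | ⟨-, e⟩ | ⟨-, e⟩ | ⟨-, e⟩ <;> rw [e] <;> simp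
  obtain ⟨X', hX1, hX2⟩ := line_ext (X := X) (lo := a.1) (hi := b.1 + 1) (g := g) (by
    intro d h1 h2
    obtain ⟨c, hc, rfl⟩ := proj_int hQ.conn (fun c => c.1) f1 ha hb h1 (by omega)
    exact (hG.2.2 c hc c (by simp) (by simp)).1)
  obtain ⟨Y', hY1, hY2⟩ := line_ext (X := Y) (lo := p.2) (hi := q.2 + 1) (g := g) (by
    intro d h1 h2
    obtain ⟨c, hc, rfl⟩ := proj_int hQ.conn (fun c => c.2) f2 hp hq h1 (by omega)
    exact (hG.2.2 c hc c (by simp) (by simp)).2)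
  refine ⟨X', Y', hX1, hY1, ?_⟩
  intro c hc
  have e1 := ha' c hc
  have e2 := hb' c hc
  have e3 := hp' c hc
  have e4 := hq' c hc

  exact ⟨hX2 _ (by omega) (by omega), hX2 _ (by omega) (by omega), hY2 _ (by omega) (by omega),
    hY2 _ (by omega) (by omega)⟩

end Pool.Agent.H29.Q1
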