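import Mathlib
import Pool.Agent.H29.Q1.LineExt
import Pool.Agent.H90.Q1.Ext

set_option autoImplicit false
set_option linter.unusedSimpArgs false
open Finset

/-! Q1, module M5: the exterior wire (helper4, helper90) for lines whose gaps are at least two only
near the cells of the type. -/

namespace Pool.Agent.H29.Q1

open Pool.Agent.H75.Perc Pool.Agent.H75.TwoArm Pool.Agent.H75.Four Pool.Agent.H49.Q1 Pool.Agent.H5.Q1
open Pool.Agent.H77.Q1
open Pool.Agent.Q1.M4 (Conn4 Adj4 Good Cell IsSide nextSide tail head PType isSide_next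
  head_eq_tail_next inV inRect lpt tail_inj Eqv)
open Pool.Agent.Q1.M5
open Pool.Agent.H44.Q1 (Gap)

lemma wireAt_aux {P : PType} {X Y : ℤ → ℤ} (hX : Pool.Agent.H4.Q1.Gap X)
    (hY : Pool.Agent.H4.Q1.Gap Y) {M : ℤ} (hM : InBox P X Y M) {x t : ℤ × ℤ}
    (hx : inV P.Q X Y x) (ht : ¬ inV P.Q X Y t) (hb : inB (-M) M (-M) M t) :
    WireAt P X Y M x t := by
  have hB : Pool.Agent.H4.Q1.Boxed P X Y M := hM
  have hM0 : 0 ≤ M := by have := hM x hx; omega
  refine ⟨fun w hw => Pool.Agent.H90.Q1.XW_conn hX hY hM0 hB hw ht hb, ?_, ?_⟩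
  · intro w hw
    have hl := Pool.Agent.H4.Q1.ln_ge (P := P) hX hY 0
    have ho : ¬ inV P.Q X Y (Pool.Agent.H4.Q1.ot P X Y 0 1) :=
      Pool.Agent.H4.Q1.ot_out hX hY 0 (by omega) (by omega)
    have hob : inB (-M) M (-M) M (Pool.Agent.H4.Q1.ot P X Y 0 1) := by
      have h1 := (hB.mem (Pool.Agent.H4.Q1.bp_V (P := P) hX hY 0 (l := 1) (by omega) (by omega))
        ((P.side 0).2 - 1)).2
      unfold inB at h1 ⊢
      unfold Pool.Agent.H4.Q1.ot outer
      omega
    exact (Pool.Agent.H4.Q1.T_out hX hY hB hw).trans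
      (Pool.Agent.H90.Q1.ext_conn hX hY hM0 hB ho ht hob hb)
  · intro ω hω h
    rcases Pool.Agent.H4.Q1.exit (hω.trans (EL_sub_gs P X Y)) hx h with ⟨h2, -⟩ | h2
    · exact absurd h2 ht
    · exact h2

/-- **The exterior wire.** -/
theorem wireAt {P : PType} {X Y : ℤ → ℤ} (hG : Gap P.Q X Y 2) {M : ℤ} (hM : InBox P X Y M)
    {x t : ℤ × ℤ} (hx : inV P.Q X Y x) (ht : ¬ inV P.Q X Y t) (hb : inB (-M) M (-M) M t) :
    WireAt P X Y M x t := by
  obtain ⟨X', Y', hX', hY', hA⟩ := exists_ext P.good hG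
  have hM' : InBox P X' Y' M := fun v hv => hM v ((hA.inV v).1 hv)
  have h := wireAt_aux hX' hY' hM' ((hA.inV x).2 hx) (fun h => ht ((hA.inV t).1 h)) hb
  refine ⟨?_, ?_, ?_⟩
  · intro w hw
    have h1 := h.conn w (by rw [hA.XW]; exact hw)
    rwa [hA.XW] at h1
  · intro w hw
    have h1 := h.arc w ((hA.TV w).2 hw)
    rwa [hA.XW] at h1
  · intro ω hω h1
    refine (hA.CT x ω).1 (h.ct ω ?_ ?_)
    · rw [hA.EL]; exact hω
    · rw [hA.XW]; exact h1

/-- The wire at a root position. -/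
theorem wireAt_root {P : PType} {X Y : ℤ → ℤ} (hG : Gap P.Q X Y 2) {M : ℤ} (hM : InBox P X Y M)
    {p : ℕ} (hp : H75.Perc.lab (pcor P X Y p) ∉ gs X Y P.Q) :
    WireAt P X Y M (vx (pcor P X Y p)) (vx (nxO (pcor P X Y p))) := by
  have hx := inV_pcor hG.1 hG.2.1 P p
  set z := pcor P X Y p with hz
  have hch := noChord_of_gap hG
  have ht : ¬ inV P.Q X Y (vx (nxO z)) := by
    intro h
    apply hp
    apply hch _ (lab_odd z)
    · rcases corner_cases z with ⟨-, h1, h2, -⟩ | ⟨-, h1, h2, -⟩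
      · rw [← h1]; exact hx
      · rw [← h2]; exact h
    · rcases corner_cases z with ⟨-, h1, h2, -⟩ | ⟨-, h1, h2, -⟩
      · rw [← h2]; exact h
      · rw [← h1]; exact hx
  refine wireAt hG hM hx ht ?_
  have h1 := hM _ hx
  have h2 := lab_ends z
  have h3 : IsUnit4 (vx (nxO z) - vx z) := by
    have h4 := unit_ends (lab_odd z)
    rcases corner_cases z with ⟨-, h1, h2, -⟩ | ⟨-, h1, h2, -⟩
    · rw [h1, h2]; exact h4
    · rw [h1, h2, ← neg_sub]; exact isUnit4_neg h4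
  have h5 := unit_cases h3
  unfold inB
  omega

end Pool.Agent.H29.Q1
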