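import Mathlib
import Pool.Agent.H29.Q1.MarkSame
import Pool.Agent.H29.Q1.WireG

set_option autoImplicit false
set_option linter.unusedSimpArgs false
open Finset Filter Topology

/-! Q1, module M5: **(B1), locality at the marks.** -/

namespace Pool.Agent.H29.Q1

open Pool.Agent.H75.Perc Pool.Agent.H75.TwoArm Pool.Agent.H75.Four Pool.Agent.H49.Q1 Pool.Agent.H5.Q1
open Pool.Agent.H77.Q1
open Pool.Agent.Q1.M4 (Conn4 Adj4 Good Cell IsSide nextSide tail head PType isSide_next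
  head_eq_tail_next inV inRect lpt tail_inj Eqv)
open Pool.Agent.Q1.M5
open Pool.Agent.H44.Q1 (Gap)

/-- **(B1) at the mark `a`.** -/
def StB1a : Prop := ∀ (P P' : PType) (x y x' y' : ℤ → ℝ), StrictMono x → StrictMono y →
  StrictMono x' → StrictMono y' → ((P.side 0).2 - (P'.side 0).2) % 4 = 0 →
  ((P.side (P.N - 1)).2 - (P'.side (P'.N - 1)).2) % 4 = 0 →
  ∀ ε : ℝ, 0 < ε → ∃ ρ : ℝ, 0 < ρ ∧ ∀ (R : ℕ → ℝ) (X Y X' Y' : ℕ → ℤ → ℤ), App x y R X Y →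
    App x' y' R X' Y' → ∀ᶠ j in atTop, ∀ t : ℤ, 1 ≤ t → (t : ℝ) ≤ ρ * R j →
      |Pool.Agent.Q1.M5.hh P (X j) (Y j) (lv P (X j) (Y j) 0 + t • dir (P.side 0).2) /
        Pool.Agent.Q1.M5.hh P' (X' j) (Y' j) (lv P' (X' j) (Y' j) 0 + t • dir (P'.side 0).2) - 1| ≤ ε

/-- **(B1) at the mark `b`.** -/
def StB1b : Prop := ∀ (P P' : PType) (x y x' y' : ℤ → ℝ), StrictMono x → StrictMono y →
  StrictMono x' → StrictMono y' → ((P.side (P.m - 1)).2 - (P'.side (P'.m - 1)).2) % 4 = 0 →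
  ((P.side P.m).2 - (P'.side P'.m).2) % 4 = 0 →
  ∀ ε : ℝ, 0 < ε → ∃ ρ : ℝ, 0 < ρ ∧ ∀ (R : ℕ → ℝ) (X Y X' Y' : ℕ → ℤ → ℤ), App x y R X Y →
    App x' y' R X' Y' → ∀ᶠ j in atTop, ∀ t : ℤ, 1 ≤ t → (t : ℝ) ≤ ρ * R j →
      |Pool.Agent.Q1.M5.hh P (X j) (Y j) (lv P (X j) (Y j) P.m - t • dir (P.side (P.m - 1)).2) /
        Pool.Agent.Q1.M5.hh P' (X' j) (Y' j)
          (lv P' (X' j) (Y' j) P'.m - t • dir (P'.side (P'.m - 1)).2) - 1| ≤ ε

/-! ### Gaps of approximating sequences -/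

lemma exists_pos_le (I : Finset ℤ) (f : ℤ → ℝ) (hf : ∀ i, 0 < f i) :
    ∃ c : ℝ, 0 < c ∧ ∀ i ∈ I, c ≤ f i := by
  classical
  induction I using Finset.induction_on with
  | empty => exact ⟨1, one_pos, by simp⟩
  | insert a s ha ih =>
    obtain ⟨c, hc, h⟩ := ih
    refine ⟨min c (f a), lt_min hc (hf a), ?_⟩
    intro i hi
    rcases mem_insert.1 hi with rfl | hi
    · exact min_le_right _ _
    · exact (min_le_left _ _).trans (h i hi)

lemma line_gap_ev {x : ℤ → ℝ} (hx : StrictMono x) (I : Finset ℤ) :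
    ∃ c : ℝ, 0 < c ∧ ∀ (R : ℕ → ℝ) (X : ℕ → ℤ → ℤ), Tendsto R atTop atTop →
      (∀ i, Tendsto (fun j => (X j i : ℝ) / R j) atTop (𝓝 (x i))) →
      ∀ᶠ j in atTop, ∀ g : ℤ, (g : ℝ) ≤ c * R j → ∀ i ∈ I, X j i + g ≤ X j (i + 1) := by
  obtain ⟨c, hc, h⟩ := exists_pos_le I (fun i => x (i + 1) - x i)
    (fun i => sub_pos.2 (hx (by omega)))
  refine ⟨c / 2, by positivity, ?_⟩
  intro R X hR hX
  have h1 : ∀ i ∈ I, ∀ᶠ j in atTop, c / 2 < (X j (i + 1) : ℝ) / R j - (X j i : ℝ) / R j := by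
    intro i hi
    have h2 := (hX (i + 1)).sub (hX i)
    have h3 := h i hi
    exact h2.eventually_const_lt (by linarith)
  have h2 := (Finset.eventually_all I).2 h1
  filter_upwards [h2, hR.eventually_gt_atTop 0] with j hj hRj g hg i hi
  have h3 := hj i hi
  rw [← sub_div, lt_div_iff₀ hRj] at h3
  have h4 : ((X j i + g : ℤ) : ℝ) ≤ ((X j (i + 1) : ℤ) : ℝ) := by
    push_cast
    linarith
  exact_mod_cast h4

/-- **Gaps of approximating sequences.** -/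
theorem gap_ev (Q : Finset Cell) {x y : ℤ → ℝ} (hx : StrictMono x) (hy : StrictMono y) :
    ∃ c : ℝ, 0 < c ∧ ∀ (R : ℕ → ℝ) (X Y : ℕ → ℤ → ℤ), App x y R X Y →
      ∀ᶠ j in atTop, ∀ g : ℤ, (g : ℝ) ≤ c * R j → Gap Q (X j) (Y j) g := by
  classical
  set I : Finset ℤ := Q.biUnion (fun c => Finset.Icc (c.1 - 2) (c.1 + 2)) with hI
  set J : Finset ℤ := Q.biUnion (fun c => Finset.Icc (c.2 - 2) (c.2 + 2)) with hJ
  obtain ⟨c, hc, h1⟩ := line_gap_ev hx I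
  obtain ⟨c', hc', h2⟩ := line_gap_ev hy J
  refine ⟨min c c', lt_min hc hc', ?_⟩
  intro R X Y hA
  filter_upwards [hA.mono, h1 R X hA.app.R_top hA.app.X_lim, h2 R Y hA.app.R_top hA.app.Y_lim,
    hA.app.R_top.eventually_gt_atTop 0] with j hm h3 h4 hR g hg
  refine ⟨hm.1, hm.2, fun q hq d hd1 hd2 => ⟨?_, ?_⟩⟩
  · refine h3 g (hg.trans (mul_le_mul_of_nonneg_right (min_le_left _ _) hR.le)) _ ?_
    rw [hI, mem_biUnion]
    rw [abs_le] at hd1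
    exact ⟨q, hq, mem_Icc.2 (by omega)⟩
  · refine h4 g (hg.trans (mul_le_mul_of_nonneg_right (min_le_right _ _) hR.le)) _ ?_
    rw [hJ, mem_biUnion]
    rw [abs_le] at hd2
    exact ⟨q, hq, mem_Icc.2 (by omega)⟩

lemma slen_gap {P : PType} {X Y : ℤ → ℤ} {g : ℤ} (hG : Gap P.Q X Y g) (n : ℕ) :
    g ≤ slen X Y (P.side n) := by
  rcases hs : P.side n with ⟨⟨a, b⟩, k⟩
  have hc : (a, b) ∈ P.Q := by have := (isSide P n).1; rwa [hs] at this
  have g1 := hG.2.2 _ hc (a, b) (by simp) (by simp)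
  simp only at g1
  rcases side_cases hG.1 hG.2.1 a b k with ⟨-, -, h, -⟩ | ⟨-, -, h, -⟩ | ⟨-, -, h, -⟩ |
    ⟨-, -, h, -⟩ <;> rw [h] <;> omega

/-! ### Sandwich at the marks -/

/-- Sandwich at the mark `a`. -/
theorem sand_a : ∃ δ : ℝ, 0 < δ ∧ δ < 1 ∧ ∀ (P : PType) (X Y : ℤ → ℤ) (R : ℤ) (k : ℕ) (t : ℤ),
    1 ≤ t → 4 ^ k * (t + 1) ≤ R → Gap P.Q X Y (R + 1) →
    (1 - (1 - δ) ^ k) * Pr (EL P X Y) (Loc (WL P X Y) (TV P X Y) (lv P X Y 0) R
      (lv P X Y 0 + t • dir (P.side 0).2)) ≤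
      Pool.Agent.Q1.M5.hh P X Y (lv P X Y 0 + t • dir (P.side 0).2) ∧
    0 < Pool.Agent.Q1.M5.hh P X Y (lv P X Y 0 + t • dir (P.side 0).2) := by
  obtain ⟨δ, hδ0, hδ1, hδ⟩ := lower_left
  refine ⟨δ, hδ0, hδ1, ?_⟩
  intro P X Y R k t ht hk hG
  have hX := hG.1
  have hY := hG.2.1
  have hRt : t + 1 ≤ R := by
    have : (1 : ℤ) ≤ 4 ^ k := one_le_pow₀ (by norm_num)
    nlinarith
  have hG2 : Gap P.Q X Y 2 := Gap.mono (by omega) hG
  have hm0 := P.hm0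
  have hsl := slen_gap hG 0
  obtain ⟨T, rfl⟩ : ∃ T : ℕ, t = T := ⟨t.toNat, by omega⟩
  have hT1 : 1 ≤ T := by omega
  have hT2 : T < slen X Y (P.side 0) := by omega
  have hv : lv P X Y 0 + (T : ℤ) • dir (P.side 0).2 = sp X Y (P.side 0) T := by
    unfold sp lv
    refine Prod.ext ?_ ?_ <;> simp <;> rfl
  rw [hv]
  have hp := root_side hX hY P hT1 hT2
  have hvx : vx (pcor P X Y (pos P X Y 0 + 2 * T - 1)) = sp X Y (P.side 0) T := by
    rw [pcor_first hX hY P hT1 hT2.le, vx_oc]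
  obtain ⟨M, hM⟩ := exists_inBox P X Y
  constructor
  · have h := hδ P X Y M (lv P X Y 0) R (T + 1) k (pos P X Y 0 + 2 * T - 1) hX hY hM
      (noChord_of_gap hG2) (pos_le_posB hX hY P hm0 hT1 hT2) hp (wireAt_root hG2 hM hp)
      (outConn_of_gap (by omega) hG _) (by omega) hk ?_
    · rw [hvx] at h; exact h
    · intro i hi1 hi2
      obtain ⟨j, hj, hj2⟩ := vx_le hX hY (P := P) (n := 0) (i := i) (j := T)
        (by rw [pos_zero]; omega) (by omega) hT2.le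
      apply fi_near
      rw [hj2, lv_eq_sp]
      refine sp_near X Y _ ?_
      rw [abs_le]; omega
  · rw [← hvx]
    exact hh_pos hX hY (inV_pcor hX hY P _)

/-- Sandwich at the mark `b`. -/
theorem sand_b : ∃ δ : ℝ, 0 < δ ∧ δ < 1 ∧ ∀ (P : PType) (X Y : ℤ → ℤ) (R : ℤ) (k : ℕ) (t : ℤ),
    1 ≤ t → 4 ^ k * (t + 1) ≤ R → Gap P.Q X Y (R + 1) →
    (1 - (1 - δ) ^ k) * Pr (EL P X Y) (Loc (WL P X Y) (TV P X Y) (lv P X Y P.m) R
      (lv P X Y P.m - t • dir (P.side (P.m - 1)).2)) ≤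
      Pool.Agent.Q1.M5.hh P X Y (lv P X Y P.m - t • dir (P.side (P.m - 1)).2) ∧
    0 < Pool.Agent.Q1.M5.hh P X Y (lv P X Y P.m - t • dir (P.side (P.m - 1)).2) := by
  obtain ⟨δ, hδ0, hδ1, hδ⟩ := lower_right
  refine ⟨δ, hδ0, hδ1, ?_⟩
  intro P X Y R k t ht hk hG
  have hX := hG.1
  have hY := hG.2.1
  have hRt : t + 1 ≤ R := by
    have : (1 : ℤ) ≤ 4 ^ k := one_le_pow₀ (by norm_num)
    nlinarith
  have hG2 : Gap P.Q X Y 2 := Gap.mono (by omega) hG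
  have hm0 := P.hm0
  have hsl := slen_gap hG (P.m - 1)
  obtain ⟨T, rfl⟩ : ∃ T : ℕ, t = T := ⟨t.toNat, by omega⟩
  set L := slen X Y (P.side (P.m - 1)) with hL
  have hT1 : 1 ≤ L - T := by omega
  have hT2 : L - T < L := by omega
  have hend : lv P X Y P.m = sp X Y (P.side (P.m - 1)) L := by
    rw [hL, sp_len hX hY, head_side, show P.m - 1 + 1 = P.m by omega]; rfl
  have hv : lv P X Y P.m - (T : ℤ) • dir (P.side (P.m - 1)).2 =
      sp X Y (P.side (P.m - 1)) (L - T) := by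
    rw [hend]
    unfold sp
    rw [Nat.cast_sub (by omega)]
    refine Prod.ext ?_ ?_ <;> simp <;> ring
  rw [hv]
  have hp := root_side hX hY P hT1 hT2
  have hvx : vx (pcor P X Y (pos P X Y (P.m - 1) + 2 * (L - T) - 1)) =
      sp X Y (P.side (P.m - 1)) (L - T) := by
    rw [pcor_first hX hY P hT1 hT2.le, vx_oc]
  obtain ⟨M, hM⟩ := exists_inBox P X Y
  constructor
  · have h := hδ P X Y M (lv P X Y P.m) R (T + 1) k (pos P X Y (P.m - 1) + 2 * (L - T) - 1) hX hY hM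
      (noChord_of_gap hG2) (pos_le_posB hX hY P (by omega) hT1 hT2) hp (wireAt_root hG2 hM hp)
      (outConn_of_gap (by omega) hG _) (by omega) hk ?_
    · rw [hvx] at h; exact h
    · intro i hi1 hi2
      have hb := posB_lt hX hY P
      have hb1 : posB P X Y = pos P X Y (P.m - 1) + (2 * L - 1) := rfl
      have hb2 : pos P X Y (P.m - 1 + 1) = pos P X Y P.m := by
        rw [show P.m - 1 + 1 = P.m by omega]
      have key : ∃ j, L - T ≤ j ∧ j ≤ L ∧ vx (pcor P X Y i) = sp X Y (P.side (P.m - 1)) j := by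
        by_cases hi3 : i = posB P X Y
        · refine ⟨L, by omega, le_rfl, ?_⟩
          have e : i = pos P X Y (P.m - 1) + 2 * L - 1 := by omega
          rw [e, pcor_first hX hY P (by omega) le_rfl, vx_oc]
        · exact vx_ge hX hY (P := P) (n := P.m - 1) (i := i) (j := L - T)
            (by omega) (by omega) (by omega)
      obtain ⟨j, hj1, hj2, hj3⟩ := key
      apply fi_near
      rw [hj3, hend]
      refine sp_near X Y _ ?_
      rw [abs_le]; omega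
  · rw [← hvx]
    exact hh_pos hX hY (inV_pcor hX hY P _)

/-! ### The statements -/

lemma ratio_close {U h h' q ε : ℝ} (hq0 : 0 ≤ q) (hq : q ≤ ε / (1 + ε)) (hε : 0 < ε)
    (h0 : 0 < h) (h0' : 0 < h') (h1 : (1 - q) * U ≤ h) (h2 : h ≤ U) (h1' : (1 - q) * U ≤ h')
    (h2' : h' ≤ U) : |h / h' - 1| ≤ ε := by
  have hU : 0 < U := lt_of_lt_of_le h0 h2
  have hq1 : q * (1 + ε) ≤ ε := by rwa [le_div_iff₀ (by linarith)] at hq
  rw [abs_le]
  constructor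
  · have h3 : 1 - ε ≤ h / h' := by
      rw [le_div_iff₀ h0']
      have h4 : (1 - ε) * h' ≤ (1 - q) * h' := by
        apply mul_le_mul_of_nonneg_right _ h0'.le
        nlinarith
      have h5 : (1 - q) * h' ≤ (1 - q) * U := by
        apply mul_le_mul_of_nonneg_left h2'
        nlinarith
      linarith
    linarith
  · have h3 : h / h' ≤ 1 + ε := by
      rw [div_le_iff₀ h0']
      have h4 : U ≤ (1 + ε) * ((1 - q) * U) := by
        have : 1 ≤ (1 + ε) * (1 - q) := by nlinarith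
        nlinarith
      have h5 := mul_le_mul_of_nonneg_left h1' (show (0 : ℝ) ≤ 1 + ε by linarith)
      linarith
    linarith

lemma exists_k {δ ε : ℝ} (h0 : 0 < δ) (_ : δ < 1) (hε : 0 < ε) :
    ∃ k : ℕ, (1 - δ) ^ k ≤ ε / (1 + ε) := by
  have h2 : 0 < ε / (1 + ε) := by positivity
  obtain ⟨k, hk⟩ := exists_pow_lt_of_lt_one h2 (show 1 - δ < 1 by linarith)
  exact ⟨k, hk.le⟩

/-- arithmetic of the scales -/
lemma scales {c ρ Rj : ℝ} {k : ℕ} (hc : 0 < c) (hρ : ρ = c / (8 * 4 ^ k)) (hR : 4 / c ≤ Rj)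
    {t : ℤ} (ht : 1 ≤ t) (ht' : (t : ℝ) ≤ ρ * Rj) :
    4 ^ k * (t + 1) ≤ ⌊c * Rj / 2⌋ ∧ (((⌊c * Rj / 2⌋ + 1 : ℤ)) : ℝ) ≤ c * Rj := by
  have h4 : (0 : ℝ) < 4 ^ k := by positivity
  have hcR : 4 ≤ c * Rj := by
    rw [div_le_iff₀ hc] at hR; linarith
  have h1 : ((⌊c * Rj / 2⌋ : ℤ) : ℝ) ≤ c * Rj / 2 := Int.floor_le _
  constructor
  · rw [Int.le_floor]
    push_cast
    have h2 : (1 : ℝ) ≤ t := by exact_mod_cast ht
    have h3 : (4 : ℝ) ^ k * (t + 1) ≤ 4 ^ k * (2 * t) :=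
      mul_le_mul_of_nonneg_left (by linarith) h4.le
    have h5 : (4 : ℝ) ^ k * (2 * t) ≤ 4 ^ k * (2 * (ρ * Rj)) :=
      mul_le_mul_of_nonneg_left (by linarith) h4.le
    have h6 : (4 : ℝ) ^ k * (2 * (ρ * Rj)) = c * Rj / 4 := by
      rw [hρ]; field_simp; ring
    linarith
  · push_cast
    linarith

theorem stB1a : StB1a := by
  obtain ⟨δ, hδ0, hδ1, hδ⟩ := sand_a
  intro P P' x y x' y' hx hy hx' hy' hd0 hd1 ε hε
  obtain ⟨k, hk⟩ := exists_k hδ0 hδ1 hε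
  obtain ⟨c1, hc1, hg1⟩ := gap_ev P.Q hx hy
  obtain ⟨c2, hc2, hg2⟩ := gap_ev P'.Q hx' hy'
  set c := min c1 c2 with hc
  have hc0 : 0 < c := lt_min hc1 hc2
  refine ⟨c / (8 * 4 ^ k), by positivity, ?_⟩
  intro R X Y X' Y' hA hA'
  filter_upwards [hg1 R X Y hA, hg2 R X' Y' hA', hA.app.R_top.eventually_ge_atTop (4 / c),
    hA.app.R_top.eventually_gt_atTop 0] with j h1 h2 hR hR0 t ht ht'
  obtain ⟨s1, s2⟩ := scales hc0 rfl hR ht ht'
  set R1 : ℤ := ⌊c * R j / 2⌋ with hR1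
  have G1 : Gap P.Q (X j) (Y j) (R1 + 1) :=
    h1 _ (s2.trans (mul_le_mul_of_nonneg_right (min_le_left _ _) hR0.le))
  have G2 : Gap P'.Q (X' j) (Y' j) (R1 + 1) :=
    h2 _ (s2.trans (mul_le_mul_of_nonneg_right (min_le_right _ _) hR0.le))
  obtain ⟨l1, p1⟩ := hδ P (X j) (Y j) R1 k t ht s1 G1
  obtain ⟨l2, p2⟩ := hδ P' (X' j) (Y' j) R1 k t ht s1 G2
  have hS := same_a G1 G2 hd0 hd1
  have hd : dir (P.side 0).2 = dir (P'.side 0).2 := Pool.Agent.Q1.M4.dir_congr hd0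
  have hU := loc_same hS (lv P (X j) (Y j) 0 + t • dir (P.side 0).2)
  have e : lv P (X j) (Y j) 0 + t • dir (P.side 0).2 +
      (lv P' (X' j) (Y' j) 0 - lv P (X j) (Y j) 0) =
      lv P' (X' j) (Y' j) 0 + t • dir (P'.side 0).2 := by rw [hd]; abel
  rw [e] at hU
  rw [← hU] at l2
  exact ratio_close (pow_nonneg (by linarith) k) hk hε p1 p2 l1 (hh_le_loc _ _ _ _ _ _) l2
    ((hh_le_loc _ _ _ _ _ _).trans (le_of_eq hU.symm))

theorem stB1b : StB1b := by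
  obtain ⟨δ, hδ0, hδ1, hδ⟩ := sand_b
  intro P P' x y x' y' hx hy hx' hy' hd0 hd1 ε hε
  obtain ⟨k, hk⟩ := exists_k hδ0 hδ1 hε
  obtain ⟨c1, hc1, hg1⟩ := gap_ev P.Q hx hy
  obtain ⟨c2, hc2, hg2⟩ := gap_ev P'.Q hx' hy'
  set c := min c1 c2 with hc
  have hc0 : 0 < c := lt_min hc1 hc2
  refine ⟨c / (8 * 4 ^ k), by positivity, ?_⟩
  intro R X Y X' Y' hA hA'
  filter_upwards [hg1 R X Y hA, hg2 R X' Y' hA', hA.app.R_top.eventually_ge_atTop (4 / c),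
    hA.app.R_top.eventually_gt_atTop 0] with j h1 h2 hR hR0 t ht ht'
  obtain ⟨s1, s2⟩ := scales hc0 rfl hR ht ht'
  set R1 : ℤ := ⌊c * R j / 2⌋ with hR1
  have G1 : Gap P.Q (X j) (Y j) (R1 + 1) :=
    h1 _ (s2.trans (mul_le_mul_of_nonneg_right (min_le_left _ _) hR0.le))
  have G2 : Gap P'.Q (X' j) (Y' j) (R1 + 1) :=
    h2 _ (s2.trans (mul_le_mul_of_nonneg_right (min_le_right _ _) hR0.le))
  obtain ⟨l1, p1⟩ := hδ P (X j) (Y j) R1 k t ht s1 G1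
  obtain ⟨l2, p2⟩ := hδ P' (X' j) (Y' j) R1 k t ht s1 G2
  have hS := same_b G1 G2 hd0 hd1
  have hd : dir (P.side (P.m - 1)).2 = dir (P'.side (P'.m - 1)).2 :=
    Pool.Agent.Q1.M4.dir_congr hd0
  have hU := loc_same hS (lv P (X j) (Y j) P.m - t • dir (P.side (P.m - 1)).2)
  have e : lv P (X j) (Y j) P.m - t • dir (P.side (P.m - 1)).2 +
      (lv P' (X' j) (Y' j) P'.m - lv P (X j) (Y j) P.m) =
      lv P' (X' j) (Y' j) P'.m - t • dir (P'.side (P'.m - 1)).2 := by rw [hd]; abel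
  rw [e] at hU
  rw [← hU] at l2
  exact ratio_close (pow_nonneg (by linarith) k) hk hε p1 p2 l1 (hh_le_loc _ _ _ _ _ _) l2
    ((hh_le_loc _ _ _ _ _ _).trans (le_of_eq hU.symm))

end Pool.Agent.H29.Q1
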