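import Mathlib
import Pool.Agent.H90.Q1.LBStmt
import Pool.Agent.H44.Q1.C2Asm
import Pool.Agent.H44.Q1.C2KB
import Pool.Agent.H49.Q1.KPoint

set_option autoImplicit false
set_option linter.unusedSimpArgs false
open Finset Filter Topology

/-! Q1, module M5, lower bound of C2: `StLB2` from the finite lower bound `StLBfin` (helper90) and
the separation `StSepF`. -/

namespace Pool.Agent.H29.Q1

open Pool.Agent.H75.Perc hiding WL hh
open Pool.Agent.H75.TwoArm Pool.Agent.H75.Four Pool.Agent.Q1.M4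
open Pool.Agent.Q1.M5
open Pool.Agent.H49.Q1 (gs Sd HB AS VI VB FB Flat far Pr_AS_le ph_upper)
open Pool.Agent.H44.Q1 (Tri Gap Marks Hs GG LA Refi StLB2 MeshLe Kb mem_Kb InBox tau_row tau_col
  gap_ev exists_common stKB)
open Pool.Agent.H52.Q1 (Small small_ev flat_EL TV_out lv_far hh_upper)
open Pool.Agent.H77.Q1 (CGap cgap_ev)
open Pool.Agent.H90.Q1 (StLBfin StSepF Mesh)

/-- The number of scales. -/
lemma exists_scales {δ : ℝ} (h0 : 0 < δ) (h1 : δ < 1) {q : ℝ} (hq : 1 ≤ q) :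
    ∃ k : ℕ, (4 : ℝ) ^ k ≤ q ∧ (1 - δ) ^ k ≤ (1 - δ)⁻¹ * q ^ (Real.logb 4 (1 - δ)) := by
  have hq0 : 0 < q := by linarith
  have hd : 0 < 1 - δ := by linarith
  refine ⟨⌊Real.logb 4 q⌋₊, ?_, ?_⟩
  · have h2 : (⌊Real.logb 4 q⌋₊ : ℝ) ≤ Real.logb 4 q :=
      Nat.floor_le (Real.logb_nonneg (by norm_num) hq)
    rw [← Real.rpow_natCast]
    calc (4 : ℝ) ^ ((⌊Real.logb 4 q⌋₊ : ℕ) : ℝ) ≤ 4 ^ Real.logb 4 q :=
          Real.rpow_le_rpow_of_exponent_le (by norm_num) h2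
      _ = q := Real.rpow_logb (by norm_num) (by norm_num) hq0
  · have h2 : Real.logb 4 q - 1 ≤ (⌊Real.logb 4 q⌋₊ : ℝ) := (Nat.sub_one_lt_floor _).le
    rw [← Real.rpow_natCast]
    calc (1 - δ) ^ ((⌊Real.logb 4 q⌋₊ : ℕ) : ℝ) ≤ (1 - δ) ^ (Real.logb 4 q - 1) :=
          Real.rpow_le_rpow_of_exponent_ge hd (by linarith) h2
      _ = (1 - δ)⁻¹ * q ^ (Real.logb 4 (1 - δ)) := by
          rw [Real.rpow_sub hd, Real.rpow_one, div_eq_inv_mul]
          congr 1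
          rw [Real.rpow_def_of_pos hd, Real.rpow_def_of_pos hq0, Real.logb, Real.logb]
          ring_nf

section
variable {P2 : PType} {x2 y2 : ℤ → ℝ} {η ρ : ℝ}

/-- The width of a tile. -/
lemma tile_mesh (hx : StrictMono x2) (h3 : Tri P2.Q) (hη : 0 ≤ η) (hm : MeshLe P2.Q x2 y2 η)
    {c e : Cell} (hc : c ∈ P2.Q) (he : e ∈ P2.Q) (ht : H78.Q1.tau e = H78.Q1.tau c) :
    x2 (e.1 + 1) - x2 c.1 ≤ 3 * η := by
  have e2 := tau_row ht
  have e1 := tau_col ht
  obtain ⟨c1, c2⟩ := c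
  obtain ⟨e1', e2'⟩ := e
  simp only at e2 e1 ⊢
  subst e2
  have mc := (hm _ hc).1
  have me := (hm _ he).1
  simp only at mc me
  rcases lt_or_ge e1' c1 with h | h
  · have := hx.monotone (show e1' + 1 ≤ c1 by omega)
    linarith
  · have h4 : e1' = c1 ∨ e1' = c1 + 1 ∨ e1' = c1 + 1 + 1 := by omega
    rcases h4 with rfl | rfl | rfl
    · linarith
    · linarith
    · have hmid : (c1 + 1, e2') ∈ P2.Q := by
        by_cases h5 : (c1 + 1) % 3 = 0
        · have := h3 (c1 + 1 + 1) e2' (by omega)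
          rw [show c1 + 1 + 1 - 1 = c1 + 1 by ring] at this
          exact this.2 he
        · have := h3 (c1 + 1) e2' h5
          rw [show c1 + 1 - 1 = c1 by ring] at this
          exact this.1 hc
      have mm := (hm _ hmid).1
      simp only at mm
      linarith

/-- Cells outside the box are far from its centre. -/
lemma kb_far (hx : StrictMono x2) (h3 : Tri P2.Q) (hη : 0 ≤ η) (hm : MeshLe P2.Q x2 y2 η)
    {n : ℕ} {c : Cell} (hc : c ∈ P2.Q) (hK : c ∉ Kb P2 x2 y2 ρ n) :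
    (x2 (c.1 + 1) - x2 (P2.vert n).1 ≤ -(ρ - 3 * η) ∨
      x2 (P2.vert n).1 - x2 c.1 ≤ -(ρ - 3 * η)) ∨
    (y2 (c.2 + 1) - y2 (P2.vert n).2 ≤ -(ρ - 3 * η) ∨
      y2 (P2.vert n).2 - y2 c.2 ≤ -(ρ - 3 * η)) := by
  rw [mem_Kb] at hK
  push Not at hK
  obtain ⟨d, hd, ht, hb⟩ := hK hc
  have t1 := tile_mesh hx h3 hη hm hd hc ht.symm
  have t2 := tile_mesh hx h3 hη hm hc hd ht
  have er := tau_row ht
  have mc := (hm _ hc).2
  unfold H44.Q1.InBox at hb
  by_cases h1 : x2 (P2.vert n).1 - ρ ≤ x2 d.1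
  · by_cases h2 : x2 (d.1 + 1) ≤ x2 (P2.vert n).1 + ρ
    · by_cases h4 : y2 (P2.vert n).2 - ρ ≤ y2 d.2
      · by_cases h5 : y2 (d.2 + 1) ≤ y2 (P2.vert n).2 + ρ
        · exact absurd ⟨⟨h1, h2⟩, h4, h5⟩ hb
        · rw [er] at h5
          right; right; linarith
      · rw [er] at h4
        right; left; linarith
    · left; right; linarith
  · left; left; linarith

end

lemma diffX_ev {x y : ℤ → ℝ} {R : ℕ → ℝ} {X Y : ℕ → ℤ → ℤ} (hA : Approx x y R X Y) (a b : ℤ)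
    {c : ℝ} (hc : x a - x b < c) : ∀ᶠ j in atTop, ((X j a - X j b : ℤ) : ℝ) < c * R j := by
  have h1 := (hA.X_lim a).sub (hA.X_lim b)
  filter_upwards [h1.eventually (gt_mem_nhds hc), hA.R_top.eventually_gt_atTop 0] with j h2 h3
  rw [← sub_div, div_lt_iff₀ h3] at h2
  push_cast
  exact h2

lemma diffY_ev {x y : ℤ → ℝ} {R : ℕ → ℝ} {X Y : ℕ → ℤ → ℤ} (hA : Approx x y R X Y) (a b : ℤ)
    {c : ℝ} (hc : y a - y b < c) : ∀ᶠ j in atTop, ((Y j a - Y j b : ℤ) : ℝ) < c * R j := by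
  have h1 := (hA.Y_lim a).sub (hA.Y_lim b)
  filter_upwards [h1.eventually (gt_mem_nhds hc), hA.R_top.eventually_gt_atTop 0] with j h2 h3
  rw [← sub_div, div_lt_iff₀ h3] at h2
  push_cast
  exact h2

section
variable {P2 : PType} {x2 y2 : ℤ → ℝ} {η ρ : ℝ} {R : ℕ → ℝ} {X Y : ℕ → ℤ → ℤ}

/-- The mesh of the lattice lines. -/
lemma mesh_ev' (hA : Approx x2 y2 R X Y) (hx : StrictMono x2) (h3 : Tri P2.Q) (hη : 0 < η)
    (hm : MeshLe P2.Q x2 y2 η) :
    ∀ᶠ j in atTop, ∀ w : ℤ, 4 * η * R j ≤ w → Mesh P2 (X j) (Y j) w := by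
  classical
  have h1 : ∀ᶠ j in atTop, ∀ c ∈ P2.Q, ∀ e ∈ P2.Q, H78.Q1.tau e = H78.Q1.tau c →
      ((X j (e.1 + 1) - X j c.1 : ℤ) : ℝ) < 4 * η * R j := by
    rw [Filter.eventually_all_finset]
    intro c hc
    rw [Filter.eventually_all_finset]
    intro e he
    by_cases ht : H78.Q1.tau e = H78.Q1.tau c
    · have := tile_mesh hx h3 hη.le hm hc he ht
      filter_upwards [diffX_ev hA (e.1 + 1) c.1 (show x2 (e.1 + 1) - x2 c.1 < 4 * η by linarith)]
        with j hj _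
      exact hj
    · exact Eventually.of_forall fun j h => absurd h ht
  have h2 : ∀ᶠ j in atTop, ∀ c ∈ P2.Q, ((Y j (c.2 + 1) - Y j c.2 : ℤ) : ℝ) < 4 * η * R j := by
    rw [Filter.eventually_all_finset]
    intro c hc
    have := (hm c hc).2
    exact diffY_ev hA (c.2 + 1) c.2 (by linarith)
  filter_upwards [h1, h2] with j h1 h2 w hw
  refine ⟨fun c hc e he ht => ?_, fun c hc => ?_⟩
  · have := (h1 c hc e he ht).le.trans hw
    exact_mod_cast this
  · have := (h2 c hc).le.trans hw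
    exact_mod_cast this

/-- Cells outside the box are far in the lattice. -/
lemma kb_far_ev (hA : Approx x2 y2 R X Y) (hx : StrictMono x2) (h3 : Tri P2.Q) (hη : 0 < η)
    (hm : MeshLe P2.Q x2 y2 η) (hηρ : 6 * η < ρ) (n : ℕ) :
    ∀ᶠ j in atTop, ∀ N : ℤ, (N : ℝ) ≤ ρ / 3 * R j → ∀ c ∈ P2.Q, c ∉ Kb P2 x2 y2 ρ n → ∀ v,
      inRect (X j) (Y j) c v → far (lv P2 (X j) (Y j) n) v N := by
  classical
  have h1 : ∀ᶠ j in atTop, ∀ c ∈ P2.Q, c ∉ Kb P2 x2 y2 ρ n →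
      ((((X j (c.1 + 1) - X j (P2.vert n).1 : ℤ) : ℝ) < -(ρ / 3) * R j ∨
        ((X j (P2.vert n).1 - X j c.1 : ℤ) : ℝ) < -(ρ / 3) * R j) ∨
      (((Y j (c.2 + 1) - Y j (P2.vert n).2 : ℤ) : ℝ) < -(ρ / 3) * R j ∨
        ((Y j (P2.vert n).2 - Y j c.2 : ℤ) : ℝ) < -(ρ / 3) * R j)) := by
    rw [Filter.eventually_all_finset]
    intro c hc
    by_cases hK : c ∈ Kb P2 x2 y2 ρ n
    · exact Eventually.of_forall fun j h => absurd hK h
    · rcases kb_far hx h3 hη.le hm hc hK with (h | h) | h | h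
      · filter_upwards [diffX_ev hA _ _ (lt_of_le_of_lt h (show -(ρ - 3 * η) < -(ρ / 3) by
          linarith))] with j hj _
        exact Or.inl (Or.inl hj)
      · filter_upwards [diffX_ev hA _ _ (lt_of_le_of_lt h (show -(ρ - 3 * η) < -(ρ / 3) by
          linarith))] with j hj _
        exact Or.inl (Or.inr hj)
      · filter_upwards [diffY_ev hA _ _ (lt_of_le_of_lt h (show -(ρ - 3 * η) < -(ρ / 3) by
          linarith))] with j hj _
        exact Or.inr (Or.inl hj)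
      · filter_upwards [diffY_ev hA _ _ (lt_of_le_of_lt h (show -(ρ - 3 * η) < -(ρ / 3) by
          linarith))] with j hj _
        exact Or.inr (Or.inr hj)
  filter_upwards [h1] with j h1 N hN c hc hK v hv
  unfold far lv lpt
  unfold inRect at hv
  obtain ⟨⟨v1, v2⟩, v3, v4⟩ := hv
  have hcast : ∀ a : ℤ, ((a : ℤ) : ℝ) < -(ρ / 3) * R j → a < -N := by
    intro a ha
    have : (a : ℝ) < ((-N : ℤ) : ℝ) := by push_cast; linarith
    exact_mod_cast this
  rcases h1 c hc hK with (h | h) | h | h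
  · have := hcast _ h
    left; rw [le_abs]; left; simp only; omega
  · have := hcast _ h
    left; rw [le_abs]; right; simp only; omega
  · have := hcast _ h
    right; rw [le_abs]; left; simp only; omega
  · have := hcast _ h
    right; rw [le_abs]; right; simp only; omega

end

/-- **(LB2)** from the finite lower bound and the separation. -/
theorem stLB2_of (pz : ℝ → ℝ) (hpz : StPz pz) (hfin : StLBfin) (hsep : StSepF) : StLB2 pz := by
  classical
  obtain ⟨δ, hδ0, hδ1, hfin⟩ := hfin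
  obtain ⟨hpos, cz, Cz, hcz, -, hpz⟩ := hpz
  obtain ⟨C2, hC2, hph⟩ := ph_upper
  have hd : 0 < 1 - δ := by linarith
  set L : ℝ := Real.logb 4 (1 - δ) with hL
  have hL0 : L < 0 := Real.logb_neg (by norm_num) hd (by linarith)
  refine ⟨-L, by linarith, ?_⟩
  intro P x y hx hy n1 s hM
  obtain ⟨ρK, hρK, hKB⟩ := stKB P x y hx hy n1 s hM
  obtain ⟨c1, hc1, hsm⟩ := exists_common s (fun l c => ∀ (R : ℕ → ℝ) (X Y : ℕ → ℤ → ℤ),
      Approx x y R X Y → ∀ᶠ j in atTop, 0 < R j → ∀ r : ℤ, (r : ℝ) ≤ c * R j →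
        Small (X j) (Y j) (P.vert l) r)
    (fun l _ => by
      obtain ⟨c0, h0, h⟩ := small_ev hx hy (P.vert l)
      exact ⟨c0, h0, fun R X Y hA => by
        filter_upwards [h R X Y hA] with j hj _
        exact hj⟩)
    (fun l c c' hc h R X Y hA => by
      filter_upwards [h R X Y hA] with j hj hR r hr
      exact hj hR r (hr.trans (mul_le_mul_of_nonneg_right hc hR.le)))
  obtain ⟨cg, hcg, hgap⟩ := cgap_ev hx hy P.Q
  obtain ⟨C1, hC1, hup⟩ := hh_upper P hx hy hM.1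
  refine ⟨min (min ρK c1) cg, lt_min (lt_min hρK hc1) hcg, ?_⟩
  intro ρ hρ hρ0
  have hρ1 : ρ ≤ ρK := hρ0.trans ((min_le_left _ _).trans (min_le_left _ _))
  have hρ2 : ρ ≤ c1 := hρ0.trans ((min_le_left _ _).trans (min_le_right _ _))
  have hρ3 : ρ ≤ cg := hρ0.trans (min_le_right _ _)
  obtain ⟨ηK, hηK, hKB⟩ := hKB ρ hρ hρ1
  set B : ℝ := C2 * (ρ / 16) ^ (-(1 / 3) : ℝ) / cz with hB
  have hB0 : 0 < B := by positivity
  set G : ℝ := C1 / cz * (s.card * (2 * ((1 - δ)⁻¹ * (ρ / 80) ^ L)) * B ^ s.card) with hG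
  have hG0 : 0 ≤ G := by positivity
  refine ⟨G + 1, min ηK (ρ / 80), by positivity, lt_min hηK (by positivity), ?_⟩
  intro η hη hη0 P2 i k φ x2 y2 hR hx2 hy2 hxe hye hm R X Y hA
  have hη1 : η ≤ ηK := hη0.trans (min_le_left _ _)
  have hη2 : η ≤ ρ / 80 := hη0.trans (min_le_right _ _)
  have hq : 1 ≤ ρ / 80 / η := by rw [le_div_iff₀ hη]; linarith
  obtain ⟨k0, hk0, hk1⟩ := exists_scales hδ0 hδ1 hq
  have hA' : App x y R (fun j => X j ∘ i) (fun j => Y j ∘ k) := by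
    refine ⟨⟨hA.app.R_top, fun a => ?_, fun a => ?_⟩, ?_⟩
    · rw [hxe]; exact hA.app.X_lim (i a)
    · rw [hye]; exact hA.app.Y_lim (k a)
    · filter_upwards [hA.mono] with j hj
      exact ⟨hj.1.comp hR.hi, hj.2.comp hR.hk⟩
  have e1 : ∀ᶠ j in atTop, ∀ l ∈ s, 0 < R j → ∀ r : ℤ, (r : ℝ) ≤ c1 * R j →
      Small (X j ∘ i) (Y j ∘ k) (P.vert l) r := by
    rw [Filter.eventually_all_finset]
    exact fun l hl => hsm l hl R _ _ hA'.app
  have e6 : ∀ᶠ j in atTop, ∀ l ∈ s, ∀ N : ℤ, (N : ℝ) ≤ ρ / 3 * R j → ∀ c ∈ P2.Q,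
      c ∉ Kb P2 x2 y2 ρ (φ l) → ∀ v, inRect (X j) (Y j) c v →
      far (lv P2 (X j) (Y j) (φ l)) v N := by
    rw [Filter.eventually_all_finset]
    exact fun l _ => kb_far_ev hA.app hx2 hR.tri hη hm (by linarith) (φ l)
  have hKs := (hKB P2 i k φ x2 y2 hR hx2 hy2 hxe hye (fun c hc =>
    ⟨(hm c hc).1.trans hη1, (hm c hc).2.trans hη1⟩)).1
  filter_upwards [e1, hgap R _ _ hA'.app, hup R _ _ hA', gap_ev hx2 hy2 P2.Q 10 hA,
    mesh_ev' hA.app hx2 hR.tri hη hm, e6, hA.mono,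
    hA.app.R_top.eventually_ge_atTop (2 / η), hA.app.R_top.eventually_ge_atTop (36 / ρ),
    hA.app.R_top.eventually_ge_atTop 1]
    with j e1 e2 e3 e4 e5 e6 e7 e8 e9 e10
  obtain ⟨hX, hY⟩ := e7
  have hX' : StrictMono (X j ∘ i) := hX.comp hR.hi
  have hY' : StrictMono (Y j ∘ k) := hY.comp hR.hk
  rw [div_le_iff₀ hη] at e8
  rw [div_le_iff₀ hρ] at e9
  have hR0 : 0 < R j := by linarith
  set N : ℤ := ⌊ρ / 8 * R j⌋ with hN
  have hN1 : (N : ℝ) ≤ ρ / 8 * R j := Int.floor_le _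
  have hN2 : ρ / 8 * R j < N + 1 := Int.lt_floor_add_one _
  have hN3 : ρ / 16 * R j ≤ N := by linarith
  have hN4 : 1 ≤ N := by
    have : (1 : ℝ) < N := by linarith
    exact_mod_cast this.le
  set w : ℤ := ⌈4 * η * R j⌉ with hw
  have hw1 : 4 * η * R j ≤ w := Int.le_ceil _
  have hw2 : (w : ℝ) < 4 * η * R j + 1 := Int.ceil_lt_add_one _
  have hw0 : 0 ≤ w := by
    have : (0 : ℝ) ≤ w := le_trans (by positivity) hw1
    exact_mod_cast this
  have hw3 : (w : ℝ) + 1 ≤ 5 * η * R j := by linarith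
  have hcR : ρ * R j ≤ c1 * R j := mul_le_mul_of_nonneg_right hρ2 hR0.le
  have hgR : ρ * R j ≤ cg * R j := mul_le_mul_of_nonneg_right hρ3 hR0.le
  have hk4 : 4 ^ k0 * (w + 1) ≤ N := by
    have h1 : (4 : ℝ) ^ k0 * ((w : ℝ) + 1) ≤ N := by
      calc (4 : ℝ) ^ k0 * ((w : ℝ) + 1) ≤ ρ / 80 / η * (5 * η * R j) :=
            mul_le_mul hk0 hw3 (by
              have : (0 : ℝ) ≤ w := by exact_mod_cast hw0
              linarith) (by positivity)
        _ = ρ / 16 * R j := by field_simp; ring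
        _ ≤ N := hN3
    exact_mod_cast h1
  have hS1 : ∀ l ∈ s, Small (X j ∘ i) (Y j ∘ k) (P.vert l) N := fun l hl =>
    e1 l hl hR0 N (by linarith [mul_pos hρ hR0])
  have hS2 : ∀ l ∈ s, Small (X j ∘ i) (Y j ∘ k) (P.vert l) (2 * N) := fun l hl =>
    e1 l hl hR0 (2 * N) (by push_cast; linarith [mul_pos hρ hR0])
  have hlv : ∀ l, lv P2 (X j) (Y j) (φ l) = lv P (X j ∘ i) (Y j ∘ k) l := hR.lv (X j) (Y j)
  have hsd : ∀ l, (P2.side (φ l)).2 = (P.side l).2 := fun l =>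
    hR.sdir l (φ l) le_rfl (hR.hφ (by omega))
  have hCG := e2 (2 * N + 1) (by push_cast; linarith [mul_pos hρ hR0])
  have key := hfin P2 (X j) (Y j) hR.tri e4 (φ n1) (s.image φ) (Kb P2 x2 y2 ρ) (hR.marks hM)
    (by
      intro l hl
      obtain ⟨l', hl', rfl⟩ := mem_image.1 hl
      exact (hKs l' hl').1)
    N N w k0 hN4 hw0 hk4 (e5 w hw1)
    (by
      intro l hl
      obtain ⟨l', hl', rfl⟩ := mem_image.1 hl
      rw [hsd, hlv, hR.EL _ _ hX hY, hR.WL _ _ hX hY]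
      exact flat_EL hX' hY' (hM.2 l' hl').1 (by omega) (hS1 l' hl'))
    (by
      intro l hl v hv
      obtain ⟨l', hl', rfl⟩ := mem_image.1 hl
      rw [hsd, hlv]
      exact TV_out hX' hY' (hM.2 l' hl').1 (hS1 l' hl') v ((hR.TV _ _ hX hY v).1 hv))
    (by
      intro l hl m hm' hne
      obtain ⟨l', hl', rfl⟩ := mem_image.1 hl
      obtain ⟨m', hm'', rfl⟩ := mem_image.1 hm'
      rw [hlv, hlv]
      exact lv_far hX' hY' ((hM.2 l' hl').1.2.1.trans P.hmN) ((hM.2 m' hm'').1.2.1.trans P.hmN)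
        (fun h => hne (by rw [h])) (hS2 l' hl'))
    (by
      intro l hl c hc hcK v hv
      obtain ⟨l', hl', rfl⟩ := mem_image.1 hl
      exact e6 l' hl' (N + N + 3) (by push_cast; linarith [mul_pos hρ hR0]) c hc hcK v hv)
    (by
      intro l hl v hv
      obtain ⟨l', hl', rfl⟩ := mem_image.1 hl
      exact hsep P P2 i k φ hR (X j) (Y j) hX hY (2 * N + 1) N (by omega) hCG l'
        (hM.2 l' hl').1 v hv)
  refine key.trans ?_
  -- the estimate
  have hRp : 0 < R j ^ (-(1 / 3) : ℝ) := Real.rpow_pos_of_pos hR0 _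
  have hpzj := (hpz (R j) e10).1
  have hRz : R j ^ (-(1 / 3) : ℝ) ≤ pz (R j) / cz := by
    rw [le_div_iff₀ hcz]; linarith
  have b1 : Pr (EL P2 (X j) (Y j)) (CT P2 (X j) (Y j) (lv P2 (X j) (Y j) (φ n1))) ≤
      C1 / cz * pz (R j) := by
    have : Pr (EL P2 (X j) (Y j)) (CT P2 (X j) (Y j) (lv P2 (X j) (Y j) (φ n1))) =
        hh P (X j ∘ i) (Y j ∘ k) (lv P (X j ∘ i) (Y j ∘ k) n1) := by
      unfold hh
      rw [hR.EL _ _ hX hY, hlv]
      exact Pr_congr fun ω _ => hR.CT hX hY _ ω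
    rw [this]
    refine e3.trans ?_
    calc C1 * R j ^ (-(1 / 3) : ℝ) ≤ C1 * (pz (R j) / cz) :=
          mul_le_mul_of_nonneg_left hRz hC1.le
      _ = C1 / cz * pz (R j) := by ring
  have b2 : ∏ l ∈ s.image φ, Pr (EL P2 (X j) (Y j))
      (AS (Sd (P2.side l).2 (lv P2 (X j) (Y j) l)) N) ≤ (B * pz (R j)) ^ s.card := by
    have hcard : (s.image φ).card = s.card := card_image_of_injective _ hR.hφ.injective
    rw [← hcard, ← prod_const]
    refine prod_le_prod (fun l _ => Pr_nonneg _ _) (fun l _ => ?_)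
    refine (Pr_AS_le (by omega) _).trans ((hph N hN4).trans ?_)
    have hN0 : (0 : ℝ) < N := by exact_mod_cast (by omega : 0 < N)
    calc C2 * (N : ℝ) ^ (-(1 / 3) : ℝ) ≤ C2 * (ρ / 16 * R j) ^ (-(1 / 3) : ℝ) :=
          mul_le_mul_of_nonneg_left (Real.rpow_le_rpow_of_nonpos (by positivity) hN3
            (by norm_num)) (by linarith)
      _ = C2 * (ρ / 16) ^ (-(1 / 3) : ℝ) * R j ^ (-(1 / 3) : ℝ) := by
          rw [Real.mul_rpow (by positivity) hR0.le]; ring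
      _ ≤ C2 * (ρ / 16) ^ (-(1 / 3) : ℝ) * (pz (R j) / cz) :=
          mul_le_mul_of_nonneg_left hRz (by positivity)
      _ = B * pz (R j) := by rw [hB]; ring
  have b3 : (1 - δ) ^ k0 ≤ (1 - δ)⁻¹ * (ρ / 80) ^ L * η ^ (-L) := by
    refine hk1.trans (le_of_eq ?_)
    rw [Real.div_rpow (by positivity) hη.le, Real.rpow_neg hη.le, ← hL]
    ring
  have hcard' : ((s.image φ).card : ℝ) = s.card := by
    rw [card_image_of_injective _ hR.hφ.injective]
  rw [hcard']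
  have hp := hpos (R j)
  calc Pr (EL P2 (X j) (Y j)) (CT P2 (X j) (Y j) (lv P2 (X j) (Y j) (φ n1))) *
        (s.card * (2 * (1 - δ) ^ k0) * ∏ l ∈ s.image φ, Pr (EL P2 (X j) (Y j))
          (AS (Sd (P2.side l).2 (lv P2 (X j) (Y j) l)) N))
      ≤ C1 / cz * pz (R j) * (s.card * (2 * ((1 - δ)⁻¹ * (ρ / 80) ^ L * η ^ (-L))) *
          (B * pz (R j)) ^ s.card) := by
        refine mul_le_mul b1 ?_ (mul_nonneg (by positivity) (prod_nonneg fun l _ =>
          Pr_nonneg _ _)) (by positivity)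
        refine mul_le_mul ?_ b2 (prod_nonneg fun l _ => Pr_nonneg _ _) (by positivity)
        exact mul_le_mul_of_nonneg_left (mul_le_mul_of_nonneg_left b3 (by norm_num))
          (Nat.cast_nonneg _)
    _ = G * η ^ (-L) * pz (R j) ^ (s.card + 1) := by
        rw [hG, mul_pow, pow_succ]; ring
    _ ≤ (G + 1) * η ^ (-L) * pz (R j) ^ (s.card + 1) := by
        refine mul_le_mul_of_nonneg_right (mul_le_mul_of_nonneg_right (by linarith) ?_)
          (by positivity)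
        positivity

end Pool.Agent.H29.Q1
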