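import Mathlib
import Pool.Agent.H29.Q1.Root
import Pool.Agent.H90.Q1.LBStmt

set_option autoImplicit false
set_option linter.unusedSimpArgs false
open Finset

/-! Q1, module M5, lower bound of C2: `StSepF` (helper90): separation of the two corridors of a flat
vertex, for the fine type. -/

namespace Pool.Agent.H29.Q1

open Pool.Agent.H75.Perc hiding WL
open Pool.Agent.H75.TwoArm Pool.Agent.H75.Four Pool.Agent.H49.Q1 Pool.Agent.H5.Q1
open Pool.Agent.H77.Q1 (Far CGap CorF sep_far_cells Ar)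
open Pool.Agent.Q1.M4 (Conn4 Adj4 Good Cell IsSide nextSide tail head PType isSide_next
  head_eq_tail_next inV inRect lpt tail_inj Eqv)
open Pool.Agent.Q1.M5
open Pool.Agent.H44.Q1 (Refi)
open Pool.Agent.H90.Q1 (rt rt_pos StSepF)

/-- The coarse side of a fine side. -/
lemma refi_loc {P P2 : PType} {i k : ℤ → ℤ} {φ : ℕ → ℕ} (hr : Refi P P2 i k φ) (n' : ℕ) :
    ∃ n, φ n ≤ n' ∧ n' < φ (n + 1) := by
  have h1 : ∀ m, m ≤ φ m := fun m => hr.hφ.id_le m
  obtain ⟨n, hn, hn'⟩ : ∃ n, n' < φ (n + 1) ∧ ∀ m < n, ¬ n' < φ (m + 1) := by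
    have hex : ∃ n, n' < φ (n + 1) := ⟨n', by have := h1 (n' + 1); omega⟩
    classical
    exact ⟨Nat.find hex, Nat.find_spec hex, fun m hm => Nat.find_min hex hm⟩
  refine ⟨n, ?_, hn⟩
  rcases Nat.eq_zero_or_pos n with rfl | h
  · rw [hr.zero]; omega
  · have := hn' (n - 1) (by omega)
    rw [show n - 1 + 1 = n by omega] at this
    omega

/-- Vertices of a fine side are vertices of the coarse side. -/
lemma refi_sV {P P2 : PType} {i k : ℤ → ℤ} {φ : ℕ → ℕ} (hr : Refi P P2 i k φ) {X Y : ℤ → ℤ}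
    (hX : StrictMono X) (hY : StrictMono Y) {n n' : ℕ} (h1 : φ n ≤ n') (h2 : n' < φ (n + 1))
    {p : ℤ × ℤ} (hp : sV X Y (P2.side n') p) : sV (X ∘ i) (Y ∘ k) (P.side n) p := by
  have hd := hr.sdir n n' h1 h2
  obtain ⟨⟨c1, c2⟩, ⟨c3, c4⟩⟩ := hr.side n n' h1 h2
  have hs := isSide P2 n'
  have hc := (isSide P n).1
  rcases hf : P2.side n' with ⟨⟨f1, f2⟩, kf⟩
  rcases hg : P.side n with ⟨⟨g1, g2⟩, kg⟩
  rw [hf] at hp hd c1 c2 c3 c4 hs
  rw [hg] at hd c1 c2 c3 c4 hc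
  simp only at hd c1 c2 c3 c4 hc
  subst hd
  have x1 : X (i g1) ≤ X f1 := hX.monotone c1
  have x2 : X (f1 + 1) ≤ X (i (g1 + 1)) := hX.monotone (by omega)
  have y1 : Y (k g2) ≤ Y f2 := hY.monotone c3
  have y2 : Y (f2 + 1) ≤ Y (k (g2 + 1)) := hY.monotone (by omega)
  have key : ∀ d : Cell, d ∉ P2.Q → ¬ ((i g1 ≤ d.1 ∧ d.1 < i (g1 + 1)) ∧
      (k g2 ≤ d.2 ∧ d.2 < k (g2 + 1))) := fun d hd h => hd ((hr.Q d).2 ⟨(g1, g2), hc, h⟩)
  have hside := key _ hs.2
  unfold sV onCell inB at hp ⊢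
  simp only [Function.comp] at hp ⊢
  obtain ⟨⟨⟨p1, p2⟩, p3, p4⟩, q0, q1, q2, q3⟩ := hp
  refine ⟨⟨⟨by omega, by omega⟩, by omega, by omega⟩, ?_, ?_, ?_, ?_⟩
  · intro e
    have e' : dir (kf - 1) = (0, -1) := by
      rcases dir_cases (kf - 1) with ⟨h, g⟩ | ⟨h, g⟩ | ⟨h, g⟩ | ⟨h, g⟩ <;>
        first | exact g | (exfalso; omega)
    simp only [e', Prod.mk_add_mk, add_zero] at hside
    have : f2 = k g2 := by omega
    rw [q0 e, this]
  · intro e
    have e' : dir (kf - 1) = (1, 0) := by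
      rcases dir_cases (kf - 1) with ⟨h, g⟩ | ⟨h, g⟩ | ⟨h, g⟩ | ⟨h, g⟩ <;>
        first | exact g | (exfalso; omega)
    simp only [e', Prod.mk_add_mk, add_zero] at hside
    have : f1 + 1 = i (g1 + 1) := by omega
    rw [q1 e, this]
  · intro e
    have e' : dir (kf - 1) = (0, 1) := by
      rcases dir_cases (kf - 1) with ⟨h, g⟩ | ⟨h, g⟩ | ⟨h, g⟩ | ⟨h, g⟩ <;>
        first | exact g | (exfalso; omega)
    simp only [e', Prod.mk_add_mk, add_zero] at hside
    have : f2 + 1 = k (g2 + 1) := by omega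
    rw [q2 e, this]
  · intro e
    have e' : dir (kf - 1) = (-1, 0) := by
      rcases dir_cases (kf - 1) with ⟨h, g⟩ | ⟨h, g⟩ | ⟨h, g⟩ | ⟨h, g⟩ <;>
        first | exact g | (exfalso; omega)
    simp only [e', Prod.mk_add_mk, add_zero] at hside
    have : f1 = i g1 := by omega
    rw [q3 e, this]

lemma ar_corner (z : ℤ × ℤ) : Ar (vx z) (fi z) := by
  have h := VF_corner z
  unfold VF at h
  unfold Ar
  simp only [Prod.ext_iff, Prod.fst_add, Prod.snd_add]
  omega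

theorem stSepF : StSepF := by
  intro P P2 i k φ hr X Y hX hY w D hD hG n hn v hv
  have hφ0 : φ n < φ P.m := hr.hφ hn.2.1
  rw [hr.m] at hφ0
  have hi := hr.hi
  have hk := hr.hk
  have hX' : StrictMono (X ∘ i) := hX.comp hi
  have hY' : StrictMono (Y ∘ k) := hY.comp hk
  have hlv : lv P2 X Y (φ n) = lv P (X ∘ i) (Y ∘ k) n := by
    unfold lv
    rw [hr.vert]
    rfl
  rw [hlv] at hv
  have hpn : rt P2 X Y (φ n) = pos P2 X Y (φ n) - 1 := rfl
  have hb := posB_lt hX hY P2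
  rcases sep_far_cells P hX' hY' hG hn hD hv with h | h
  · left
    intro j hj1 hj2
    obtain ⟨n', hn', h3, h4⟩ := exists_side (Q := P2.Q) (X := X) (Y := Y) (s := P2.s0)
      (M := φ n) (i := j) (show j < pos P2 X Y (φ n) by omega)
    obtain ⟨m, hm1, hm2⟩ := refi_loc hr n'
    refine h _ ⟨m, Nat.zero_le _, ?_, _, refi_sV hr hX hY hm1 hm2 (vx_side hX hY h3 h4),
      ar_corner _⟩
    exact hr.hφ.lt_iff_lt.1 (by omega)
  · right
    intro j hj1 hj2
    have hposn : pos P2 X Y (φ n) ≤ j := by omega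
    have key : ∃ n', φ n ≤ n' ∧ n' < P2.m ∧ sV X Y (P2.side n') (vx (pcor P2 X Y j)) := by
      by_cases hjb : j = posB P2 X Y
      · have hsl := slen_pos hX hY (P2.side (P2.m - 1))
        refine ⟨P2.m - 1, by omega, by omega, ?_⟩
        have e : j = pos P2 X Y (P2.m - 1) + 2 * slen X Y (P2.side (P2.m - 1)) - 1 := by
          rw [hjb]; unfold posB; omega
        rw [e, pcor_first hX hY P2 hsl le_rfl, vx_oc]
        exact sV_sp hX hY _ le_rfl
      · obtain ⟨n', hn', h3, h4⟩ := exists_side (Q := P2.Q) (X := X) (Y := Y) (s := P2.s0)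
          (M := P2.m) (i := j) (show j < pos P2 X Y P2.m by omega)
        refine ⟨n', ?_, hn', vx_side hX hY h3 h4⟩
        by_contra h5
        have h6 := pos_mono P2 X Y (show n' + 1 ≤ φ n by omega)
        have h4' : j < pos P2 X Y (n' + 1) := h4
        omega
    obtain ⟨n', hn1, hn2, hn3⟩ := key
    obtain ⟨m, hm1, hm2⟩ := refi_loc hr n'
    refine h _ ⟨m, ?_, ?_, _, refi_sV hr hX hY hm1 hm2 hn3, ar_corner _⟩
    · have : n < m + 1 := hr.hφ.lt_iff_lt.1 (by omega)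
      omega
    · exact hr.hφ.lt_iff_lt.1 (by rw [hr.m]; omega)

end Pool.Agent.H29.Q1
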